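import Pool.Agent.Lib.MP_098ea1_pr.Mg.G001

section

/-!
# TASK BR GT: Gaussian tail

Let `X` have the law `gaussianReal 0 v`, `v > 0`. Chernoff: `P (r < |X|) ≤ 2 exp(-r²/(2v))` (mgf of `gaussianReal`: `exp (v t²/2)`; Mathlib:
`HasSubgaussianMGF` with `measure_ge_le`, or Markov for `exp(tX)`, `t = r/v`, and for `-X`). `exp(-y) ≤ 8!/y^8` for `y > 0`. So
`P (r < |X|) ≤ 2 · 8! · (2v/r²)^8`. The norm of `W t - W x` is the maximum of three coordinates with this law (`coord_law`), `v = t - x`: union bound,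
`C = 6 · 8! · 2^8`. For `x = t` the event is null (both sides are 0).
-/

set_option autoImplicit false

open MeasureTheory ProbabilityTheory Set Filter Topology
open scoped NNReal ENNReal

namespace Pool.Agent.Lib.MP_098ea1_pr.BR

universe u

private theorem GT_one {Ω : Type u} [MeasurableSpace Ω] (P : Measure Ω) [IsProbabilityMeasure P]
    {X : Ω → ℝ} {v : ℝ≥0} (hX : HasLaw X (gaussianReal 0 v) P) (hv : 0 < v) {r : ℝ} (hr : 0 < r) :
    P.real {ω | r ≤ X ω} ≤ Real.exp (-(r ^ 2 / (2 * v))) := by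
  have hv' : (0 : ℝ) < v := by exact_mod_cast hv
  have hint : Integrable (fun ω => Real.exp (r / v * X ω)) P := by
    have h1 : Integrable (fun x : ℝ => Real.exp (r / v * x)) (P.map X) := by
      rw [hX.map_eq]
      exact integrable_exp_mul_gaussianReal _
    exact h1.comp_aemeasurable hX.aemeasurable
  have h2 := measure_ge_le_exp_mul_mgf r (by positivity : 0 ≤ r / v) hint
  rw [mgf_gaussianReal hX.map_eq, ← Real.exp_add] at h2
  refine h2.trans (Real.exp_le_exp.2 (le_of_eq ?_))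
  field_simp
  ring

private theorem GT_exp {y : ℝ} (hy : 0 < y) : Real.exp (-y) ≤ 40320 / y ^ 8 := by
  have h1 := Real.pow_div_factorial_le_exp y hy.le 8
  have h2 : ((Nat.factorial 8 : ℕ) : ℝ) = 40320 := by norm_num [Nat.factorial]
  rw [h2] at h1
  rw [Real.exp_neg, inv_le_comm₀ (Real.exp_pos _) (by positivity)]
  refine le_trans (le_of_eq ?_) h1
  rw [inv_div]

private theorem GT_abs {Ω : Type u} [MeasurableSpace Ω] (P : Measure Ω) [IsProbabilityMeasure P]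
    {X : Ω → ℝ} {v : ℝ≥0} (hX : HasLaw X (gaussianReal 0 v) P) (hv : 0 < v) {r : ℝ} (hr : 0 < r) :
    P {ω | r < |X ω|} ≤ ENNReal.ofReal (2 * (40320 * 256) * ((v : ℝ) / r ^ 2) ^ 8) := by
  have hv' : (0 : ℝ) < v := by exact_mod_cast hv
  have hneg : HasLaw (fun ω => -X ω) (gaussianReal 0 v) P := by
    refine ⟨hX.aemeasurable.neg, ?_⟩
    have h1 : P.map (fun ω => -X ω) = (P.map X).map (fun x => -x) := by
      rw [AEMeasurable.map_map_of_aemeasurable (by fun_prop) hX.aemeasurable]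
      rfl
    rw [h1, hX.map_eq, gaussianReal_map_neg, neg_zero]
  have h1 := GT_one P hX hv hr
  have h2 := GT_one P hneg hv hr
  have h3 : Real.exp (-(r ^ 2 / (2 * v))) ≤ 40320 * 256 * ((v : ℝ) / r ^ 2) ^ 8 := by
    refine (GT_exp (by positivity)).trans (le_of_eq ?_)
    field_simp
    ring
  have h4 : {ω | r < |X ω|} ⊆ {ω | r ≤ X ω} ∪ {ω | r ≤ -X ω} := by
    intro ω hω
    have h5 : r < |X ω| := hω
    rcases lt_abs.1 h5 with h | h
    · exact Or.inl h.le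
    · exact Or.inr h.le
  calc P {ω | r < |X ω|} ≤ P ({ω | r ≤ X ω} ∪ {ω | r ≤ -X ω}) := measure_mono h4
    _ ≤ P {ω | r ≤ X ω} + P {ω | r ≤ -X ω} := measure_union_le _ _
    _ = ENNReal.ofReal (P.real {ω | r ≤ X ω}) + ENNReal.ofReal (P.real {ω | r ≤ -X ω}) := by
        rw [ofReal_measureReal, ofReal_measureReal]
    _ ≤ ENNReal.ofReal (40320 * 256 * ((v : ℝ) / r ^ 2) ^ 8) +
        ENNReal.ofReal (40320 * 256 * ((v : ℝ) / r ^ 2) ^ 8) :=
        add_le_add (ENNReal.ofReal_le_ofReal (h1.trans h3)) (ENNReal.ofReal_le_ofReal (h2.trans h3))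
    _ = ENNReal.ofReal (2 * (40320 * 256) * ((v : ℝ) / r ^ 2) ^ 8) := by
        rw [← ENNReal.ofReal_add (by positivity) (by positivity)]
        congr 1
        ring

theorem coord_tail : ∃ C : ℝ, 0 < C ∧ ∀ {Ω : Type u} [MeasurableSpace Ω] (P : Measure Ω) [IsProbabilityMeasure P]
    (W : ℝ≥0 → Ω → V), BM W P → ∀ (x t : ℝ≥0) (r : ℝ), x ≤ t → 0 < r →
    P {ω | r < ‖W t ω - W x ω‖} ≤ ENNReal.ofReal (C * (((t : ℝ) - x) / r ^ 2) ^ 8) := by
  refine ⟨3 * (2 * (40320 * 256)), by norm_num, ?_⟩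
  intro Ω _ P _ W hW x t r hxt hr
  rcases eq_or_lt_of_le hxt with rfl | hlt
  · have h0 : {ω | r < ‖W x ω - W x ω‖} = ∅ := by
      ext ω
      simp only [sub_self, norm_zero, Set.mem_ofPred_eq, Set.mem_empty_iff_false, iff_false, not_lt]
      exact hr.le
    rw [h0, measure_empty]
    exact zero_le
  · have hv : 0 < t - x := tsub_pos_of_lt hlt
    have hvc : ((t - x : ℝ≥0) : ℝ) = (t : ℝ) - x := NNReal.coe_sub hxt
    have h1 : ∀ i : Fin 3, P {ω | r < |W t ω i - W x ω i|} ≤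
        ENNReal.ofReal (2 * (40320 * 256) * (((t : ℝ) - x) / r ^ 2) ^ 8) := by
      intro i
      have h2 := GT_abs P (coord_law hW i hxt) hv hr
      rw [hvc] at h2
      exact h2
    have h2 : {ω | r < ‖W t ω - W x ω‖} ⊆ ⋃ i : Fin 3, {ω | r < |W t ω i - W x ω i|} := by
      intro ω hω
      have h3 : r < ‖W t ω - W x ω‖ := hω
      rw [Set.mem_iUnion]
      by_contra hcon
      push Not at hcon
      have h4 : ‖W t ω - W x ω‖ ≤ r := by
        rw [pi_norm_le_iff_of_nonneg hr.le]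
        intro i
        have h5 := hcon i
        rw [Set.mem_ofPred_eq, not_lt] at h5
        rw [Real.norm_eq_abs]
        exact h5
      linarith
    calc P {ω | r < ‖W t ω - W x ω‖} ≤ P (⋃ i : Fin 3, {ω | r < |W t ω i - W x ω i|}) :=
          measure_mono h2
      _ ≤ ∑ i : Fin 3, P {ω | r < |W t ω i - W x ω i|} := measure_iUnion_fintype_le _ _
      _ ≤ ∑ _i : Fin 3, ENNReal.ofReal (2 * (40320 * 256) * (((t : ℝ) - x) / r ^ 2) ^ 8) :=
          Finset.sum_le_sum fun i _ => h1 i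
      _ = ENNReal.ofReal (3 * (2 * (40320 * 256)) * (((t : ℝ) - x) / r ^ 2) ^ 8) := by
          rw [Finset.sum_const, Finset.card_univ, Fintype.card_fin, nsmul_eq_mul, mul_assoc 3,
            ENNReal.ofReal_mul (by norm_num : (0 : ℝ) ≤ 3)]
          norm_num

end Pool.Agent.Lib.MP_098ea1_pr.BR
end

section

/-!
# TASK BR SU: the maximum of the path

If `r < ‖W x ω‖` for some `x ≤ T`, then by `chaining` (contrapositive, `S = r`) there are `m` and `i < 2^m` with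
`(r/8) (7/8)^m < ‖W ((i+1) T/2^m) ω - W (i T/2^m) ω‖`. By `coord_tail` each of these events has probability at most
`C (T 2^(-m) / ((r/8)² (49/64)^m))^8 = C (64 T/r²)^8 ((32/49)^8)^m`; there are `2^m` of them: total `C 64^8 (T/r²)^8 ∑_m (2 (32/49)^8)^m`, and `2 (32/49)^8 < 1/2`. Note
`(T/r²)^8 = (√T/r)^16`. Constant `C' = 2 C 64^8`. (`measure_iUnion_le`, `ENNReal.ofReal_tsum_of_nonneg` or a geometric series in `ℝ≥0∞`.)
-/

set_option autoImplicit false

open MeasureTheory ProbabilityTheory Set Filter Topology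
open scoped NNReal ENNReal

namespace Pool.Agent.Lib.MP_098ea1_pr.BR

universe u

theorem sup_bound : ∃ C : ℝ, 1 ≤ C ∧ ∀ {Ω : Type u} [MeasurableSpace Ω] (P : Measure Ω) [IsProbabilityMeasure P]
    (W : ℝ≥0 → Ω → V), BM W P → ∀ (T : ℝ≥0) (r : ℝ), 0 < r →
    P {ω | ∃ x ∈ Set.Iic T, r < ‖W x ω‖} ≤ ENNReal.ofReal (C * (Real.sqrt T / r) ^ 16) := by
  obtain ⟨C, hC, htail⟩ := coord_tail.{u}
  refine ⟨max 1 (2 * C * 64 ^ 8), le_max_left _ _, ?_⟩
  intro Ω _ P _ W hW T r hr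
  set A : ℕ → ℕ → Set Ω := fun m i => {ω | r / 8 * (7 / 8 : ℝ) ^ m <
    ‖W (((i + 1 : ℕ) : ℝ≥0) * T / 2 ^ m) ω - W ((i : ℝ≥0) * T / 2 ^ m) ω‖} with hA
  have hsub : {ω | ∃ x ∈ Set.Iic T, r < ‖W x ω‖} ⊆ ⋃ m, ⋃ i ∈ Finset.range (2 ^ m), A m i := by
    rintro ω ⟨x, hx, hxr⟩
    by_contra hno
    simp only [Set.mem_iUnion, not_exists, Finset.mem_range] at hno
    have := chaining (fun t => W t ω) (hW.cont ω) (hW.zero ω) T r
      (fun m i hi => not_lt.1 (hno m i hi)) x hx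
    exact absurd hxr (not_lt.2 this)
  set Q : ℝ := C * (64 ^ 8 * ((T : ℝ) / r ^ 2) ^ 8) with hQ
  have hT0 : (0 : ℝ) ≤ T := T.2
  have hQ0 : 0 ≤ Q := by positivity
  have hm : ∀ m : ℕ, P (⋃ i ∈ Finset.range (2 ^ m), A m i) ≤ ENNReal.ofReal (Q * (1 / 2) ^ m) := by
    intro m
    have h1 : ∀ i ∈ Finset.range (2 ^ m), P (A m i) ≤
        ENNReal.ofReal (C * (((T : ℝ) / 2 ^ m) / (r / 8 * (7 / 8 : ℝ) ^ m) ^ 2) ^ 8) := by
      intro i _
      have h2 := htail P W hW ((i : ℝ≥0) * T / 2 ^ m) (((i + 1 : ℕ) : ℝ≥0) * T / 2 ^ m)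
        (r / 8 * (7 / 8 : ℝ) ^ m) (by
          gcongr
          exact Nat.le_succ i) (by positivity)
      refine h2.trans (le_of_eq ?_)
      congr 4
      push_cast
      ring
    refine (measure_biUnion_finset_le _ _).trans ((Finset.sum_le_sum h1).trans ?_)
    rw [Finset.sum_const, Finset.card_range, nsmul_eq_mul,
      show (((2 ^ m : ℕ) : ℝ≥0∞)) = ENNReal.ofReal ((2 : ℝ) ^ m) by
        rw [← ENNReal.ofReal_natCast]; push_cast; rfl,
      ← ENNReal.ofReal_mul (by positivity)]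
    refine ENNReal.ofReal_le_ofReal ?_
    have e : (2 : ℝ) ^ m * (C * (((T : ℝ) / 2 ^ m) / (r / 8 * (7 / 8 : ℝ) ^ m) ^ 2) ^ 8) =
        Q * (2 * (32 / 49) ^ 8) ^ m := by
      have e1 : ((T : ℝ) / 2 ^ m) / (r / 8 * (7 / 8 : ℝ) ^ m) ^ 2 =
          64 * ((T : ℝ) / r ^ 2) * (32 / 49) ^ m := by
        have h3 : ((32 : ℝ) / 49) ^ m = 1 / (2 ^ m * ((7 / 8) ^ m) ^ 2) := by
          rw [← pow_mul, mul_comm m 2, pow_mul, ← mul_pow, ← one_div_pow]
          norm_num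
        rw [h3]
        field_simp
        norm_num
      rw [e1, hQ, mul_pow, mul_pow, mul_pow, ← pow_mul, ← pow_mul, mul_comm m 8]
      ring
    rw [e]
    refine mul_le_mul_of_nonneg_left ?_ hQ0
    exact pow_le_pow_left₀ (by positivity) (by norm_num) m
  calc P {ω | ∃ x ∈ Set.Iic T, r < ‖W x ω‖} ≤ P (⋃ m, ⋃ i ∈ Finset.range (2 ^ m), A m i) :=
        measure_mono hsub
    _ ≤ ∑' m, P (⋃ i ∈ Finset.range (2 ^ m), A m i) := measure_iUnion_le _
    _ ≤ ∑' m : ℕ, ENNReal.ofReal (Q * (1 / 2) ^ m) := ENNReal.tsum_le_tsum hm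
    _ = ENNReal.ofReal (∑' m : ℕ, Q * (1 / 2) ^ m) := by
        rw [ENNReal.ofReal_tsum_of_nonneg (fun m => by positivity)
          (summable_geometric_two.mul_left Q)]
    _ ≤ ENNReal.ofReal (max 1 (2 * C * 64 ^ 8) * (Real.sqrt T / r) ^ 16) := by
        refine ENNReal.ofReal_le_ofReal ?_
        rw [tsum_mul_left, tsum_geometric_two]
        have e2 : (Real.sqrt T / r) ^ 16 = ((T : ℝ) / r ^ 2) ^ 8 := by
          rw [show (16 : ℕ) = 2 * 8 from rfl, pow_mul, div_pow, Real.sq_sqrt hT0]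
        rw [e2, hQ]
        have h4 : 2 * C * 64 ^ 8 ≤ max 1 (2 * C * 64 ^ 8) := le_max_right _ _
        have h5 : 0 ≤ ((T : ℝ) / r ^ 2) ^ 8 := by positivity
        nlinarith [mul_le_mul_of_nonneg_right h4 h5]

end Pool.Agent.Lib.MP_098ea1_pr.BR
end

section

/-!
# TASK BR IW: large increments in the windows

`C₀` of `sup_bound`. `win_bound`: the Brownian motion `X x = W (s N (j+1) + x) - W (s N (j+1))` (`BM_shift`) on `[0, s N j]` and `r = 2^(-(i+1)) ell N k / 16`, `i = j - k`: `√(s N j)/r = (ell N j/N^3) 2^(i+5)/ell N k = 2^5 N^(-3) (2 N^(-6))^i`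
(`sqrt_s`, `ell_mul`). Its 16th power is `2^80 N^(-48) ((2/N^6)^16)^i`. So `C = 2^80 C₀` works, and `(2/N^6)^16 ≤ N^(-48)·2^(-1)...`: more precisely `2^16 N^(-96) ≤ N^(-48) 2^(-32)` as `N ≥ 2`; the statement has
`(N^(-48))^i` in place of it. `last_bound`: `[0, s N K]`, `r = 2^(-i) ell N k/16`, `i = K - k`: `√(s N K)/r = 2^4 N^(-3) (2 N^(-6))^i`.
-/

set_option autoImplicit false

open MeasureTheory ProbabilityTheory Set Filter Topology
open scoped NNReal ENNReal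

namespace Pool.Agent.Lib.MP_098ea1_pr.BR

universe u

private theorem IW_num {N : ℕ} (hN : 2 ≤ N) (i : ℕ) :
    (32 * (2 : ℝ) ^ i / ((N : ℝ) ^ 3 * (N : ℝ) ^ (6 * i))) ^ 16 ≤
      (2 : ℝ) ^ 80 * (((N : ℝ) ^ 48)⁻¹) ^ (i + 1) := by
  have hA : (2 : ℝ) ≤ N := by exact_mod_cast hN
  have hA0 : (0 : ℝ) < N := by linarith
  have h48 : (2 : ℝ) ^ 16 ≤ (N : ℝ) ^ 48 :=
    (by norm_num : (2 : ℝ) ^ 16 ≤ 2 ^ 48).trans (pow_le_pow_left₀ (by norm_num) hA 48)
  have h96 : (2 : ℝ) ^ 16 * (N : ℝ) ^ 48 ≤ (N : ℝ) ^ 96 := by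
    calc (2 : ℝ) ^ 16 * (N : ℝ) ^ 48 ≤ (N : ℝ) ^ 48 * (N : ℝ) ^ 48 :=
          mul_le_mul_of_nonneg_right h48 (by positivity)
      _ = (N : ℝ) ^ 96 := by rw [← pow_add]
  have h1 : ((2 : ℝ) ^ 16 * (N : ℝ) ^ 48) ^ i ≤ ((N : ℝ) ^ 96) ^ i :=
    pow_le_pow_left₀ (by positivity) h96 i
  have e1 : (32 * (2 : ℝ) ^ i / ((N : ℝ) ^ 3 * (N : ℝ) ^ (6 * i))) ^ 16 =
      (2 : ℝ) ^ 80 * (((2 : ℝ) ^ 16) ^ i / ((N : ℝ) ^ 48 * ((N : ℝ) ^ 96) ^ i)) := by
    rw [div_pow, mul_pow, mul_pow, mul_div_assoc]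
    congr 1
    · norm_num
    · congr 1
      · rw [← pow_mul, ← pow_mul, Nat.mul_comm]
      · rw [← pow_mul, ← pow_mul, ← pow_mul]
        congr 2
        ring
  have e2 : (((N : ℝ) ^ 48)⁻¹) ^ (i + 1) = 1 / ((N : ℝ) ^ 48 * ((N : ℝ) ^ 48) ^ i) := by
    rw [inv_pow, one_div, pow_succ, mul_comm]
  rw [e1, e2]
  refine mul_le_mul_of_nonneg_left ?_ (by positivity)
  rw [div_le_div_iff₀ (by positivity) (by positivity), one_mul]
  calc ((2 : ℝ) ^ 16) ^ i * ((N : ℝ) ^ 48 * ((N : ℝ) ^ 48) ^ i) =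
        (N : ℝ) ^ 48 * ((2 : ℝ) ^ 16 * (N : ℝ) ^ 48) ^ i := by
        rw [mul_pow ((2 : ℝ) ^ 16) ((N : ℝ) ^ 48) i]
        ring
    _ ≤ (N : ℝ) ^ 48 * ((N : ℝ) ^ 96) ^ i := mul_le_mul_of_nonneg_left h1 (by positivity)

private theorem IW_ratio {N : ℕ} (hN : 2 ≤ N) {k j : ℕ} (hkj : k ≤ j) (c : ℝ)
    (hc : 0 < c) (hi : c⁻¹ ≤ 2 * 2 ^ (j - k)) :
    (Real.sqrt (s N j) / (c * (ell N k / 16))) ^ 16 ≤
      (2 : ℝ) ^ 80 * (((N : ℝ) ^ 48)⁻¹) ^ (j - k + 1) := by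
  have hA : (2 : ℝ) ≤ N := by exact_mod_cast hN
  have hA0 : (0 : ℝ) < N := by linarith
  have hl := ell_pos hN j
  refine le_trans (pow_le_pow_left₀ ?_ ?_ 16) (IW_num hN (j - k))
  · have := ell_pos hN k
    positivity
  · rw [sqrt_s hN, ell_mul hN hkj]
    have e1 : ell N j / (N : ℝ) ^ 3 / (c * (ell N j * (N : ℝ) ^ (6 * (j - k)) / 16)) =
        16 * c⁻¹ / ((N : ℝ) ^ 3 * (N : ℝ) ^ (6 * (j - k))) := by
      field_simp
    rw [e1]
    refine div_le_div_of_nonneg_right ?_ (by positivity)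
    linarith

theorem win_bound : ∃ C : ℝ, 1 ≤ C ∧ ∀ {Ω : Type u} [MeasurableSpace Ω] (P : Measure Ω) [IsProbabilityMeasure P]
    (W : ℝ≥0 → Ω → V), BM W P → ∀ (N k j : ℕ), 2 ≤ N → k ≤ j →
    P {ω | ∃ x ∈ Set.Icc (s N (j + 1)) (s N j), (1 / 2 : ℝ) ^ (j - k + 1) * (ell N k / 16) < ‖W x ω - W (s N (j + 1)) ω‖} ≤
      ENNReal.ofReal (C * (((N : ℝ) ^ 48)⁻¹) ^ (j - k + 1)) := by
  obtain ⟨C, hC1, hC⟩ := sup_bound.{u}
  refine ⟨C * 2 ^ 80, ?_, ?_⟩
  · have : (1 : ℝ) ≤ 2 ^ 80 := by norm_num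
    nlinarith
  intro Ω _ P _ W hW N k j hN hkj
  have hl := ell_pos hN k
  have h1 := hC P (fun x ω => fwd (path W ω) (s N (j + 1)) x) (BM_shift hW (s N (j + 1)))
    (s N j) ((1 / 2 : ℝ) ^ (j - k + 1) * (ell N k / 16)) (by positivity)
  refine le_trans (MeasureTheory.measure_mono ?_) (h1.trans ?_)
  · rintro ω ⟨x, hx, hr⟩
    refine ⟨x - s N (j + 1), ?_, ?_⟩
    · exact le_trans tsub_le_self hx.2
    · have e0 : fwd (path W ω) (s N (j + 1)) (x - s N (j + 1)) = W x ω - W (s N (j + 1)) ω := by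
        unfold fwd path
        rw [add_tsub_cancel_of_le hx.1]
      show _ < ‖fwd (path W ω) (s N (j + 1)) (x - s N (j + 1))‖
      rw [e0]
      exact hr
  · refine ENNReal.ofReal_le_ofReal ?_
    rw [mul_assoc]
    refine mul_le_mul_of_nonneg_left ?_ (by linarith)
    refine IW_ratio hN hkj _ (by positivity) ?_
    rw [one_div, inv_pow, inv_inv, pow_succ, mul_comm]

theorem last_bound : ∃ C : ℝ, 1 ≤ C ∧ ∀ {Ω : Type u} [MeasurableSpace Ω] (P : Measure Ω) [IsProbabilityMeasure P]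
    (W : ℝ≥0 → Ω → V), BM W P → ∀ (N k K : ℕ), 2 ≤ N → k ≤ K →
    P {ω | ∃ x ∈ Set.Iic (s N K), (1 / 2 : ℝ) ^ (K - k) * (ell N k / 16) < ‖W x ω‖} ≤
      ENNReal.ofReal (C * (((N : ℝ) ^ 48)⁻¹) ^ (K - k + 1)) := by
  obtain ⟨C, hC1, hC⟩ := sup_bound.{u}
  refine ⟨C * 2 ^ 80, ?_, ?_⟩
  · have : (1 : ℝ) ≤ 2 ^ 80 := by norm_num
    nlinarith
  intro Ω _ P _ W hW N k K hN hkK
  have hl := ell_pos hN k
  have h1 := hC P W hW (s N K) ((1 / 2 : ℝ) ^ (K - k) * (ell N k / 16)) (by positivity)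
  refine h1.trans (ENNReal.ofReal_le_ofReal ?_)
  rw [mul_assoc]
  refine mul_le_mul_of_nonneg_left ?_ (by linarith)
  refine IW_ratio hN hkK _ (by positivity) ?_
  rw [one_div, inv_pow, inv_inv]
  have : (0 : ℝ) < 2 ^ (K - k) := by positivity
  linarith

end Pool.Agent.Lib.MP_098ea1_pr.BR
end

section

/-!
# TASK BR MP: the Markov property

`fut W t` and `past W t` are independent: real-valued processes indexed by `(x, i)`: `X (x, i) = W (t + x) i - W t i` and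
`Y (x, i) = W x i`, `x ≤ t`; jointly Gaussian and uncorrelated (for `i = j`: `min (t+x) y - min t y = 0` for `y ≤ t`), so independent by
`IsGaussianProcess.indepFun_of_covariance_eq_zero` (compare `IsPreBrownianReal.indepFun_shift` in
`Mathlib/Probability/BrownianMotion/Basic.lean`). The maps `Ω → (ℝ≥0 → V)` and `Ω → (Iic t → V)` in the definitions of `fut`, `past` are measurable functions of
these (currying), so they are independent (`IndepFun.comp`), which is the claim (`IndepFun` is independence of the comap σ-algebras).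
-/

set_option autoImplicit false

open MeasureTheory ProbabilityTheory Set Filter Topology
open scoped NNReal ENNReal

namespace Pool.Agent.Lib.MP_098ea1_pr.BR

universe u

variable {Ω : Type u} [MeasurableSpace Ω] {P : Measure Ω} [IsProbabilityMeasure P] {W : ℝ≥0 → Ω → V}

private theorem MP_indep (hW : BM W P) (t : ℝ≥0) :
    IndepFun (fun ω (p : Fin 3 × ℝ≥0) => W (t + p.2) ω p.1 - W t ω p.1)
      (fun ω (p : Fin 3 × Set.Iic t) => W p.2 ω p.1) P := by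
  have hm : ∀ (i : Fin 3) (x : ℝ≥0), Measurable (fun ω => W x ω i) := fun i x =>
    (measurable_pi_apply i).comp (hW.meas x)
  have hL : ∀ (i : Fin 3) (x : ℝ≥0), MemLp (fun ω => W x ω i) 2 P := fun i x =>
    (hW.gauss.hasGaussianLaw_eval (i, x)).memLp_two
  apply IsGaussianProcess.indepFun_of_covariance_eq_zero
    (X := fun (p : Fin 3 × ℝ≥0) ω => W (t + p.2) ω p.1 - W t ω p.1)
    (Y := fun (p : Fin 3 × Set.Iic t) ω => W p.2 ω p.1)
  · apply hW.gauss.of_isGaussianProcess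
    rintro (⟨i, x⟩ | ⟨i, ⟨x, hx⟩⟩)
    · exact ⟨{(i, t), (i, t + x)},
        { toFun x' := x' ⟨(i, t + x), by simp⟩ - x' ⟨(i, t), by simp⟩
          map_add' a b := by simp; abel
          map_smul' c a := by simp; ring }, by simp⟩
    · exact ⟨{(i, x)},
        { toFun x' := x' ⟨(i, x), by simp⟩
          map_add' a b := by simp
          map_smul' c a := by simp }, by simp⟩
  · rintro ⟨i, x⟩
    exact ((hm i (t + x)).sub (hm i t)).aemeasurable
  · rintro ⟨i, x⟩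
    exact (hm i x).aemeasurable
  · rintro ⟨i, x⟩ ⟨j, ⟨y, hy⟩⟩
    show cov[fun ω => W (t + x) ω i - W t ω i, fun ω => W y ω j; P] = 0
    have hy' : y ≤ t := hy
    rw [covariance_fun_sub_left (hL i (t + x)) (hL i t) (hL j y), hW.cov, hW.cov]
    split_ifs
    · rw [min_eq_right hy', min_eq_right (hy'.trans le_self_add), sub_self]
    · rw [sub_self]

theorem indep_past_fut (hW : BM W P) (t : ℝ≥0) : Indep (past W t) (fut W t) P := by
  have h := (MP_indep hW t).symm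
  have hφ : Measurable (fun (g : Fin 3 × Set.Iic t → ℝ) (x : Set.Iic t) (i : Fin 3) => g (i, x)) :=
    measurable_pi_lambda _ fun x => measurable_pi_lambda _ fun i => measurable_pi_apply (i, x)
  have hψ : Measurable (fun (g : Fin 3 × ℝ≥0 → ℝ) (x : ℝ≥0) (i : Fin 3) => g (i, x)) :=
    measurable_pi_lambda _ fun x => measurable_pi_lambda _ fun i => measurable_pi_apply (i, x)
  have h2 := h.comp hφ hψ
  have h3 : IndepFun (fun ω (x : Set.Iic t) => W x ω) (fun ω (x : ℝ≥0) => W (t + x) ω - W t ω) P := h2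
  exact h3

end Pool.Agent.Lib.MP_098ea1_pr.BR
end

section

/-!
# TASK BR HA: hitting a ball in a short time interval

`X x = W (a + x) - W a` is a Brownian motion (`BM_shift`). Let `y = z + W a ω`. If `‖z + W (a+x) ω‖ < r` for some `x ≤ r²` then `‖y‖ < 2r`, or `2r ≤ ‖y‖`, and with the `j ≥ 0`
such that `2^(j+1) r ≤ ‖y‖ < 2^(j+2) r` (exists: `j+1 = ⌊log₂(‖y‖/r)⌋`) some `x ≤ r²` has `‖X x ω‖ > 2^j r` (as `‖X x‖ ≥ ‖y‖ - r ≥ 2^j r + (2^j - 1) r`; for the strict inequality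
use `‖y + X x‖ < r`). `{‖z + W a‖ < 2^(j+2) r}` is in `past W a`, the event of `X` is in `fut W a` (`meas_exists`): by independence (`indep_past_fut`, `indep_inter`),
`density_bound`, `sup_bound` (with `T = r²`): probability at most
`(2r/√a)³ + ∑_j (2^(j+2) r/√a)³ C 2^(-16 j) = (r/√a)³ (8 + 64 C ∑_j 2^(-13 j)) ≤ (r/√a)³ (8 + 128 C)`.
-/

set_option autoImplicit false

open MeasureTheory ProbabilityTheory Set Filter Topology
open scoped NNReal ENNReal

namespace Pool.Agent.Lib.MP_098ea1_pr.BR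

universe u

theorem hit_short : ∃ C : ℝ, 1 ≤ C ∧ ∀ {Ω : Type u} [MeasurableSpace Ω] (P : Measure Ω) [IsProbabilityMeasure P]
    (W : ℝ≥0 → Ω → V), BM W P → ∀ (z : V) (a : ℝ≥0) (r : ℝ≥0), 0 < a → 0 < r →
    P {ω | ∃ x ∈ Set.Icc a (a + r ^ 2), ‖z + W x ω‖ < r} ≤ ENNReal.ofReal (C * ((r : ℝ) / Real.sqrt a) ^ 3) := by
  obtain ⟨C, hC, hsup⟩ := sup_bound.{u}
  refine ⟨8 + 128 * C, by linarith, ?_⟩
  intro Ω _ P _ W hW z a r ha hr
  have hr' : (0 : ℝ) < r := hr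
  set ρ : ℝ := (r : ℝ) / Real.sqrt a with hρ
  have hρ0 : 0 ≤ ρ := div_nonneg hr'.le (Real.sqrt_nonneg _)
  let A : ℕ → Set Ω := fun j => {ω | ‖z + W a ω‖ < 2 ^ (j + 2) * (r : ℝ)}
  let B : ℕ → Set Ω := fun j => {ω | ∃ x ∈ Set.Iic (r ^ 2), 2 ^ j * (r : ℝ) < ‖W (a + x) ω - W a ω‖}
  have hsub : {ω | ∃ x ∈ Set.Icc a (a + r ^ 2), ‖z + W x ω‖ < r} ⊆
      {ω | ‖z + W a ω‖ < 2 * (r : ℝ)} ∪ ⋃ j, A j ∩ B j := by
    rintro ω ⟨x, ⟨hx1, hx2⟩, hx3⟩
    by_cases h : ‖z + W a ω‖ < 2 * (r : ℝ)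
    · exact Or.inl h
    · push Not at h
      refine Or.inr ?_
      have h1 : 1 ≤ ‖z + W a ω‖ / (2 * r) := by
        rw [le_div_iff₀ (by positivity)]
        linarith
      obtain ⟨j, hj1, hj2⟩ := exists_nat_pow_near h1 one_lt_two
      rw [le_div_iff₀ (by positivity)] at hj1
      rw [div_lt_iff₀ (by positivity)] at hj2
      refine Set.mem_iUnion.2 ⟨j, ?_, x - a, ?_, ?_⟩
      · show ‖z + W a ω‖ < 2 ^ (j + 2) * (r : ℝ)
        calc ‖z + W a ω‖ < 2 ^ (j + 1) * (2 * r) := hj2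
          _ = 2 ^ (j + 2) * (r : ℝ) := by ring
      · exact tsub_le_iff_left.2 hx2
      · rw [add_tsub_cancel_of_le hx1]
        have h2 : ‖z + W a ω‖ ≤ ‖z + W x ω‖ + ‖W x ω - W a ω‖ := by
          have h3 : z + W a ω = (z + W x ω) - (W x ω - W a ω) := by abel
          calc ‖z + W a ω‖ = ‖(z + W x ω) - (W x ω - W a ω)‖ := by rw [← h3]
            _ ≤ _ := norm_sub_le _ _
        have h4 : (1 : ℝ) ≤ 2 ^ j := one_le_pow₀ (by norm_num)
        nlinarith
  have hA : ∀ j, P (A j) ≤ ENNReal.ofReal ((2 ^ (j + 2) * ρ) ^ 3) := by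
    intro j
    have h1 := density_bound hW ha z (r := 2 ^ (j + 2) * (r : ℝ)) (by positivity)
    rwa [mul_div_assoc] at h1
  have hA0 : P {ω | ‖z + W a ω‖ < 2 * (r : ℝ)} ≤ ENNReal.ofReal ((2 * ρ) ^ 3) := by
    have h1 := density_bound hW ha z (r := 2 * (r : ℝ)) (by positivity)
    rwa [mul_div_assoc] at h1
  have hB : ∀ j, P (B j) ≤ ENNReal.ofReal (C * ((2 : ℝ)⁻¹ ^ j) ^ 16) := by
    intro j
    have h1 := hsup P _ (BM_shift hW a) (r ^ 2) (2 ^ j * (r : ℝ)) (by positivity)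
    have h2 : Real.sqrt ((r ^ 2 : ℝ≥0) : ℝ) / (2 ^ j * (r : ℝ)) = (2 : ℝ)⁻¹ ^ j := by
      rw [NNReal.coe_pow, Real.sqrt_sq hr'.le, inv_pow]
      field_simp
    rw [h2] at h1
    exact h1
  have hmA : ∀ j, MeasurableSet[past W a] (A j) := by
    intro j
    have h1 : IsOpen {v : V | ‖z + v‖ < 2 ^ (j + 2) * (r : ℝ)} :=
      isOpen_lt (continuous_const.add continuous_id).norm continuous_const
    exact (past_meas W le_rfl) h1.measurableSet
  have hmB : ∀ j, MeasurableSet[fut W a] (B j) := by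
    intro j
    refine meas_exists (fut W a) (fun x ω => W (a + x) ω - W a ω) (Set.Iic (r ^ 2)) (fun x _ => ?_)
      (fun ω => ?_) {v | 2 ^ j * (r : ℝ) < ‖v‖} (isOpen_lt continuous_const continuous_norm)
    · exact fut_meas W le_self_add le_rfl
    · exact ((hW.cont ω).comp (continuous_const.add continuous_id)).sub continuous_const
  have hAB : ∀ j, P (A j ∩ B j) ≤ ENNReal.ofReal (64 * C * ρ ^ 3 * (1 / 2) ^ j) := by
    intro j
    rw [indep_inter P (indep_past_fut hW a) (hmA j) (hmB j)]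
    refine (mul_le_mul' (hA j) (hB j)).trans ?_
    rw [← ENNReal.ofReal_mul (by positivity)]
    refine ENNReal.ofReal_le_ofReal ?_
    have h1 : (2 ^ (j + 2) * ρ) ^ 3 * (C * ((2 : ℝ)⁻¹ ^ j) ^ 16) =
        64 * C * ρ ^ 3 * ((2 : ℝ)⁻¹ ^ j) ^ 13 := by
      have h2 : (2 : ℝ) ^ j * (2 : ℝ)⁻¹ ^ j = 1 := by
        rw [← mul_pow]
        norm_num
      calc (2 ^ (j + 2) * ρ) ^ 3 * (C * ((2 : ℝ)⁻¹ ^ j) ^ 16)
          = 64 * C * ρ ^ 3 * ((2 : ℝ)⁻¹ ^ j) ^ 13 * ((2 : ℝ) ^ j * (2 : ℝ)⁻¹ ^ j) ^ 3 := by ring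
        _ = _ := by rw [h2]; ring
    rw [h1]
    refine mul_le_mul_of_nonneg_left ?_ (by positivity)
    have h3 : ((2 : ℝ)⁻¹ ^ j) ≤ 1 := pow_le_one₀ (by norm_num) (by norm_num)
    calc ((2 : ℝ)⁻¹ ^ j) ^ 13 ≤ ((2 : ℝ)⁻¹ ^ j) ^ 1 := pow_le_pow_of_le_one (by positivity) h3 (by norm_num)
      _ = (1 / 2) ^ j := by rw [pow_one, one_div]
  have hs : Summable fun j : ℕ => 64 * C * ρ ^ 3 * (1 / 2 : ℝ) ^ j :=
    summable_geometric_two.mul_left _
  calc P {ω | ∃ x ∈ Set.Icc a (a + r ^ 2), ‖z + W x ω‖ < r}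
      ≤ P ({ω | ‖z + W a ω‖ < 2 * (r : ℝ)} ∪ ⋃ j, A j ∩ B j) := measure_mono hsub
    _ ≤ P {ω | ‖z + W a ω‖ < 2 * (r : ℝ)} + ∑' j, P (A j ∩ B j) :=
        (measure_union_le _ _).trans (add_le_add le_rfl (measure_iUnion_le _))
    _ ≤ ENNReal.ofReal ((2 * ρ) ^ 3) + ∑' j : ℕ, ENNReal.ofReal (64 * C * ρ ^ 3 * (1 / 2) ^ j) :=
        add_le_add hA0 (ENNReal.tsum_le_tsum hAB)
    _ = ENNReal.ofReal ((2 * ρ) ^ 3 + 128 * C * ρ ^ 3) := by
        rw [← ENNReal.ofReal_tsum_of_nonneg (fun j => by positivity) hs, tsum_mul_left, tsum_geometric_two,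
          ← ENNReal.ofReal_add (by positivity) (by positivity)]
        congr 1
        ring
    _ = ENNReal.ofReal ((8 + 128 * C) * ρ ^ 3) := by
        congr 1
        ring

end Pool.Agent.Lib.MP_098ea1_pr.BR
end

section

/-!
# TASK BR SB: one step of a path which follows a line

Let `L` be large, `t = 1/L`. `P (‖W t + (R/L) e_i‖ ≤ ε/(2L))` is the product over the coordinates (independent, as in `density_bound`) of the probabilities that a variable of the law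
`gaussianReal 0 (1/L)` is in an interval of length `ε/L` contained in `[-(R+ε)/L, (R+ε)/L]`; there the density is at least `√L/√(2π) exp(-(R+ε)²/(2L)) ≥ √L/6` for `L ≥ (R+ε)²`
(`exp(-1/2) ≥ 1/2`... `√(2π) ≤ 3`). So the probability is at least `(ε/(6√L))³ = ε³/216 · L^(-3/2)`. By `sup_bound` (`T = 1/L`, `r = ε/4`) the probability that `‖W x‖ > ε/4` for some `x ≤ 1/L` is at most
`C (4/ε)^16 L^(-8)`. For `L` large the difference is at least `p = ε³/432 · L^(-3/2) > 0`. Also take `L ≥ 4R/ε`.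
-/

set_option autoImplicit false

open MeasureTheory ProbabilityTheory Set Filter Topology
open scoped NNReal ENNReal

namespace Pool.Agent.Lib.MP_098ea1_pr.BR

universe u

private theorem SB_indep {Ω : Type u} [MeasurableSpace Ω] {P : Measure Ω} [IsProbabilityMeasure P] {W : ℝ≥0 → Ω → V}
    (hW : BM W P) (t : ℝ≥0) : iIndepFun (fun (i : Fin 3) ω => W t ω i) P := by
  have h1 : IsGaussianProcess ((fun (p : Fin 3 × ℝ≥0) ω => W p.2 ω p.1) ∘ (fun i : Fin 3 => (i, t))) P :=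
    hW.gauss.comp_right _
  have h2 := h1.hasGaussianLaw Finset.univ
  let L : ({x // x ∈ (Finset.univ : Finset (Fin 3))} → ℝ) →L[ℝ] (Fin 3 → ℝ) :=
    { toFun := fun x i => x ⟨i, Finset.mem_univ i⟩
      map_add' := fun x y => rfl
      map_smul' := fun c x => rfl }
  have h3 := h2.map L
  refine HasGaussianLaw.iIndepFun_of_covariance_eq_zero h3 (fun i j hij => ?_)
  have h4 := hW.cov i j t t
  rw [if_neg hij] at h4
  exact h4

private theorem SB_gauss (L : ℕ) (hL : 0 < L) (ρ a b : ℝ) (hρL : ρ ^ 2 ≤ L)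
    (ha : -(ρ / L) ≤ a) (hb : b ≤ ρ / L) :
    ENNReal.ofReal ((b - a) * (Real.sqrt L / 6)) ≤ gaussianReal 0 (1 / (L : ℝ≥0)) (Set.Icc a b) := by
  have hL0 : (0 : ℝ) < L := by exact_mod_cast hL
  have hv : (1 / (L : ℝ≥0)) ≠ 0 := by
    have : (L : ℝ≥0) ≠ 0 := by exact_mod_cast hL.ne'
    exact one_div_ne_zero this
  rw [gaussianReal_apply 0 hv]
  have hpdf : ∀ x ∈ Set.Icc a b, ENNReal.ofReal (Real.sqrt L / 6) ≤ gaussianPDF 0 (1 / (L : ℝ≥0)) x := by
    intro x hx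
    unfold gaussianPDF
    refine ENNReal.ofReal_le_ofReal ?_
    rw [gaussianPDFReal]
    have hc : (((1 / (L : ℝ≥0)) : ℝ≥0) : ℝ) = 1 / (L : ℝ) := by push_cast; rfl
    rw [hc]
    have hσ : 0 < Real.sqrt L := Real.sqrt_pos.mpr hL0
    have h1 : Real.sqrt (2 * Real.pi * (1 / (L : ℝ))) ≤ 3 / Real.sqrt L := by
      have h2 : (2 * Real.pi * (1 / (L : ℝ))) ≤ (3 / Real.sqrt L) ^ 2 := by
        rw [div_pow, Real.sq_sqrt hL0.le]
        have := Real.pi_lt_four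
        rw [mul_one_div]
        gcongr
        nlinarith [Real.pi_lt_four]
      calc Real.sqrt (2 * Real.pi * (1 / (L : ℝ))) ≤ Real.sqrt ((3 / Real.sqrt L) ^ 2) := Real.sqrt_le_sqrt h2
        _ = 3 / Real.sqrt L := Real.sqrt_sq (by positivity)
    have h3 : Real.sqrt L / 3 ≤ (Real.sqrt (2 * Real.pi * (1 / (L : ℝ))))⁻¹ := by
      have h4 : 0 < Real.sqrt (2 * Real.pi * (1 / (L : ℝ))) := Real.sqrt_pos.mpr (by positivity)
      rw [le_inv_comm₀ (by positivity) h4, inv_div]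
      exact h1
    have h5 : (1 / 2 : ℝ) ≤ Real.exp (-(x - 0) ^ 2 / (2 * (1 / (L : ℝ)))) := by
      have h6 : x ^ 2 ≤ (ρ / L) ^ 2 := by
        apply sq_le_sq'
        · exact ha.trans hx.1
        · exact hx.2.trans hb
      have h7 : x ^ 2 * L ≤ 1 := by
        have h8 : (ρ / L) ^ 2 * L ≤ 1 := by
          rw [div_pow, div_mul_eq_mul_div, div_le_one (by positivity)]
          nlinarith
        nlinarith [mul_le_mul_of_nonneg_right h6 hL0.le]
      have h9 : -(x - 0) ^ 2 / (2 * (1 / (L : ℝ))) = -(x ^ 2 * L) / 2 := by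
        field_simp
        ring
      rw [h9]
      have h10 := Real.add_one_le_exp (-(x ^ 2 * L) / 2)
      linarith
    calc Real.sqrt L / 6 = Real.sqrt L / 3 * (1 / 2) := by ring
      _ ≤ _ := mul_le_mul h3 h5 (by norm_num) (by positivity)
  calc ENNReal.ofReal ((b - a) * (Real.sqrt L / 6))
      = ENNReal.ofReal (Real.sqrt L / 6) * volume (Set.Icc a b) := by
        rw [Real.volume_Icc, mul_comm (b - a), ENNReal.ofReal_mul (by positivity)]
    _ = ∫⁻ _ in Set.Icc a b, ENNReal.ofReal (Real.sqrt L / 6) := by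
        rw [setLIntegral_const]
    _ ≤ ∫⁻ x in Set.Icc a b, gaussianPDF 0 (1 / (L : ℝ≥0)) x :=
        setLIntegral_mono' measurableSet_Icc hpdf

theorem one_step (R ε : ℝ) (hR : 0 < R) (hε : 0 < ε) : ∃ L : ℕ, 0 < L ∧ R / L ≤ ε / 4 ∧ ∃ p : ℝ, 0 < p ∧
    ∀ {Ω : Type u} [MeasurableSpace Ω] (P : Measure Ω) [IsProbabilityMeasure P] (W : ℝ≥0 → Ω → V), BM W P →
    ∀ i : Fin 3, ENNReal.ofReal p ≤ P {ω | ‖W (1 / (L : ℝ≥0)) ω + (R / L) • (Pi.single i (1 : ℝ) : V)‖ ≤ ε / (2 * L) ∧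
      ∀ x ∈ Set.Iic (1 / (L : ℝ≥0)), ‖W x ω‖ ≤ ε / 4} := by
  obtain ⟨C, hC, hsup⟩ := sup_bound.{u}
  obtain ⟨L, hL⟩ := exists_nat_ge (1 + (R + ε) ^ 2 + 4 * R / ε + 432 * C * 4 ^ 16 / ε ^ 19)
  have hp1 : 0 ≤ (R + ε) ^ 2 := by positivity
  have hp2 : 0 ≤ 4 * R / ε := by positivity
  have hp3 : 0 ≤ 432 * C * 4 ^ 16 / ε ^ 19 := by positivity
  have hL1 : (1 : ℝ) ≤ L := by linarith
  have hL0 : (0 : ℝ) < L := by linarith
  have hLn : 0 < L := by exact_mod_cast hL0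
  obtain ⟨σ, hσ⟩ : ∃ σ : ℝ, σ = Real.sqrt L := ⟨_, rfl⟩
  have hσ0 : 0 < σ := by rw [hσ]; exact Real.sqrt_pos.mpr hL0
  have hσ2 : σ ^ 2 = L := by rw [hσ]; exact Real.sq_sqrt hL0.le
  have hσ1 : 1 ≤ σ := by
    rw [hσ, Real.one_le_sqrt]
    exact hL1
  refine ⟨L, hLn, ?_, (ε / L * (σ / 6)) ^ 3 / 2, by positivity, ?_⟩
  · rw [div_le_div_iff₀ hL0 (by norm_num)]
    have h1 : 4 * R / ε ≤ L := by linarith
    rw [div_le_iff₀ hε] at h1
    linarith
  intro Ω _ P _ W hW i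
  obtain ⟨t, ht⟩ : ∃ t : ℝ≥0, t = 1 / (L : ℝ≥0) := ⟨_, rfl⟩
  let m : Fin 3 → ℝ := fun j => if j = i then R / L else 0
  have hm0 : ∀ j, 0 ≤ m j := by
    intro j
    simp only [m]
    split_ifs
    · positivity
    · exact le_rfl
  have hm1 : ∀ j, m j ≤ R / L := by
    intro j
    simp only [m]
    split_ifs
    · exact le_rfl
    · positivity
  let A : Set Ω := {ω | ‖W t ω + (R / L) • (Pi.single i (1 : ℝ) : V)‖ ≤ ε / (2 * L)}
  let D : Set Ω := {ω | ∃ x ∈ Set.Iic t, ε / 4 < ‖W x ω‖}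
  have hA : ENNReal.ofReal ((ε / L * (σ / 6)) ^ 3) ≤ P A := by
    have h1 : A = ⋂ j ∈ (Finset.univ : Finset (Fin 3)), (fun ω => W t ω j) ⁻¹'
        (Set.Icc (-m j - ε / (2 * L)) (-m j + ε / (2 * L))) := by
      ext ω
      simp only [A, Set.mem_ofPred_eq, Set.mem_iInter, Finset.mem_univ, true_implies, Set.mem_preimage, Set.mem_Icc]
      rw [pi_norm_le_iff_of_nonneg (by positivity)]
      refine forall_congr' (fun j => ?_)
      have h2 : (W t ω + (R / L) • (Pi.single i (1 : ℝ) : V)) j = W t ω j + m j := by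
        simp only [Pi.add_apply, Pi.smul_apply, smul_eq_mul, m, Pi.single_apply]
        split_ifs <;> ring
      rw [h2, Real.norm_eq_abs, abs_le]
      constructor
      · rintro ⟨h3, h4⟩
        constructor <;> linarith
      · rintro ⟨h3, h4⟩
        constructor <;> linarith
    rw [h1, (SB_indep hW t).measure_inter_preimage_eq_mul Finset.univ (fun j _ => measurableSet_Icc)]
    have h2 : ∀ j ∈ (Finset.univ : Finset (Fin 3)), ENNReal.ofReal (ε / L * (σ / 6)) ≤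
        P ((fun ω => W t ω j) ⁻¹' (Set.Icc (-m j - ε / (2 * L)) (-m j + ε / (2 * L)))) := by
      intro j _
      have h3 := coord_law hW j (x := 0) (t := t) zero_le
      rw [tsub_zero] at h3
      have h4 : (fun ω => W t ω j - W 0 ω j) = (fun ω => W t ω j) := by
        funext ω
        rw [hW.zero ω]
        simp
      rw [h4] at h3
      have h5 : P ((fun ω => W t ω j) ⁻¹' (Set.Icc (-m j - ε / (2 * L)) (-m j + ε / (2 * L)))) =
          gaussianReal 0 t (Set.Icc (-m j - ε / (2 * L)) (-m j + ε / (2 * L))) := by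
        rw [← h3.map_eq, Measure.map_apply_of_aemeasurable h3.aemeasurable measurableSet_Icc]
      rw [h5, ht]
      have h6 := SB_gauss L hLn (R + ε) (-m j - ε / (2 * L)) (-m j + ε / (2 * L)) (by linarith) (by
          have h7 := hm1 j
          have h8 : ε / (2 * L) ≤ ε / L := by
            apply div_le_div_of_nonneg_left hε.le hL0
            linarith
          rw [add_div]
          linarith) (by
          have h7 := hm0 j
          have h8 : ε / (2 * L) ≤ ε / L := by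
            apply div_le_div_of_nonneg_left hε.le hL0
            linarith
          have h9 : 0 ≤ R / L := by positivity
          rw [add_div]
          linarith)
      refine le_trans (le_of_eq ?_) h6
      congr 1
      rw [← hσ]
      have h10 : (-m j + ε / (2 * L)) - (-m j - ε / (2 * L)) = ε / L := by
        field_simp
        ring
      rw [h10]
    calc ENNReal.ofReal ((ε / L * (σ / 6)) ^ 3) = (ENNReal.ofReal (ε / L * (σ / 6))) ^ 3 :=
          ENNReal.ofReal_pow (by positivity) _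
      _ = ∏ _j ∈ (Finset.univ : Finset (Fin 3)), ENNReal.ofReal (ε / L * (σ / 6)) := by
          rw [Finset.prod_const, Finset.card_univ, Fintype.card_fin]
      _ ≤ _ := Finset.prod_le_prod' h2
  have hD : P D ≤ ENNReal.ofReal ((ε / L * (σ / 6)) ^ 3 / 2) := by
    have h1 := hsup P W hW t (ε / 4) (by positivity)
    refine h1.trans (ENNReal.ofReal_le_ofReal ?_)
    have h2 : Real.sqrt t = 1 / σ := by
      rw [ht, hσ]
      push_cast
      rw [Real.sqrt_div zero_le_one, Real.sqrt_one]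
    rw [h2]
    have h3 : 432 * C * 4 ^ 16 / ε ^ 19 ≤ σ ^ 13 := by
      have h4 : σ ^ 2 ≤ σ ^ 13 := pow_le_pow_right₀ hσ1 (by norm_num)
      linarith
    rw [div_le_iff₀ (by positivity)] at h3
    have h5 : C * (1 / σ / (ε / 4)) ^ 16 = C * 4 ^ 16 / (σ ^ 16 * ε ^ 16) := by
      field_simp
    have h6 : (ε / L * (σ / 6)) ^ 3 / 2 = ε ^ 3 / (432 * σ ^ 3) := by
      rw [← hσ2]
      field_simp
      ring
    rw [h5, h6, div_le_div_iff₀ (by positivity) (by positivity)]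
    have h7 : C * 4 ^ 16 * (432 * σ ^ 3) ≤ (σ ^ 13 * ε ^ 19) * σ ^ 3 := by
      have h8 : (0 : ℝ) ≤ σ ^ 3 := by positivity
      nlinarith [mul_le_mul_of_nonneg_right h3 h8]
    calc C * 4 ^ 16 * (432 * σ ^ 3) ≤ (σ ^ 13 * ε ^ 19) * σ ^ 3 := h7
      _ = ε ^ 3 * (σ ^ 16 * ε ^ 16) := by ring
  have hsub : A \ D ⊆ {ω | ‖W (1 / (L : ℝ≥0)) ω + (R / L) • (Pi.single i (1 : ℝ) : V)‖ ≤ ε / (2 * L) ∧
      ∀ x ∈ Set.Iic (1 / (L : ℝ≥0)), ‖W x ω‖ ≤ ε / 4} := by
    rintro ω ⟨h1, h2⟩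
    rw [← ht]
    refine ⟨h1, fun x hx => ?_⟩
    by_contra h3
    exact h2 ⟨x, hx, not_le.mp h3⟩
  refine le_trans ?_ (measure_mono hsub)
  refine le_trans ?_ (le_measure_sdiff (μ := P) (s₁ := A) (s₂ := D))
  refine ENNReal.le_sub_of_add_le_right (ne_top_of_le_ne_top ENNReal.ofReal_ne_top hD) ?_
  calc ENNReal.ofReal ((ε / L * (σ / 6)) ^ 3 / 2) + P D
      ≤ ENNReal.ofReal ((ε / L * (σ / 6)) ^ 3 / 2) + ENNReal.ofReal ((ε / L * (σ / 6)) ^ 3 / 2) := by gcongr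
    _ = ENNReal.ofReal ((ε / L * (σ / 6)) ^ 3) := by
        rw [← ENNReal.ofReal_add (by positivity) (by positivity)]
        congr 1
        ring
    _ ≤ P A := hA

end Pool.Agent.Lib.MP_098ea1_pr.BR
end
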