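import Pool.Agent.Lib.MP_098ea1_pr.Mg.G001

section

/-!
# TASK BR SR: a series

For `x, h > 0`: `h (x+h)^(-3/2) ≤ 2 (x^(-1/2) - (x+h)^(-1/2))`: with `p = √x`, `q = √(x+h)`, `q² - p² = h`: `2 (1/p - 1/q) = 2 (q-p)/(pq) = 2h/(pq(p+q)) ≥ h/q³` as `p ≤ q`.
So for `m ≥ 1` (`x = a + (m-1) r²`, `h = r²`): `(r/√(a + m r²))³ ≤ 2 r (1/√(a+(m-1)r²) - 1/√(a+m r²))`, telescoping: the finite sums over `m = 1..n` are at most `2r/√a`. The term `m = 0` is
`(r/√a)³ ≤ r/√a` as `r ≤ √a`.
-/

set_option autoImplicit false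

open MeasureTheory ProbabilityTheory Set Filter Topology
open scoped NNReal ENNReal

namespace Pool.Agent.Lib.MP_098ea1_pr.BR

universe u

private theorem SR_step {p q r : ℝ} (hp : 0 < p) (hpq : p ≤ q) (hr : 0 < r) (h : q ^ 2 - p ^ 2 = r ^ 2) :
    (r / q) ^ 3 ≤ 2 * (r / p) - 2 * (r / q) := by
  have hq : 0 < q := hp.trans_le hpq
  have h1 : 2 * (r / p) - 2 * (r / q) - (r / q) ^ 3 = r * (2 * (q - p) * q ^ 2 - r ^ 2 * p) / (p * q ^ 3) := by
    field_simp
  have h2 : 2 * (q - p) * q ^ 2 - r ^ 2 * p = (q - p) * (2 * q ^ 2 - (q + p) * p) := by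
    rw [← h]
    ring
  have h3 : 0 ≤ 2 * q ^ 2 - (q + p) * p := by nlinarith
  have h4 : 0 ≤ r * (2 * (q - p) * q ^ 2 - r ^ 2 * p) / (p * q ^ 3) := by
    rw [h2]
    have h5 : 0 ≤ q - p := by linarith
    positivity
  linarith

theorem series_bound {a r : ℝ} (ha : 0 < a) (hr : 0 < r) (hra : r ^ 2 ≤ a) :
    Summable (fun m : ℕ => (r / Real.sqrt (a + m * r ^ 2)) ^ 3) ∧
      ∑' m : ℕ, (r / Real.sqrt (a + m * r ^ 2)) ^ 3 ≤ 3 * (r / Real.sqrt a) := by
  have hsa : 0 < Real.sqrt a := Real.sqrt_pos.2 ha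
  have hnn : ∀ m : ℕ, 0 ≤ (r / Real.sqrt (a + m * r ^ 2)) ^ 3 := fun m => by positivity
  have key : ∀ n : ℕ, ∑ m ∈ Finset.range (n + 1), (r / Real.sqrt (a + m * r ^ 2)) ^ 3 ≤
      3 * (r / Real.sqrt a) - 2 * (r / Real.sqrt (a + n * r ^ 2)) := by
    intro n
    induction n with
    | zero =>
      rw [Finset.sum_range_one]
      simp only [Nat.cast_zero, zero_mul, add_zero]
      have h1 : r ≤ Real.sqrt a := Real.le_sqrt_of_sq_le hra
      have h2 : r / Real.sqrt a ≤ 1 := (div_le_one hsa).2 h1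
      have h3 : 0 < r / Real.sqrt a := by positivity
      have h4 : (r / Real.sqrt a) ^ 3 ≤ r / Real.sqrt a := by
        calc (r / Real.sqrt a) ^ 3 ≤ (r / Real.sqrt a) ^ 1 := pow_le_pow_of_le_one h3.le h2 (by norm_num)
          _ = r / Real.sqrt a := pow_one _
      linarith
    | succ n ih =>
      rw [Finset.sum_range_succ]
      have hx : 0 < a + (n : ℝ) * r ^ 2 := by positivity
      have hy : 0 ≤ a + ((n + 1 : ℕ) : ℝ) * r ^ 2 := by positivity
      have hle : a + (n : ℝ) * r ^ 2 ≤ a + ((n + 1 : ℕ) : ℝ) * r ^ 2 := by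
        push_cast
        nlinarith [sq_nonneg r]
      have h1 := SR_step (Real.sqrt_pos.2 hx) (Real.sqrt_le_sqrt hle) hr (by
        rw [Real.sq_sqrt hy, Real.sq_sqrt hx.le]
        push_cast
        ring)
      linarith
  have key2 : ∀ n : ℕ, ∑ m ∈ Finset.range n, (r / Real.sqrt (a + m * r ^ 2)) ^ 3 ≤ 3 * (r / Real.sqrt a) := by
    intro n
    have h1 := key n
    rw [Finset.sum_range_succ] at h1
    have h2 := hnn n
    have h3 : 0 ≤ r / Real.sqrt (a + n * r ^ 2) := by positivity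
    linarith
  exact ⟨summable_of_sum_range_le hnn key2, Real.tsum_le_of_sum_range_le hnn key2⟩

end Pool.Agent.Lib.MP_098ea1_pr.BR
end

section

/-!
# TASK BR WJ: the windows are independent (processes)

`Xw W N c k (true, i, x) = W (c+x) i - W (c + s N k) i`, `Xw W N c k (false, i, x) = W (c-x) i - W (c - s N k) i`, for `x` in the window `[s N k, e N k]`, `e N k ≤ c`. By
`IsGaussianProcess.iIndepFun_of_covariance_eq_zero` it is enough that the joint process is Gaussian (`IsGaussianProcess.of_isGaussianProcess`: every value is a difference of two values of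
`hW.gauss`; compare `IsPreBrownianReal.indepFun_shift` in `Mathlib/Probability/BrownianMotion/Basic.lean`), AE-measurable, and that values of different windows are uncorrelated: for `i ≠ j` by
`hW.cov`; for `i = j` the covariance of `W x₁ - W x₂` and `W y₁ - W y₂` is `min x₁ y₁ - min x₁ y₂ - min x₂ y₁ + min x₂ y₂`, which is `0` if all `x`'s are `≤` all `y`'s or conversely. Different windows
`k < k'`: `x' ≤ e N k' ≤ s N k ≤ x` (`e_succ`, `s_anti`, `e_anti`), so the times `c - x, c - s N k ≤ c - x', c - s N k' ≤ c + x', c + s N k' ≤ c + x, c + s N k` are ordered: four cases.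
-/

set_option autoImplicit false

open MeasureTheory ProbabilityTheory Set Filter Topology
open scoped NNReal ENNReal

namespace Pool.Agent.Lib.MP_098ea1_pr.BR

universe u

variable {Ω : Type u} [MeasurableSpace Ω] {P : Measure Ω} [IsProbabilityMeasure P] {W : ℝ≥0 → Ω → V}

/-- The increments in the two windows of scale `k` around the centre `c`. -/
noncomputable def Xw (W : ℝ≥0 → Ω → V) (N : ℕ) (c : ℝ≥0) (k : ℕ) (q : Bool × Fin 3 × Set.Icc (s N k) (e N k)) (ω : Ω) : ℝ :=
  if q.1 = true then W (c + q.2.2) ω q.2.1 - W (c + s N k) ω q.2.1 else W (c - q.2.2) ω q.2.1 - W (c - s N k) ω q.2.1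

theorem WJ_memLp (hW : BM W P) (i : Fin 3) (a : ℝ≥0) : MemLp (fun ω => W a ω i) 2 P :=
  (hW.gauss.hasGaussianLaw_eval (i, a)).memLp_two

theorem WJ_cov (hW : BM W P) (i j : Fin 3) (a b a' b' : ℝ≥0)
    (h : (a' ≤ a ∧ a' ≤ b ∧ b' ≤ a ∧ b' ≤ b) ∨ (a ≤ a' ∧ a ≤ b' ∧ b ≤ a' ∧ b ≤ b')) :
    cov[fun ω => W a ω i - W b ω i, fun ω => W a' ω j - W b' ω j; P] = 0 := by
  rw [covariance_fun_sub_fun_sub (WJ_memLp hW i a) (WJ_memLp hW i b) (WJ_memLp hW j a') (WJ_memLp hW j b')]
  rw [hW.cov, hW.cov, hW.cov, hW.cov]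
  by_cases hij : i = j
  · simp only [hij, if_true]
    rcases h with ⟨h1, h2, h3, h4⟩ | ⟨h1, h2, h3, h4⟩
    · rw [min_eq_right h1, min_eq_right h3, min_eq_right h2, min_eq_right h4]
      ring
    · rw [min_eq_left h1, min_eq_left h2, min_eq_left h3, min_eq_left h4]
      ring
  · simp only [hij, if_false]
    ring

/-- The end of an increment. -/
noncomputable def WJ_tm (c : ℝ≥0) (β : Bool) (x : ℝ≥0) : ℝ≥0 := if β = true then c + x else c - x

theorem WJ_Xw (W : ℝ≥0 → Ω → V) (N : ℕ) (c : ℝ≥0) (k : ℕ) (q : Bool × Fin 3 × Set.Icc (s N k) (e N k)) :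
    Xw W N c k q = fun ω => W (WJ_tm c q.1 q.2.2) ω q.2.1 - W (WJ_tm c q.1 (s N k)) ω q.2.1 := by
  funext ω
  unfold Xw WJ_tm
  by_cases h : q.1 = true
  · simp only [h, if_true]
  · simp only [h, if_false]
    rfl

theorem WJ_order {N : ℕ} (hN : 2 ≤ N) (c : ℝ≥0) {k k' : ℕ} (h : k < k') (β β' : Bool) {x x' : ℝ≥0}
    (hx : s N k ≤ x) (hx' : x' ≤ e N k') :
    (WJ_tm c β' x' ≤ WJ_tm c β x ∧ WJ_tm c β' x' ≤ WJ_tm c β (s N k) ∧
      WJ_tm c β' (s N k') ≤ WJ_tm c β x ∧ WJ_tm c β' (s N k') ≤ WJ_tm c β (s N k)) ∨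
    (WJ_tm c β x ≤ WJ_tm c β' x' ∧ WJ_tm c β x ≤ WJ_tm c β' (s N k') ∧
      WJ_tm c β (s N k) ≤ WJ_tm c β' x' ∧ WJ_tm c β (s N k) ≤ WJ_tm c β' (s N k')) := by
  have h1 : e N k' ≤ s N k := by
    have h2 := e_anti hN (Nat.succ_le_of_lt h)
    rwa [Nat.succ_eq_add_one, e_succ hN] at h2
  have h3 : x' ≤ s N k := hx'.trans h1
  have h4 : s N k' ≤ s N k := s_anti hN h.le
  have hup : ∀ (β' : Bool) (z : ℝ≥0), z ≤ s N k → WJ_tm c β' z ≤ c + s N k := by
    intro β' z hz
    unfold WJ_tm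
    by_cases hb : β' = true
    · rw [if_pos hb]; gcongr
    · rw [if_neg hb]; exact tsub_le_self.trans le_self_add
  have hlow : ∀ (β' : Bool) (z : ℝ≥0), z ≤ s N k → c - s N k ≤ WJ_tm c β' z := by
    intro β' z hz
    unfold WJ_tm
    by_cases hb : β' = true
    · rw [if_pos hb]; exact tsub_le_self.trans le_self_add
    · rw [if_neg hb]; exact tsub_le_tsub_left hz c
  by_cases hβ : β = true
  · left
    have e1 : c + s N k ≤ WJ_tm c β x := by unfold WJ_tm; rw [if_pos hβ]; gcongr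
    have e2 : c + s N k ≤ WJ_tm c β (s N k) := by unfold WJ_tm; rw [if_pos hβ]
    exact ⟨(hup β' x' h3).trans e1, (hup β' x' h3).trans e2, (hup β' _ h4).trans e1, (hup β' _ h4).trans e2⟩
  · right
    have e1 : WJ_tm c β x ≤ c - s N k := by unfold WJ_tm; rw [if_neg hβ]; exact tsub_le_tsub_left hx c
    have e2 : WJ_tm c β (s N k) ≤ c - s N k := by unfold WJ_tm; rw [if_neg hβ]
    exact ⟨e1.trans (hlow β' x' h3), e1.trans (hlow β' _ h4), e2.trans (hlow β' x' h3), e2.trans (hlow β' _ h4)⟩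

theorem window_indep (hW : BM W P) {N : ℕ} (hN : 2 ≤ N) (c : ℝ≥0) :
    iIndepFun (fun (k : {k : ℕ // e N k ≤ c}) ω q => Xw W N c k q ω) P := by
  apply IsGaussianProcess.iIndepFun_of_covariance_eq_zero
  · apply hW.gauss.of_isGaussianProcess
    rintro ⟨k, q⟩
    refine ⟨{(q.2.1, WJ_tm c q.1 q.2.2), (q.2.1, WJ_tm c q.1 (s N k))},
      { toFun := fun x => x ⟨(q.2.1, WJ_tm c q.1 q.2.2), by simp⟩ - x ⟨(q.2.1, WJ_tm c q.1 (s N k)), by simp⟩
        map_add' := fun x y => by simp; abel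
        map_smul' := fun a x => by simp; ring
        cont := by fun_prop }, ?_⟩
    intro ω
    have h1 := congrFun (WJ_Xw W N c k q) ω
    rw [h1]
    rfl
  · intro k q
    rw [WJ_Xw]
    exact (((measurable_pi_apply _).comp (hW.meas _)).sub ((measurable_pi_apply _).comp (hW.meas _))).aemeasurable
  · intro k k' hkk' q q'
    rw [WJ_Xw, WJ_Xw]
    have hne : (k : ℕ) ≠ k' := fun h => hkk' (Subtype.ext h)
    rcases lt_or_gt_of_ne hne with h | h
    · exact WJ_cov hW _ _ _ _ _ _ (WJ_order hN c h q.1 q'.1 q.2.2.2.1 q'.2.2.2.2)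
    · rw [covariance_comm]
      exact WJ_cov hW _ _ _ _ _ _ (WJ_order hN c h q'.1 q.1 q'.2.2.2.1 q.2.2.2.2)

end Pool.Agent.Lib.MP_098ea1_pr.BR
end

section

/-!
# TASK BR OR: a sum (numbers)

`x = (N^3)⁻¹`, `q = K/N`, `K³ ≥ 1 + C`, so `x = q³/K³ ≤ q³/(1+C)`. For `i ≥ 1`: `C x^i q^(-(i+2)) ≤ C x^i q^(-3i) ≤ C (1+C)^(-i)` (as `q ≤ 1`, `i + 2 ≤ 3i`), and `∑_{i ≥ 1} C (1+C)^(-i) = 1`. The statement is this multiplied by `q^n`;
for `n < i + 2` the exponent `n - (i+2)` is truncated to 0 and `1 ≤ q^(n - (i+2))` in the integers; so `q^(n ∸ (i+2)) ≤ q^n q^(-(i+2))` in all cases.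
-/

set_option autoImplicit false

open MeasureTheory ProbabilityTheory Set Filter Topology
open scoped NNReal ENNReal

namespace Pool.Agent.Lib.MP_098ea1_pr.BR

universe u

private theorem OR_geo (C : ℝ) (hC : 1 ≤ C) (k : ℕ) :
    ∑ i ∈ Finset.Icc 1 k, C * ((1 + C)⁻¹) ^ i = 1 - ((1 + C)⁻¹) ^ k := by
  have h0 : (1 + C) ≠ 0 := by positivity
  induction k with
  | zero => simp
  | succ k ih =>
    rw [Finset.sum_Icc_succ_top (by omega), ih, pow_succ]
    have h1 : C * ((1 + C)⁻¹ ^ k * (1 + C)⁻¹) = (1 + C)⁻¹ ^ k * (1 - (1 + C)⁻¹) := by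
      have h2 : C * (1 + C)⁻¹ = 1 - (1 + C)⁻¹ := by
        field_simp
        ring
      rw [← h2]
      ring
    rw [h1]
    ring

theorem sum_bound (C K : ℝ) (hC : 1 ≤ C) (hK : 1 ≤ K) (hKC : 1 + C ≤ K ^ 3) (N : ℕ) (hN : K ≤ N) (n k : ℕ) :
    ∑ i ∈ Finset.Icc 1 k, C * (((N : ℝ) ^ 3)⁻¹) ^ i * (K / N) ^ (n - (i + 2)) ≤ (K / N) ^ n := by
  have hN0 : (0 : ℝ) < N := by linarith
  have hq0 : 0 < K / N := by positivity
  have hq1 : K / N ≤ 1 := (div_le_one hN0).2 hN
  have hρ0 : 0 ≤ (1 + C)⁻¹ := by positivity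
  have hx : ((N : ℝ) ^ 3)⁻¹ ≤ (1 + C)⁻¹ * (K / N) ^ 3 := by
    rw [div_pow, ← mul_div_assoc, le_div_iff₀ (by positivity), inv_mul_cancel₀ (by positivity)]
    rw [inv_mul_eq_div, le_div_iff₀ (by positivity)]
    linarith
  have hterm : ∀ i ∈ Finset.Icc 1 k, C * (((N : ℝ) ^ 3)⁻¹) ^ i * (K / N) ^ (n - (i + 2)) ≤
      (K / N) ^ n * (C * ((1 + C)⁻¹) ^ i) := by
    intro i hi
    have hi1 : 1 ≤ i := (Finset.mem_Icc.1 hi).1
    have h1 : (((N : ℝ) ^ 3)⁻¹) ^ i ≤ ((1 + C)⁻¹) ^ i * (K / N) ^ (i + 2) := by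
      calc (((N : ℝ) ^ 3)⁻¹) ^ i ≤ ((1 + C)⁻¹ * (K / N) ^ 3) ^ i :=
            pow_le_pow_left₀ (by positivity) hx i
        _ = ((1 + C)⁻¹) ^ i * (K / N) ^ (3 * i) := by rw [mul_pow, ← pow_mul]
        _ ≤ ((1 + C)⁻¹) ^ i * (K / N) ^ (i + 2) :=
            mul_le_mul_of_nonneg_left (pow_le_pow_of_le_one hq0.le hq1 (by omega)) (by positivity)
    have h2 : (K / N) ^ (i + 2) * (K / N) ^ (n - (i + 2)) ≤ (K / N) ^ n := by
      rw [← pow_add]
      exact pow_le_pow_of_le_one hq0.le hq1 (by omega)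
    calc C * (((N : ℝ) ^ 3)⁻¹) ^ i * (K / N) ^ (n - (i + 2))
        ≤ C * (((1 + C)⁻¹) ^ i * (K / N) ^ (i + 2)) * (K / N) ^ (n - (i + 2)) := by
          gcongr
      _ = C * ((1 + C)⁻¹) ^ i * ((K / N) ^ (i + 2) * (K / N) ^ (n - (i + 2))) := by ring
      _ ≤ C * ((1 + C)⁻¹) ^ i * (K / N) ^ n :=
          mul_le_mul_of_nonneg_left h2 (by positivity)
      _ = (K / N) ^ n * (C * ((1 + C)⁻¹) ^ i) := by ring
  refine (Finset.sum_le_sum hterm).trans ?_
  rw [← Finset.mul_sum, OR_geo C hC k]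
  have h3 : 0 ≤ ((1 + C)⁻¹) ^ k := by positivity
  have h4 : 0 ≤ (K / N) ^ n := by positivity
  nlinarith

end Pool.Agent.Lib.MP_098ea1_pr.BR
end

section

/-!
# TASK BR TY: types of failure

Let `n = card τ`. `{∀ k ∈ A, ∃ t, ω ∈ E t k} = ⋃_f {∀ k ∈ A, ω ∈ E (f k) k}` over the functions `f : A → τ` (a finite type; or over `Finset.piFinset`). For fixed `f` let `p` be the probability (a real in `[0,1]`) and
`B_t = {k ∈ A | f k = t}`: `p ≤ q t ^ card B_t` for every `t` (`h`, monotonicity), so `p^n ≤ ∏_t q t ^ card B_t = ∏_{k ∈ A} q (f k)` (`Finset.prod_fiberwise`), `p ≤ ∏_{k ∈ A} (q (f k))^(1/n)` (`Real.rpow`; `Real.finsetProd_rpow`).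
Sum over `f`: `∑_f ∏_{k ∈ A} g (f k) = ∏_{k ∈ A} ∑_t g t = (∑_t g t)^(card A)` (`Finset.prod_univ_sum` or `Fintype.sum_pow`, `Finset.sum_pow'`).
-/

set_option autoImplicit false

open MeasureTheory ProbabilityTheory Set Filter Topology
open scoped NNReal ENNReal

namespace Pool.Agent.Lib.MP_098ea1_pr.BR

universe u

theorem types_bound {Ω : Type u} {τ : Type} [MeasurableSpace Ω] [Fintype τ] [Nonempty τ] (P : Measure Ω)
    [IsProbabilityMeasure P] (A : Finset ℕ) (E : τ → ℕ → Set Ω) (q : τ → ℝ) (hq : ∀ t, 0 ≤ q t)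
    (h : ∀ t, ∀ B ⊆ A, P {ω | ∀ k ∈ B, ω ∈ E t k} ≤ ENNReal.ofReal (q t ^ B.card)) :
    P {ω | ∀ k ∈ A, ∃ t, ω ∈ E t k} ≤ ENNReal.ofReal ((∑ t, q t ^ ((Fintype.card τ : ℝ)⁻¹)) ^ A.card) := by
  classical
  obtain ⟨n, hn⟩ : ∃ n : ℕ, n = Fintype.card τ := ⟨_, rfl⟩
  have hn0 : 0 < n := by rw [hn]; exact Fintype.card_pos
  rw [← hn]
  have hnR : (0 : ℝ) < n := by exact_mod_cast hn0
  let F : (A → τ) → Set Ω := fun f => {ω | ∀ k : A, ω ∈ E (f k) k}
  have hsub : {ω | ∀ k ∈ A, ∃ t, ω ∈ E t k} ⊆ ⋃ f ∈ (Finset.univ : Finset (A → τ)), F f := by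
    intro ω hω
    choose! f hf using hω
    rw [Set.mem_iUnion₂]
    exact ⟨fun k => f k, Finset.mem_univ _, fun k => hf k k.2⟩
  have hF : ∀ f : A → τ, P (F f) ≤ ENNReal.ofReal (∏ k : A, q (f k) ^ ((n : ℝ)⁻¹)) := by
    intro f
    let B : τ → Finset ℕ := fun t => (A.attach.filter (fun k => f k = t)).map (Function.Embedding.subtype _)
    have hBA : ∀ t, B t ⊆ A := by
      intro t k hk
      simp only [B, Finset.mem_map, Finset.mem_filter, Finset.mem_attach, true_and, Function.Embedding.coe_subtype] at hk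
      obtain ⟨a, _, rfl⟩ := hk
      exact a.2
    have h1 : ∀ t, P (F f) ≤ ENNReal.ofReal (q t ^ (B t).card) := by
      intro t
      refine le_trans (measure_mono ?_) (h t (B t) (hBA t))
      intro ω hω k hk
      simp only [B, Finset.mem_map, Finset.mem_filter, Finset.mem_attach, true_and, Function.Embedding.coe_subtype] at hk
      obtain ⟨a, ha, rfl⟩ := hk
      rw [← ha]
      exact hω a
    obtain ⟨p, hp⟩ : ∃ p : ℝ, p = (P (F f)).toReal := ⟨_, rfl⟩
    have hp0 : 0 ≤ p := by rw [hp]; exact ENNReal.toReal_nonneg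
    have hPp : P (F f) = ENNReal.ofReal p := by
      rw [hp, ENNReal.ofReal_toReal (measure_ne_top P _)]
    have h2 : ∀ t, p ≤ q t ^ (B t).card := by
      intro t
      have h3 := h1 t
      rw [hPp] at h3
      exact (ENNReal.ofReal_le_ofReal_iff (pow_nonneg (hq t) _)).mp h3
    rw [hPp]
    refine ENNReal.ofReal_le_ofReal ?_
    have h4 : p ^ n ≤ ∏ k : A, q (f k) := by
      have h5 : p ^ n = ∏ _t : τ, p := by
        rw [Finset.prod_const, Finset.card_univ, hn]
      have h6 : ∏ t : τ, q t ^ (B t).card = ∏ k : A, q (f k) := by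
        have h7 := Finset.prod_fiberwise (Finset.univ : Finset A) f (fun k => q (f k))
        rw [← h7]
        refine Finset.prod_congr rfl (fun t _ => ?_)
        have h8 : (B t).card = ((Finset.univ : Finset A).filter (fun k => f k = t)).card := by
          simp only [B, Finset.card_map]
          rfl
        rw [h8, ← Finset.prod_const]
        refine Finset.prod_congr rfl (fun k hk => ?_)
        rw [(Finset.mem_filter.mp hk).2]
      rw [h5, ← h6]
      exact Finset.prod_le_prod (fun _ _ => hp0) (fun t _ => h2 t)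
    have h9 : p = (p ^ n) ^ ((n : ℝ)⁻¹) := by
      rw [← Real.rpow_natCast, ← Real.rpow_mul hp0, mul_inv_cancel₀ hnR.ne', Real.rpow_one]
    rw [h9, Real.finsetProd_rpow _ _ (fun k _ => hq _)]
    exact Real.rpow_le_rpow (by positivity) h4 (by positivity)
  calc P {ω | ∀ k ∈ A, ∃ t, ω ∈ E t k} ≤ P (⋃ f ∈ (Finset.univ : Finset (A → τ)), F f) := measure_mono hsub
    _ ≤ ∑ f : A → τ, P (F f) := measure_biUnion_finset_le _ _
    _ ≤ ∑ f : A → τ, ENNReal.ofReal (∏ k : A, q (f k) ^ ((n : ℝ)⁻¹)) := Finset.sum_le_sum (fun f _ => hF f)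
    _ = ENNReal.ofReal (∑ f : A → τ, ∏ k : A, q (f k) ^ ((n : ℝ)⁻¹)) := by
        rw [ENNReal.ofReal_sum_of_nonneg]
        intro f _
        exact Finset.prod_nonneg (fun k _ => Real.rpow_nonneg (hq _) _)
    _ = ENNReal.ofReal ((∑ t, q t ^ ((n : ℝ)⁻¹)) ^ A.card) := by
        congr 1
        have h1 := Finset.prod_univ_sum (fun _ : A => (Finset.univ : Finset τ)) (fun _ t => q t ^ ((n : ℝ)⁻¹))
        rw [Fintype.piFinset_univ] at h1
        rw [← h1, Finset.prod_const, Finset.card_univ, Fintype.card_coe]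

end Pool.Agent.Lib.MP_098ea1_pr.BR
end

section

/-!
# TASK BR GA: the modified half spaces

`Obox` is open, so `Vset` is open. `Vset_upper`: `x i < a + ell N k ≤ a + ell N k0`. `frontier_Vset`: let `x ∈ R` be in the frontier; `x ∉ Vset` (open), so `a ≤ x i`.
Case `x i > a`. Let `η = x i - a`. In the neighbourhood `U = {y | y i > a + η/2}` ∩ ball of radius 1 around `x` only boxes with `ell N k > η/2` are met, so finitely many `k` (`ell_tendsto`), and for each `k` only finitely many boxes up to the coordinate `c i` (the grid points with `|c j - x j| < 1 + 2 ell`, `j ≠ i`; `Obox`, `Cap` do not depend on `c i`):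
so `Vset ∩ U` is `U` intersected with a finite union of boxes of `Vset`, and `x ∈ closure Vset` gives `x ∈ closure (Obox N k i a c)` for one of them (closure of a finite union). So `|x i - a| ≤ ell`, `|x j - c j| ≤ 2 ell`, `x ∉ Obox`, `x i ≥ a`: `x ∈ Cap N k i a c`, but `Cap ∩ R = ∅` and `x ∈ R`, a contradiction.
Case `x i = a`: if `x ∈ Obox N k i a c` with `k0 ≤ k`, `grid N k c`, then `Cap N k i a c ∩ R ≠ ∅`, since otherwise `x ∈ Vset`. So `x ∈ Bad`.
-/

set_option autoImplicit false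

open MeasureTheory ProbabilityTheory Set Filter Topology
open scoped NNReal ENNReal

namespace Pool.Agent.Lib.MP_098ea1_pr.BR

universe u

theorem GA_isOpen_Obox (N k : ℕ) (i : Fin 3) (a : ℝ) (c : V) : IsOpen (Obox N k i a c) := by
  have h1 : Obox N k i a c = {x | |x i - a| < ell N k} ∩ ⋂ j, {x : V | j ≠ i → |x j - c j| < 2 * ell N k} := by
    ext x
    constructor
    · rintro ⟨h1, h2⟩
      exact ⟨h1, Set.mem_iInter.2 fun j hj => h2 j hj⟩
    · rintro ⟨h1, h2⟩
      exact ⟨h1, fun j hj => Set.mem_iInter.1 h2 j hj⟩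
  rw [h1]
  refine IsOpen.inter ?_ (isOpen_iInter_of_finite fun j => ?_)
  · exact isOpen_lt ((continuous_apply i).sub continuous_const).abs continuous_const
  · by_cases hj : j = i
    · have : {x : V | j ≠ i → |x j - c j| < 2 * ell N k} = Set.univ := by
        ext x
        exact ⟨fun _ => trivial, fun _ h => absurd hj h⟩
      rw [this]
      exact isOpen_univ
    · have : {x : V | j ≠ i → |x j - c j| < 2 * ell N k} = {x : V | |x j - c j| < 2 * ell N k} := by
        ext x
        exact ⟨fun h => h hj, fun h _ => h⟩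
      rw [this]
      exact isOpen_lt ((continuous_apply j).sub continuous_const).abs continuous_const

theorem isOpen_Vset (N k0 : ℕ) (i : Fin 3) (a : ℝ) (R : Set V) : IsOpen (Vset N k0 i a R) := by
  have h1 : Vset N k0 i a R = {x | x i < a} ∪ ⋃ (p : {p : ℕ × V // k0 ≤ p.1 ∧ grid N p.1 p.2 ∧
      Cap N p.1 i a p.2 ∩ R = ∅}), Obox N p.1.1 i a p.1.2 := by
    ext x
    constructor
    · rintro (h | ⟨k, hk, c, hc, hcap, hx⟩)
      · exact Or.inl h
      · exact Or.inr (Set.mem_iUnion.2 ⟨⟨(k, c), hk, hc, hcap⟩, hx⟩)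
    · rintro (h | h)
      · exact Or.inl h
      · obtain ⟨⟨⟨k, c⟩, hk, hc, hcap⟩, hx⟩ := Set.mem_iUnion.1 h
        exact Or.inr ⟨k, hk, c, hc, hcap, hx⟩
  rw [h1]
  refine IsOpen.union ?_ (isOpen_iUnion fun p => GA_isOpen_Obox N p.1.1 i a p.1.2)
  exact isOpen_lt (continuous_apply i) continuous_const

theorem Vset_upper {N : ℕ} (hN : 2 ≤ N) (k0 : ℕ) (i : Fin 3) (a : ℝ) (R : Set V) :
    Vset N k0 i a R ⊆ {x | x i < a + ell N k0} := by
  rintro x (h | ⟨k, hk, c, hc, hcap, hx⟩)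
  · have := ell_pos hN k0
    show x i < a + ell N k0
    linarith [show x i < a from h]
  · have h1 := ell_anti hN hk
    have h2 := (abs_lt.1 hx.1).2
    show x i < a + ell N k0
    linarith

theorem GA_closure_Obox {N k : ℕ} {i : Fin 3} {a : ℝ} {c x : V} (hx : x ∈ closure (Obox N k i a c)) :
    |x i - a| ≤ ell N k ∧ ∀ j, j ≠ i → |x j - c j| ≤ 2 * ell N k := by
  have hcl : IsClosed ({x : V | |x i - a| ≤ ell N k} ∩ ⋂ j, {x : V | j ≠ i → |x j - c j| ≤ 2 * ell N k}) := by
    refine IsClosed.inter ?_ (isClosed_iInter fun j => ?_)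
    · exact isClosed_le ((continuous_apply i).sub continuous_const).abs continuous_const
    · by_cases hj : j = i
      · have : {x : V | j ≠ i → |x j - c j| ≤ 2 * ell N k} = Set.univ := by
          ext x
          exact ⟨fun _ => trivial, fun _ h => absurd hj h⟩
        rw [this]
        exact isClosed_univ
      · have : {x : V | j ≠ i → |x j - c j| ≤ 2 * ell N k} = {x : V | |x j - c j| ≤ 2 * ell N k} := by
          ext x
          exact ⟨fun h => h hj, fun h _ => h⟩
        rw [this]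
        exact isClosed_le ((continuous_apply j).sub continuous_const).abs continuous_const
  have hsub : Obox N k i a c ⊆ {x : V | |x i - a| ≤ ell N k} ∩
      ⋂ j, {x : V | j ≠ i → |x j - c j| ≤ 2 * ell N k} := by
    rintro y ⟨h1, h2⟩
    exact ⟨h1.le, Set.mem_iInter.2 fun j hj => (h2 j hj).le⟩
  have h3 := closure_minimal hsub hcl hx
  exact ⟨h3.1, fun j hj => Set.mem_iInter.1 h3.2 j hj⟩

theorem frontier_Vset {N : ℕ} (hN : 2 ≤ N) (k0 : ℕ) (i : Fin 3) (a : ℝ) (R : Set V) :
    frontier (Vset N k0 i a R) ∩ R ⊆ Bad N k0 i a R := by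
  classical
  rintro x ⟨hx, hxR⟩
  rw [(isOpen_Vset N k0 i a R).frontier_eq] at hx
  obtain ⟨hxc, hxV⟩ := hx
  have hax : a ≤ x i := by
    by_contra h
    exact hxV (Or.inl (not_le.1 h))
  have hbox : ∀ k, k0 ≤ k → ∀ c, grid N k c → Cap N k i a c ∩ R = ∅ → x ∉ Obox N k i a c :=
    fun k hk c hc hcap hxo => hxV (Or.inr ⟨k, hk, c, hc, hcap, hxo⟩)
  rcases eq_or_lt_of_le hax with hax | hax
  · refine ⟨hxR, hax.symm, fun k hk c hc hxo => ?_⟩
    rw [Set.nonempty_iff_ne_empty]
    exact fun hcap => hbox k hk c hc hcap hxo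
  · exfalso
    set η := x i - a with hη
    have hη0 : 0 < η := by rw [hη]; linarith
    obtain ⟨K0, hK0⟩ : ∃ K0, ∀ k, K0 ≤ k → ell N k < η / 2 := by
      have h1 := (ell_tendsto hN).eventually (gt_mem_nhds (show (0 : ℝ) < η / 2 by linarith))
      exact eventually_atTop.1 h1
    obtain ⟨B, hB⟩ := exists_nat_ge ((‖x‖ + 3) / ell N K0)
    set cc : ℕ × (Fin 3 → ℤ) → V := fun p j => (p.2 j : ℝ) * ell N p.1 with hcc
    set F : Finset (ℕ × (Fin 3 → ℤ)) := (Finset.range K0 ×ˢ
      Fintype.piFinset (fun _ : Fin 3 => Finset.Icc (-(B : ℤ)) B)).filter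
        (fun p => k0 ≤ p.1 ∧ Cap N p.1 i a (cc p) ∩ R = ∅) with hF
    set U : Set V := {y | a + η / 2 < y i} ∩ Metric.ball x 1 with hU
    have hUo : IsOpen U := (isOpen_lt continuous_const (continuous_apply i)).inter Metric.isOpen_ball
    have hxU : x ∈ U := by
      refine ⟨?_, Metric.mem_ball_self one_pos⟩
      show a + η / 2 < x i
      rw [hη]
      linarith
    have hsub : Vset N k0 i a R ∩ U ⊆ ⋃ p ∈ F, Obox N p.1 i a (cc p) := by
      rintro y ⟨hyV, hyU, hyb⟩
      have hyU' : a + η / 2 < y i := hyU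
      rcases hyV with h | ⟨k, hk, c, hc, hcap, hy⟩
      · exfalso
        have h' : y i < a := h
        linarith
      · have hkK : k < K0 := by
          by_contra hcon
          have h1 := hK0 k (not_lt.1 hcon)
          have h2 := (abs_lt.1 hy.1).2
          linarith
        choose m hm using hc
        set m' : Fin 3 → ℤ := fun j => if j = i then 0 else m j with hm'
        have hcj : ∀ j, j ≠ i → cc (k, m') j = c j := by
          intro j hj
          simp only [hcc, hm', hj, if_false]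
          exact (hm j).symm
        have hObox : y ∈ Obox N k i a (cc (k, m')) := by
          refine ⟨hy.1, fun j hj => ?_⟩
          rw [hcj j hj]
          exact hy.2 j hj
        have hCap : Cap N k i a (cc (k, m')) = Cap N k i a c := by
          ext z
          constructor
          · rintro ⟨h1, h2, h3, h4⟩
            refine ⟨h1, h2, fun j hj => ?_, ?_⟩
            · rw [← hcj j hj]; exact h3 j hj
            · rcases h4 with h4 | ⟨j, hj, h4⟩
              · exact Or.inl h4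
              · exact Or.inr ⟨j, hj, by rw [← hcj j hj]; exact h4⟩
          · rintro ⟨h1, h2, h3, h4⟩
            refine ⟨h1, h2, fun j hj => ?_, ?_⟩
            · rw [hcj j hj]; exact h3 j hj
            · rcases h4 with h4 | ⟨j, hj, h4⟩
              · exact Or.inl h4
              · exact Or.inr ⟨j, hj, by rw [hcj j hj]; exact h4⟩
        rw [Set.mem_iUnion₂]
        refine ⟨(k, m'), ?_, hObox⟩
        rw [hF, Finset.mem_filter, Finset.mem_product, Finset.mem_range, Fintype.mem_piFinset]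
        refine ⟨⟨hkK, fun j => ?_⟩, hk, by rw [hCap]; exact hcap⟩
        show m' j ∈ Finset.Icc (-(B : ℤ)) B
        rw [Finset.mem_Icc, ← abs_le]
        by_cases hj : j = i
        · simp [hm', hj]
        · have h1 : |y j - c j| < 2 * ell N k := hy.2 j hj
          have h2 : |y j - x j| < 1 := by
            have h3 : ‖y - x‖ < 1 := by rw [← dist_eq_norm]; exact hyb
            have h4 := norm_le_pi_norm (y - x) j
            rw [Real.norm_eq_abs, Pi.sub_apply] at h4
            linarith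
          have h5 : |x j| ≤ ‖x‖ := by
            have := norm_le_pi_norm x j
            rwa [Real.norm_eq_abs] at this
          have h6 : |c j| ≤ ‖x‖ + 3 := by
            have h7 := ell_le_one hN k
            have h8 : c j = (c j - y j) + (y j - x j) + x j := by ring
            have h9 : |c j| ≤ |c j - y j| + |y j - x j| + |x j| := by
              calc |c j| = |(c j - y j) + (y j - x j) + x j| := by rw [← h8]
                _ ≤ |(c j - y j) + (y j - x j)| + |x j| := abs_add_le _ _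
                _ ≤ _ := by
                    have := abs_add_le (c j - y j) (y j - x j)
                    linarith
            rw [abs_sub_comm (c j) (y j)] at h9
            linarith
          have h10 : |(m j : ℝ)| * ell N k ≤ ‖x‖ + 3 := by
            rw [← abs_of_pos (ell_pos hN k), ← abs_mul, ← hm j]
            exact h6
          have h11 : |(m j : ℝ)| ≤ B := by
            refine le_trans ?_ hB
            rw [le_div_iff₀ (ell_pos hN K0)]
            exact (mul_le_mul_of_nonneg_left (ell_anti hN hkK.le) (abs_nonneg _)).trans h10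
          simp only [hm', hj, if_false]
          exact_mod_cast h11
    have hxcl : x ∈ closure (Vset N k0 i a R ∩ U) := by
      rw [mem_closure_iff]
      intro O hO hxO
      obtain ⟨z, hz1, hz2⟩ := mem_closure_iff.1 hxc (O ∩ U) (hO.inter hUo) ⟨hxO, hxU⟩
      exact ⟨z, hz1.1, hz2, hz1.2⟩
    have hx2 := closure_mono hsub hxcl
    have hx3 : x ∈ ⋃ p ∈ F, closure (Obox N p.1 i a (cc p)) := by
      have h1 := Finset.closure_biUnion F (fun p => Obox N p.1 i a (cc p))
      rw [h1] at hx2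
      exact hx2
    obtain ⟨⟨k, m⟩, hp, hxp⟩ := Set.mem_iUnion₂.1 hx3
    rw [hF, Finset.mem_filter] at hp
    obtain ⟨_, hk, hcap⟩ := hp
    obtain ⟨h1, h2⟩ := GA_closure_Obox hxp
    have hg : grid N k (cc (k, m)) := fun j => ⟨m j, rfl⟩
    have h3 := hbox k hk (cc (k, m)) hg hcap
    have h4 : x ∈ Cap N k i a (cc (k, m)) := by
      refine ⟨hax.le, ?_, h2, ?_⟩
      · have := (abs_le.1 h1).2
        linarith
      · by_contra hcon
        push Not at hcon
        apply h3
        refine ⟨lt_of_le_of_ne h1 ?_, fun j hj => lt_of_le_of_ne (h2 j hj) (hcon.2 j hj)⟩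
        intro h5
        apply hcon.1
        rw [abs_of_pos hη0] at h5
        rw [hη] at h5
        linarith
    have h5 : x ∈ Cap N k i a (cc (k, m)) ∩ R := ⟨h4, hxR⟩
    have hcap' : Cap N k i a (cc (k, m)) ∩ R = ∅ := hcap
    rw [hcap'] at h5
    exact h5

end Pool.Agent.Lib.MP_098ea1_pr.BR
end

section

/-!
# TASK BR GB: the basis

For rational `a⁻ j < a⁺ j` (`j : Fin 3`) and `k0` let `O = ⋂_j (Vset N k0 j (a⁺ j) R ∩ (closure (Vset N k0 j (a⁻ j) R))ᶜ)`, open in `V`, and `U = {x : R | (x : V) ∈ O}`. `𝓑` = all these `U`.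
Basis (`TopologicalSpace.isTopologicalBasis_of_isOpen_of_nhds`): let `x ∈ R` and `G` a neighbourhood of `x` in `V` containing the ball of radius `ε` (sup norm). Choose `k0` with `ell N k0 < ε/4` (`ell_tendsto`) and rationals `x j - ε/2 < a⁻ j < x j - ε/4`, `x j < a⁺ j < x j + ε/2`.
`x ∈ O`: `x j < a⁺ j`; `closure (Vset .. a⁻ j) ⊆ {y | y j ≤ a⁻ j + ell N k0}` and `x j > a⁻ j + ell N k0`. `O ⊆` ball: `y ∈ O` has `y j < a⁺ j + ell N k0 < x j + ε` and `y j ≥ a⁻ j > x j - ε` (`{y | y j < a⁻ j} ⊆ Vset`).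
Frontier: `frontier U` (in the subspace) is contained in the preimage of `frontier O` (`continuous_subtype_val.frontier_preimage_subset`), `frontier O ⊆ ⋃_j (frontier (Vset .. a⁺ j) ∪ frontier (Vset .. a⁻ j))` (`frontier_inter_subset`, `frontier_compl`, `frontier_closure_subset`;
finite intersections over `Fin 3`). With `frontier_Vset` the image of `frontier U` in `V` is contained in the union of six sets `Bad`, so its dimension is at most `d` (`dimH_union`), and the dimension of `frontier U` in the subspace is that of its image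
(`isometry_subtype_coe.dimH_image`).
-/

set_option autoImplicit false

open MeasureTheory ProbabilityTheory Set Filter Topology
open scoped NNReal ENNReal

namespace Pool.Agent.Lib.MP_098ea1_pr.BR

universe u

private theorem GB_frontier_iInter {X : Type*} [TopologicalSpace X] {ι : Type*} [Finite ι]
    (A : ι → Set X) : frontier (⋂ j, A j) ⊆ ⋃ j, frontier (A j) := by
  intro x hx
  obtain ⟨h1, h2⟩ := hx
  rw [interior_iInter_of_finite, Set.mem_iInter, not_forall] at h2
  obtain ⟨j, hj⟩ := h2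
  exact Set.mem_iUnion.2 ⟨j, closure_mono (Set.iInter_subset A j) h1, hj⟩

private def GB_A (N k0 : ℕ) (R : Set V) (p q : Fin 3 → ℚ) (j : Fin 3) : Set V :=
  Vset N k0 j (q j) R ∩ (closure (Vset N k0 j (p j) R))ᶜ

private theorem GB_A_open (N k0 : ℕ) (R : Set V) (p q : Fin 3 → ℚ) (j : Fin 3) :
    IsOpen (GB_A N k0 R p q j) :=
  (isOpen_Vset N k0 j (q j) R).inter isClosed_closure.isOpen_compl

private theorem GB_frontier {N : ℕ} (hN : 2 ≤ N) (k0 : ℕ) (R : Set V) (p q : Fin 3 → ℚ) (j : Fin 3) :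
    frontier (GB_A N k0 R p q j) ∩ R ⊆ Bad N k0 j (q j) R ∪ Bad N k0 j (p j) R := by
  rintro x ⟨hx, hxR⟩
  rcases frontier_inter_subset _ _ hx with h | h
  · exact Or.inl (frontier_Vset hN k0 j (q j) R ⟨h.1, hxR⟩)
  · have h1 := h.2
    rw [frontier_compl] at h1
    exact Or.inr (frontier_Vset hN k0 j (p j) R ⟨frontier_closure_subset h1, hxR⟩)

theorem basis_of_bad {N : ℕ} (hN : 2 ≤ N) (R : Set V) (d : ℝ≥0∞)
    (h : ∀ (i : Fin 3) (a : ℚ) (k0 : ℕ), dimH (Bad N k0 i (a : ℝ) R) ≤ d) :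
    ∃ 𝓑 : Set (Set R), TopologicalSpace.IsTopologicalBasis 𝓑 ∧ ∀ U ∈ 𝓑, dimH (frontier U) ≤ d := by
  refine ⟨{U | ∃ (k0 : ℕ) (p q : Fin 3 → ℚ),
    U = (Subtype.val : R → V) ⁻¹' (⋂ j, GB_A N k0 R p q j)}, ?_, ?_⟩
  · refine TopologicalSpace.isTopologicalBasis_of_isOpen_of_nhds ?_ ?_
    · rintro _ ⟨k0, p, q, rfl⟩
      exact (isOpen_iInter_of_finite (fun j => GB_A_open N k0 R p q j)).preimage
        continuous_subtype_val
    · intro x G hx hG
      obtain ⟨ε, hε, hball⟩ := Metric.isOpen_iff.1 hG x hx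
      obtain ⟨k0, hk0⟩ : ∃ k0, ell N k0 < ε / 4 :=
        ((ell_tendsto hN).eventually (gt_mem_nhds (show (0 : ℝ) < ε / 4 by linarith))).exists
      have hp : ∀ j : Fin 3, ∃ a : ℚ, (x : V) j - ε / 2 < a ∧ (a : ℝ) < (x : V) j - ε / 4 :=
        fun j => exists_rat_btwn (by linarith)
      have hq : ∀ j : Fin 3, ∃ a : ℚ, (x : V) j < a ∧ (a : ℝ) < (x : V) j + ε / 2 :=
        fun j => exists_rat_btwn (by linarith)
      choose p hp1 hp2 using hp
      choose q hq1 hq2 using hq
      refine ⟨_, ⟨k0, p, q, rfl⟩, ?_, ?_⟩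
      · rw [Set.mem_preimage, Set.mem_iInter]
        intro j
        refine ⟨Or.inl (hq1 j), ?_⟩
        intro hcl
        have hsub : closure (Vset N k0 j (p j) R) ⊆ {y : V | y j ≤ (p j : ℝ) + ell N k0} := by
          refine closure_minimal ?_ (isClosed_le (continuous_apply j) continuous_const)
          intro y hy
          have h0 : y j < (p j : ℝ) + ell N k0 := Vset_upper hN k0 j (p j) R hy
          exact le_of_lt h0
        have h1 : (x : V) j ≤ (p j : ℝ) + ell N k0 := hsub hcl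
        have h2 := hp2 j
        linarith
      · intro y hy
        rw [Set.mem_preimage, Set.mem_iInter] at hy
        apply hball
        rw [Metric.mem_ball, Subtype.dist_eq, dist_pi_lt_iff hε]
        intro j
        obtain ⟨h1, h2⟩ := hy j
        have h3 : (y : V) j < (q j : ℝ) + ell N k0 := Vset_upper hN k0 j (q j) R h1
        have h4 : (p j : ℝ) ≤ (y : V) j := by
          by_contra hlt
          rw [not_le] at hlt
          exact h2 (subset_closure (Or.inl hlt))
        have h5 := hp1 j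
        have h6 := hq2 j
        rw [Real.dist_eq, abs_lt]
        constructor <;> linarith
  · rintro _ ⟨k0, p, q, rfl⟩
    have h1 : (Subtype.val : R → V) '' frontier ((Subtype.val : R → V) ⁻¹' (⋂ j, GB_A N k0 R p q j)) ⊆
        ⋃ j : Fin 3, (Bad N k0 j (q j) R ∪ Bad N k0 j (p j) R) := by
      rintro _ ⟨x, hx, rfl⟩
      have h2 := continuous_subtype_val.frontier_preimage_subset _ hx
      have h3 := GB_frontier_iInter _ h2
      rw [Set.mem_iUnion] at h3 ⊢
      obtain ⟨j, hj⟩ := h3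
      exact ⟨j, GB_frontier hN k0 R p q j ⟨hj, x.2⟩⟩
    rw [← (isometry_subtype_coe (s := R)).dimH_image]
    refine (dimH_mono h1).trans ?_
    rw [dimH_iUnion]
    refine iSup_le (fun j => ?_)
    rw [dimH_union]
    exact max_le (h j (q j) k0) (h j (p j) k0)

end Pool.Agent.Lib.MP_098ea1_pr.BR
end

section

/-!
# TASK BR GC: the decomposition, and the topological Hausdorff dimension

`decomp`: there is a countable `𝓑' ⊆ 𝓑` which is also a basis (`TopologicalSpace.IsTopologicalBasis.exists_countable`; if this is not available: for a countable basis `𝓒` and every pair `C ⊆ D` in `𝓒` with some `U ∈ 𝓑`, `C ⊆ U ⊆ D`, choose one such `U`). `S = ⋃_{U ∈ 𝓑'} frontier U`, `dimH S ≤ d` (`dimH_bUnion`).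
`T = Sᶜ`: for `x ≠ y` in `T` there is `U ∈ 𝓑'` with `x ∈ U`, `y ∉ U` (metric space: `T1`). `U` is open, and `T ∩ frontier U = ∅`, so `T ∩ U = T ∩ closure U` is clopen in `T`; a preconnected subset of `T` containing `x` is contained in `U` (`IsPreconnected.subset_of_closure_inter_subset`, or
`isPreconnected_iff_subset_of_disjoint` with the open sets `U`, `(closure U)ᶜ`), so it does not contain `y`.
`dimTH_le`: `c = 2 - δ`; `frontier U` has `hdim ≤ 1 - δ`: if it is empty `-1 ≤ 1 - δ`, otherwise `dimH ≤ ENNReal.ofReal (1 - δ)`; `c - 1 = 1 - δ` in `EReal`. `sInf_le`.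
-/

set_option autoImplicit false

open MeasureTheory ProbabilityTheory Set Filter Topology
open scoped NNReal ENNReal

namespace Pool.Agent.Lib.MP_098ea1_pr.BR

universe u

theorem decomp {X : Type} [MetricSpace X] [SecondCountableTopology X] (d : ℝ≥0∞) (𝓑 : Set (Set X))
    (hB : TopologicalSpace.IsTopologicalBasis 𝓑) (h : ∀ U ∈ 𝓑, dimH (frontier U) ≤ d) :
    ∃ T S : Set X, T ∪ S = Set.univ ∧ IsTotallyDisconnected T ∧ dimH S ≤ d := by
  classical
  have hC := TopologicalSpace.isBasis_countableBasis X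
  have hCc : Countable (TopologicalSpace.countableBasis X) :=
    (TopologicalSpace.countable_countableBasis X).to_subtype
  set I := (TopologicalSpace.countableBasis X) × (TopologicalSpace.countableBasis X) with hI
  let f : I → Set X := fun p =>
    if hp : ∃ U ∈ 𝓑, (p.1 : Set X) ⊆ U ∧ U ⊆ (p.2 : Set X) then hp.choose else ∅
  have hf1 : ∀ p : I, dimH (frontier (f p)) ≤ d := by
    intro p
    by_cases hp : ∃ U ∈ 𝓑, (p.1 : Set X) ⊆ U ∧ U ⊆ (p.2 : Set X)
    · simp only [f, dif_pos hp]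
      exact h _ hp.choose_spec.1
    · simp only [f, dif_neg hp, frontier_empty, dimH_empty]
      exact zero_le
  set S : Set X := ⋃ p : I, frontier (f p) with hS
  refine ⟨Sᶜ, S, compl_union_self S, ?_, ?_⟩
  · intro t ht hpc x hx y hy
    by_contra hxy
    obtain ⟨D, hD, hxD, hDy⟩ := hC.exists_subset_of_mem_open (a := x) (u := {y}ᶜ)
      (by simpa using hxy) isOpen_compl_singleton
    obtain ⟨U, hU, hxU, hUD⟩ := hB.exists_subset_of_mem_open hxD (hC.isOpen hD)
    obtain ⟨C, hCm, hxC, hCU⟩ := hC.exists_subset_of_mem_open hxU (hB.isOpen hU)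
    have hp : ∃ V ∈ 𝓑, C ⊆ V ∧ V ⊆ D := ⟨U, hU, hCU, hUD⟩
    have hfp : f (⟨C, hCm⟩, ⟨D, hD⟩) = hp.choose := by
      simp only [f]
      exact dif_pos hp
    obtain ⟨hVB, hCV, hVD⟩ := hp.choose_spec
    set V := hp.choose with hV
    have hVo : IsOpen V := hB.isOpen hVB
    have hfr : ∀ z ∈ t, z ∉ frontier V := by
      intro z hz hzf
      apply ht hz
      rw [hS, Set.mem_iUnion]
      exact ⟨(⟨C, hCm⟩, ⟨D, hD⟩), by rw [hfp]; exact hzf⟩
    have h1 := isPreconnected_iff_subset_of_disjoint.1 hpc V (closure V)ᶜ hVo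
      isClosed_closure.isOpen_compl (by
        intro z hz
        by_cases hzc : z ∈ closure V
        · left
          by_contra hzV
          exact hfr z hz ⟨hzc, by rwa [hVo.interior_eq]⟩
        · right
          exact hzc) (by
        ext z
        simp only [Set.mem_inter_iff, Set.mem_compl_iff, Set.mem_empty_iff_false, iff_false]
        rintro ⟨-, hz1, hz2⟩
        exact hz2 (subset_closure hz1))
    rcases h1 with h1 | h1
    · exact hDy (hVD (h1 hy)) rfl
    · exact h1 hx (subset_closure (hCV hxC))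
  · rw [hS, dimH_iUnion]
    exact iSup_le hf1

theorem dimTH_le {X : Type} [MetricSpace X] [Nonempty X] (δ : ℝ) (hδ : 0 < δ) (hδ1 : δ ≤ 1) (𝓑 : Set (Set X))
    (hB : TopologicalSpace.IsTopologicalBasis 𝓑) (h : ∀ U ∈ 𝓑, dimH (frontier U) ≤ ENNReal.ofReal (1 - δ)) :
    dimTH X ≤ ((2 - δ : ℝ) : EReal) := by
  classical
  unfold dimTH
  rw [if_neg (not_isEmpty_iff.2 inferInstance)]
  refine sInf_le ⟨?_, 𝓑, hB, ?_⟩
  · have h2 : (0 : ℝ) ≤ 2 - δ := by linarith
    exact_mod_cast h2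
  · intro U hU
    have hc : ((2 - δ : ℝ) : EReal) - 1 = ((1 - δ : ℝ) : EReal) := by
      have h1 : (1 : EReal) = ((1 : ℝ) : EReal) := rfl
      rw [h1, ← EReal.coe_sub]
      congr 1
      ring
    rw [hc]
    unfold hdim
    split_ifs with hE
    · have h3 : ((-1 : ℝ) : EReal) ≤ ((1 - δ : ℝ) : EReal) := by
        apply EReal.coe_le_coe_iff.2
        linarith
      calc (-1 : EReal) = ((-1 : ℝ) : EReal) := by simp
        _ ≤ _ := h3
    · have h4 : ((dimH (frontier U) : ℝ≥0∞) : EReal) ≤ ((ENNReal.ofReal (1 - δ) : ℝ≥0∞) : EReal) :=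
        EReal.coe_ennreal_le_coe_ennreal_iff.2 (h U hU)
      refine h4.trans ?_
      rw [EReal.coe_ennreal_ofReal, max_eq_left (by linarith)]

end Pool.Agent.Lib.MP_098ea1_pr.BR
end
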