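import Pool.Agent.Lib.MP_098ea1_pr.Mg.G001
import Pool.Agent.Lib.MP_098ea1_pr.Mg.G002
import Pool.Agent.Lib.MP_098ea1_pr.Mg.G004

section

/-!
# TASK BR IN: repeated early exits

`C` = maximum of the constants of `win_bound`, `last_bound`; claim with `2 C`; `x = 1/N^48`, `q = 2 C x`. If `q > 1` the right side is at least 1. Otherwise induction on the cardinality of `A`. `A = ∅`: `P ≤ 1`. Otherwise
`k = min A`, `K = max A`. Let `InE N k (path W ω)`. Then `∃ x ≤ s N K` with `‖W x‖ > (1/2)^(K-k) ell/16` (event `L`), or for some `j`, `k ≤ j < K`, some `x ∈ [s N (j+1), s N j]` has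
`‖W x - W (s N (j+1))‖ > (1/2)^(j-k+1) ell/16` (event `D j`): otherwise for `x ≤ s N k`, `x ∈ [s N (j+1), s N j]` (or `x ≤ s N K`), the triangle inequality along `s N (j+1), ..., s N K` gives
`‖W x‖ ≤ (∑_{j' ≥ j} (1/2)^(j'-k+1) + (1/2)^(K-k)) ell/16 ≤ ell/16`.
`P (L) ≤ C x^(K-k+1)`, and `card A ≤ K - k + 1`. For `D j`: `{∀ k' ∈ A, j < k' → InE N k' (path W ω)}` is in `past W (s N (j+1))` (`InE_meas`, `past_meas`, `s_anti`), `D j` is in `fut W (s N (j+1))` (`meas_exists`, `fut_meas`);
`indep_inter`, `win_bound` and the induction hypothesis for `A.filter (j < ·)` (fewer elements: `k` is not in it; `card ≥ card A - (j - k + 1)`): at most `C x^(j-k+1) q^(card A ∸ (j-k+1))`.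
Sum over `i = j - k ∈ {0..K-k-1}` and `i = K - k`: `sum_bound2` with `n = card A`, `m = K - k + 1`.
-/

set_option autoImplicit false

open MeasureTheory ProbabilityTheory Set Filter Topology
open scoped NNReal ENNReal

namespace Pool.Agent.Lib.MP_098ea1_pr.BR

universe u

/-- The deterministic part: if the increments and the last piece are small, the path stays in the ball. -/
theorem IN_det (w : ℝ≥0 → V) (N k K : ℕ) (hkK : k ≤ K) (ρ : ℝ) (hρ : 0 ≤ ρ)
    (hL : ¬ ∃ x ∈ Set.Iic (s N K), (1 / 2 : ℝ) ^ (K - k) * ρ < ‖w x‖)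
    (hD : ∀ i < K - k, ¬ ∃ x ∈ Set.Icc (s N (k + i + 1)) (s N (k + i)),
      (1 / 2 : ℝ) ^ (i + 1) * ρ < ‖w x - w (s N (k + i + 1))‖) :
    ∀ j, j ≤ K - k → ∀ x, x ≤ s N (k + (K - k - j)) → ‖w x‖ ≤ (1 / 2 : ℝ) ^ (K - k - j) * ρ := by
  intro j
  induction j with
  | zero =>
    intro _ x hx
    by_contra hcon
    apply hL
    refine ⟨x, ?_, ?_⟩
    · have : k + (K - k - 0) = K := by omega
      rw [this] at hx
      exact hx
    · simpa using hcon
  | succ j ih =>
    intro hj x hx
    obtain ⟨i, hi⟩ : ∃ i, K - k - j = i + 1 := ⟨K - k - j - 1, by omega⟩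
    have hi2 : K - k - (j + 1) = i := by omega
    have ih' := ih (by omega)
    rw [hi] at ih'
    rw [hi2] at hx ⊢
    have hpow : (1 / 2 : ℝ) ^ i * ρ = (1 / 2 : ℝ) ^ (i + 1) * ρ + (1 / 2 : ℝ) ^ (i + 1) * ρ := by
      rw [pow_succ]; ring
    have h0 : 0 ≤ (1 / 2 : ℝ) ^ (i + 1) * ρ := by positivity
    rcases le_total x (s N (k + (i + 1))) with h | h
    · have := ih' x h
      linarith
    · have h1 := ih' (s N (k + (i + 1))) le_rfl
      have h2 : ‖w x - w (s N (k + (i + 1)))‖ ≤ (1 / 2 : ℝ) ^ (i + 1) * ρ := by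
        by_contra hcon
        refine hD i (by omega) ⟨x, ⟨?_, hx⟩, ?_⟩
        · exact h
        · exact not_le.1 hcon
      have h3 : ‖w x‖ ≤ ‖w x - w (s N (k + (i + 1)))‖ + ‖w (s N (k + (i + 1)))‖ := by
        have := norm_add_le (w x - w (s N (k + (i + 1)))) (w (s N (k + (i + 1))))
        rwa [sub_add_cancel] at this
      linarith

theorem in_bound : ∃ C : ℝ, 1 ≤ C ∧ ∀ {Ω : Type u} [MeasurableSpace Ω] (P : Measure Ω) [IsProbabilityMeasure P]
    (W : ℝ≥0 → Ω → V), BM W P → ∀ (N : ℕ), 2 ≤ N → ∀ A : Finset ℕ,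
    P {ω | ∀ k ∈ A, InE N k (path W ω)} ≤ ENNReal.ofReal ((C / (N : ℝ) ^ 48) ^ A.card) := by
  classical
  obtain ⟨C1, hC1, hwin⟩ := win_bound.{u}
  obtain ⟨C2, hC2, hlast⟩ := last_bound.{u}
  set C0 := max C1 C2 with hC0
  have hC01 : 1 ≤ C0 := hC1.trans (le_max_left _ _)
  refine ⟨2 * C0, by linarith, ?_⟩
  intro Ω _ P _ W hW N hN A
  have hNpos : (0 : ℝ) < (N : ℝ) ^ 48 := by
    have : (0 : ℝ) < N := by exact_mod_cast (by omega : 0 < N)
    positivity
  set x : ℝ := ((N : ℝ) ^ 48)⁻¹ with hx
  have hx0 : 0 < x := inv_pos.2 hNpos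
  have hq : 2 * C0 / (N : ℝ) ^ 48 = 2 * C0 * x := by rw [div_eq_mul_inv]
  rw [hq]
  set q : ℝ := 2 * C0 * x with hqdef
  have hq0 : 0 < q := by positivity
  rcases le_or_gt q 1 with hq1 | hq1
  swap
  · refine prob_le_one.trans ?_
    rw [← ENNReal.ofReal_one]
    exact ENNReal.ofReal_le_ofReal (one_le_pow₀ hq1.le)
  · have key : ∀ n : ℕ, ∀ A : Finset ℕ, A.card = n →
        P {ω | ∀ k ∈ A, InE N k (path W ω)} ≤ ENNReal.ofReal (q ^ n) := by
      intro n
      induction n using Nat.strong_induction_on with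
      | _ n ih =>
        intro A hA
        rcases A.eq_empty_or_nonempty with hAe | hAne
        · subst hAe
          rw [Finset.card_empty] at hA
          subst hA
          rw [pow_zero, ENNReal.ofReal_one]
          exact prob_le_one
        · set k := A.min' hAne with hk
          set K := A.max' hAne with hK
          have hkA : k ∈ A := A.min'_mem hAne
          have hkK : k ≤ K := A.min'_le K (A.max'_mem hAne)
          have hcard : n ≤ K - k + 1 := by
            rw [← hA]
            have hsub : A ⊆ Finset.Icc k K := fun a ha =>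
              Finset.mem_Icc.2 ⟨A.min'_le a ha, A.le_max' a ha⟩
            have := Finset.card_le_card hsub
            rw [Nat.card_Icc] at this
            omega
          set D : ℕ → Set Ω := fun i => {ω | ∃ x ∈ Set.Icc (s N (k + i + 1)) (s N (k + i)),
            (1 / 2 : ℝ) ^ (k + i - k + 1) * (ell N k / 16) < ‖W x ω - W (s N (k + i + 1)) ω‖} with hDdef
          set G : ℕ → Set Ω := fun i => {ω | ∀ k' ∈ A.filter (fun a => k + i < a), InE N k' (path W ω)} with hG
          set Ls : Set Ω := {ω | ∃ x ∈ Set.Iic (s N K), (1 / 2 : ℝ) ^ (K - k) * (ell N k / 16) < ‖W x ω‖}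
            with hLs
          have hsub : {ω | ∀ k ∈ A, InE N k (path W ω)} ⊆
              (⋃ i ∈ Finset.range (K - k), G i ∩ D i) ∪ Ls := by
            intro ω hω
            by_contra hcon
            rw [Set.mem_union, not_or] at hcon
            have hG' : ∀ i, ω ∈ G i := fun i k' hk' => hω k' (Finset.mem_filter.1 hk').1
            have hD' : ∀ i < K - k, ω ∉ D i := by
              intro i hi hDi
              apply hcon.1
              rw [Set.mem_iUnion₂]
              exact ⟨i, Finset.mem_range.2 hi, hG' i, hDi⟩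
            have hdet := IN_det (path W ω) N k K hkK (ell N k / 16) (by
              have := ell_pos hN k
              positivity) hcon.2 (by
                intro i hi hex
                apply hD' i hi
                obtain ⟨x, hx1, hx2⟩ := hex
                refine ⟨x, hx1, ?_⟩
                have h7 : k + i - k + 1 = i + 1 := by omega
                rw [h7]
                exact hx2) (K - k) le_rfl
            obtain ⟨x, hx1, hx2⟩ := hω k hkA
            have h8 := hdet x (by
              have h9 : k + (K - k - (K - k)) = k := by omega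
              rw [h9]
              exact hx1)
            rw [Nat.sub_self, pow_zero, one_mul] at h8
            exact absurd hx2 (not_lt.2 h8)
          have hterm : ∀ i ∈ Finset.range (K - k), P (G i ∩ D i) ≤
              ENNReal.ofReal (C0 * x ^ (i + 1) * q ^ (n - (i + 1))) := by
            intro i hi
            rw [Finset.mem_range] at hi
            have hGm : MeasurableSet[past W (s N (k + i + 1))] (G i) := by
              have hGeq : G i = ⋂ k' ∈ A.filter (fun a => k + i < a), {ω | InE N k' (fun t => W t ω)} := by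
                ext ω
                rw [Set.mem_iInter₂]
                rfl
              rw [hGeq]
              refine @Finset.measurableSet_biInter _ _ (past W (s N (k + i + 1))) _ _ fun k' hk' => ?_
              have hk2 := (Finset.mem_filter.1 hk').2
              refine InE_meas (past W (s N (k + i + 1))) N k' W (fun t ht => ?_) hW.cont
              exact past_meas W (le_trans ht (s_anti hN (by omega)))
            have hDm : MeasurableSet[fut W (s N (k + i + 1))] (D i) := by
              refine meas_exists (fut W (s N (k + i + 1))) (fun t ω => W t ω - W (s N (k + i + 1)) ω)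
                (Set.Icc (s N (k + i + 1)) (s N (k + i))) (fun t ht => ?_) (fun ω => ?_)
                {v | (1 / 2 : ℝ) ^ (k + i - k + 1) * (ell N k / 16) < ‖v‖}
                (isOpen_lt continuous_const continuous_norm)
              · exact fut_meas W ht.1 le_rfl
              · exact (hW.cont ω).sub continuous_const
            rw [indep_inter P (indep_past_fut hW (s N (k + i + 1))) hGm hDm]
            have h1 : P (G i) ≤ ENNReal.ofReal (q ^ (n - (i + 1))) := by
              have hlt : (A.filter (fun a => k + i < a)).card < n := by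
                rw [← hA]
                apply Finset.card_lt_card
                rw [Finset.ssubset_iff_of_subset (Finset.filter_subset _ _)]
                refine ⟨k, hkA, fun h => ?_⟩
                have := (Finset.mem_filter.1 h).2
                omega
              have hge : n - (i + 1) ≤ (A.filter (fun a => k + i < a)).card := by
                have h2 := Finset.card_filter_add_card_filter_not (s := A) (fun a => k + i < a)
                have h3 : (A.filter (fun a => ¬ k + i < a)).card ≤ i + 1 := by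
                  have hsub2 : A.filter (fun a => ¬ k + i < a) ⊆ Finset.Icc k (k + i) := by
                    intro a ha
                    rw [Finset.mem_filter] at ha
                    rw [Finset.mem_Icc]
                    exact ⟨A.min'_le a ha.1, not_lt.1 ha.2⟩
                  have := Finset.card_le_card hsub2
                  rw [Nat.card_Icc] at this
                  omega
                omega
              refine (ih _ hlt _ rfl).trans (ENNReal.ofReal_le_ofReal ?_)
              exact pow_le_pow_of_le_one hq0.le hq1 hge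
            have h2 : P (D i) ≤ ENNReal.ofReal (C0 * x ^ (i + 1)) := by
              refine (hwin P W hW N k (k + i) hN (by omega)).trans (ENNReal.ofReal_le_ofReal ?_)
              have h7 : k + i - k + 1 = i + 1 := by omega
              rw [h7]
              exact mul_le_mul_of_nonneg_right (le_max_left _ _) (by positivity)
            calc P (G i) * P (D i) ≤ ENNReal.ofReal (q ^ (n - (i + 1))) * ENNReal.ofReal (C0 * x ^ (i + 1)) :=
                  mul_le_mul' h1 h2
              _ = ENNReal.ofReal (C0 * x ^ (i + 1) * q ^ (n - (i + 1))) := by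
                  rw [← ENNReal.ofReal_mul (by positivity), mul_comm]
          have hlastb : P Ls ≤ ENNReal.ofReal (C0 * x ^ (K - k + 1) * q ^ (n - (K - k + 1))) := by
            have h7 : n - (K - k + 1) = 0 := by omega
            rw [h7, pow_zero, mul_one]
            refine (hlast P W hW N k K hN hkK).trans (ENNReal.ofReal_le_ofReal ?_)
            exact mul_le_mul_of_nonneg_right (le_max_right _ _) (by positivity)
          have hsumb := sum_bound2 C0 x hC01 hx0 hq1 n (K - k + 1)
          calc P {ω | ∀ k ∈ A, InE N k (path W ω)} ≤ P ((⋃ i ∈ Finset.range (K - k), G i ∩ D i) ∪ Ls) :=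
                measure_mono hsub
            _ ≤ P (⋃ i ∈ Finset.range (K - k), G i ∩ D i) + P Ls := measure_union_le _ _
            _ ≤ ∑ i ∈ Finset.range (K - k), P (G i ∩ D i) + P Ls :=
                add_le_add (measure_biUnion_finset_le _ _) le_rfl
            _ ≤ ∑ i ∈ Finset.range (K - k), ENNReal.ofReal (C0 * x ^ (i + 1) * q ^ (n - (i + 1))) +
                  ENNReal.ofReal (C0 * x ^ (K - k + 1) * q ^ (n - (K - k + 1))) :=
                add_le_add (Finset.sum_le_sum hterm) hlastb
            _ = ∑ i ∈ Finset.range (K - k + 1), ENNReal.ofReal (C0 * x ^ (i + 1) * q ^ (n - (i + 1))) := by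
                rw [Finset.sum_range_succ]
            _ = ENNReal.ofReal (∑ i ∈ Finset.range (K - k + 1), C0 * x ^ (i + 1) * q ^ (n - (i + 1))) := by
                rw [ENNReal.ofReal_sum_of_nonneg fun i _ => by positivity]
            _ ≤ ENNReal.ofReal (q ^ n) := ENNReal.ofReal_le_ofReal hsumb
    exact key A.card A rfl

end Pool.Agent.Lib.MP_098ea1_pr.BR
end

section

/-!
# TASK BR RV: time reversal

`X x = W (c - x) - W c` for `x ≤ c`, `X x = W x - 2 W c` for `x > c`. Continuous: the two formulas agree at `x = c` (both are `- W c`, as `W 0 = 0`);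
`Continuous.if_le` (the map `x ↦ c - x` of `ℝ≥0` is continuous: `continuous_const.sub continuous_id` or `continuity`/`fun_prop`). Measurable: cases.
Gaussian: every value is a linear combination of two values of `W` (see `IsPreBrownianReal.indepFun_shift` in
`Mathlib/Probability/BrownianMotion/Basic.lean` for the use of `IsGaussianProcess.of_isGaussianProcess`).
Covariance, for `i = j`, `m = min`: `x, t ≤ c`: `m(c-x, c-t) - (c-x) - (c-t) + c = m x t` (if `x ≤ t` then `m(c-x,c-t) = c - t`).
`x ≤ c < t`: `cov(W(c-x) - W c, W t - 2 W c) = (c-x) - 2(c-x) - c + 2c = x`. `c < x ≤ t`: `x - 2c - 2c + 4c = x`. For `i ≠ j` all covariances are 0.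
-/

set_option autoImplicit false

open MeasureTheory ProbabilityTheory Set Filter Topology
open scoped NNReal ENNReal

namespace Pool.Agent.Lib.MP_098ea1_pr.BR

universe u

variable {Ω : Type u} [MeasurableSpace Ω] {P : Measure Ω} [IsProbabilityMeasure P] {W : ℝ≥0 → Ω → V}

theorem bwd_continuous (w : ℝ≥0 → V) (hw : Continuous w) (h0 : w 0 = 0) (c : ℝ≥0) : Continuous (bwd w c) := by
  unfold bwd
  refine Continuous.if_le ?_ ?_ continuous_id continuous_const ?_
  · exact (hw.comp (continuous_const.sub continuous_id)).sub continuous_const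
  · exact hw.sub continuous_const
  · intro x hx
    have hx' : x = c := hx
    rw [hx', tsub_self, h0, zero_sub, two_smul]
    abel

private noncomputable def RV_G (c x : ℝ≥0) : ℝ≥0 := if x ≤ c then c - x else x

private noncomputable def RV_k (c x : ℝ≥0) : ℝ := if x ≤ c then 1 else 2

private theorem RV_eq {Ω : Type u} {W : ℝ≥0 → Ω → V} (c x : ℝ≥0) (ω : Ω) (i : Fin 3) :
    bwd (path W ω) c x i = W (RV_G c x) ω i - RV_k c x * W c ω i := by
  unfold bwd RV_G RV_k
  by_cases h : x ≤ c
  · rw [if_pos h, if_pos h, if_pos h, one_mul]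
    rfl
  · rw [if_neg h, if_neg h, if_neg h]
    rfl

private theorem RV_min (c x t : ℝ≥0) :
    ((min (RV_G c x) (RV_G c t) : ℝ≥0) : ℝ) - RV_k c t * ((min (RV_G c x) c : ℝ≥0) : ℝ) -
      (RV_k c x * ((min c (RV_G c t) : ℝ≥0) : ℝ) -
        RV_k c x * (RV_k c t * ((min c c : ℝ≥0) : ℝ))) = ((min x t : ℝ≥0) : ℝ) := by
  have hx0 : (0 : ℝ) ≤ x := x.2
  have ht0 : (0 : ℝ) ≤ t := t.2
  unfold RV_G RV_k
  by_cases h1 : x ≤ c
  · have h1' : (x : ℝ) ≤ c := h1
    rw [if_pos h1, if_pos h1]
    by_cases h2 : t ≤ c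
    · have h2' : (t : ℝ) ≤ c := h2
      rw [if_pos h2, if_pos h2]
      rw [NNReal.coe_min, NNReal.coe_min, NNReal.coe_min, NNReal.coe_min, NNReal.coe_min,
        NNReal.coe_sub h1, NNReal.coe_sub h2, min_self]
      rw [min_eq_left (show (c : ℝ) - x ≤ c by linarith), min_eq_right (show (c : ℝ) - t ≤ c by linarith)]
      rcases le_total (x : ℝ) t with h | h
      · rw [min_eq_left h, min_eq_right (by linarith)]
        ring
      · rw [min_eq_right h, min_eq_left (by linarith)]
        ring
    · have h2' : (c : ℝ) < t := not_le.1 h2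
      rw [if_neg h2, if_neg h2]
      rw [NNReal.coe_min, NNReal.coe_min, NNReal.coe_min, NNReal.coe_min, NNReal.coe_min,
        NNReal.coe_sub h1, min_self]
      rw [min_eq_left (show (c : ℝ) - x ≤ c by linarith), min_eq_left (show (c : ℝ) - x ≤ t by linarith),
        min_eq_left (show (c : ℝ) ≤ t by linarith), min_eq_left (show (x : ℝ) ≤ t by linarith)]
      ring
  · have h1' : (c : ℝ) < x := not_le.1 h1
    rw [if_neg h1, if_neg h1]
    by_cases h2 : t ≤ c
    · have h2' : (t : ℝ) ≤ c := h2
      rw [if_pos h2, if_pos h2]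
      rw [NNReal.coe_min, NNReal.coe_min, NNReal.coe_min, NNReal.coe_min, NNReal.coe_min,
        NNReal.coe_sub h2, min_self]
      rw [min_eq_right (show (c : ℝ) - t ≤ x by linarith), min_eq_right (show (c : ℝ) ≤ x by linarith),
        min_eq_right (show (c : ℝ) - t ≤ c by linarith), min_eq_right (show (t : ℝ) ≤ x by linarith)]
      ring
    · have h2' : (c : ℝ) < t := not_le.1 h2
      rw [if_neg h2, if_neg h2]
      rw [NNReal.coe_min, NNReal.coe_min, NNReal.coe_min, NNReal.coe_min, min_self]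
      rw [min_eq_right (show (c : ℝ) ≤ x by linarith), min_eq_left (show (c : ℝ) ≤ t by linarith)]
      ring

theorem BM_reverse (hW : BM W P) (c : ℝ≥0) : BM (fun x ω => bwd (path W ω) c x) P := by
  have hG : ∀ i x, HasGaussianLaw (fun ω => W x ω i) P := fun i x =>
    hW.gauss.hasGaussianLaw_eval (i, x)
  have hL2 : ∀ i x, MemLp (fun ω => W x ω i) 2 P := fun i x => (hG i x).memLp_two
  have hint : ∀ i x, Integrable (fun ω => W x ω i) P := fun i x => (hG i x).integrable
  refine ⟨?_, ?_, ?_, ?_, ?_, ?_⟩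
  · intro t
    by_cases h : t ≤ c
    · have e : (fun ω => bwd (path W ω) c t) = fun ω => W (c - t) ω - W c ω := by
        funext ω
        unfold bwd
        rw [if_pos h]
        rfl
      change Measurable (fun ω => bwd (path W ω) c t)
      rw [e]
      exact (hW.meas _).sub (hW.meas _)
    · have e : (fun ω => bwd (path W ω) c t) = fun ω => W t ω - (2 : ℝ) • W c ω := by
        funext ω
        unfold bwd
        rw [if_neg h]
        rfl
      change Measurable (fun ω => bwd (path W ω) c t)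
      rw [e]
      exact (hW.meas _).sub ((hW.meas _).const_smul (2 : ℝ))
  · intro ω
    exact bwd_continuous (path W ω) (hW.cont ω) (hW.zero ω) c
  · intro ω
    unfold bwd
    rw [if_pos (show (0 : ℝ≥0) ≤ c from zero_le), tsub_zero, sub_self]
  · refine hW.gauss.of_isGaussianProcess ?_
    rintro ⟨i, x⟩
    exact ⟨{(i, RV_G c x), (i, c)},
      { toFun y := y ⟨(i, RV_G c x), by simp⟩ - RV_k c x * y ⟨(i, c), by simp⟩
        map_add' y z := by simp; ring
        map_smul' a y := by simp; ring }, fun ω => RV_eq (W := W) c x ω i⟩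
  · intro i t
    have e : (fun ω => bwd (path W ω) c t i) =
        fun ω => W (RV_G c t) ω i - RV_k c t * W c ω i := funext fun ω => RV_eq c t ω i
    change ∫ ω, bwd (path W ω) c t i ∂P = 0
    rw [e, integral_sub (hint i _) ((hint i _).const_mul _), integral_const_mul, hW.mean, hW.mean,
      mul_zero, sub_zero]
  · intro i j x t
    have e1 : (fun ω => bwd (path W ω) c x i) =
        fun ω => W (RV_G c x) ω i - RV_k c x * W c ω i := funext fun ω => RV_eq c x ω i
    have e2 : (fun ω => bwd (path W ω) c t j) =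
        fun ω => W (RV_G c t) ω j - RV_k c t * W c ω j := funext fun ω => RV_eq c t ω j
    change cov[fun ω => bwd (path W ω) c x i, fun ω => bwd (path W ω) c t j; P] = _
    have hM : MemLp (fun ω => W (RV_G c t) ω j - RV_k c t * W c ω j) 2 P :=
      (hL2 j _).sub ((hL2 j _).const_mul _)
    rw [e1, e2, covariance_fun_sub_left (hL2 i _) ((hL2 i _).const_mul _) hM,
      covariance_fun_sub_right (hL2 i _) (hL2 j _) ((hL2 j _).const_mul _),
      covariance_fun_sub_right ((hL2 i _).const_mul _) (hL2 j _) ((hL2 j _).const_mul _),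
      covariance_const_mul_left, covariance_const_mul_left, covariance_const_mul_right,
      covariance_const_mul_right, hW.cov, hW.cov, hW.cov, hW.cov]
    by_cases hij : i = j
    · rw [if_pos hij, if_pos hij, if_pos hij, if_pos hij, if_pos hij]
      exact RV_min c x t
    · rw [if_neg hij, if_neg hij, if_neg hij, if_neg hij, if_neg hij]
      ring

end Pool.Agent.Lib.MP_098ea1_pr.BR
end

section

/-!
# TASK BR HB: hitting a ball after the time `a`

Let `C` be the constant of `hit_short`; claim with `3 C`. If `r² > a` the right side is at least 1 (`r/√a > 1`). Otherwise `[a, ∞)` is the union of the intervals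
`[a + m r², a + (m+1) r²]`, `m ∈ ℕ`; `hit_short` for each (with `a + m r²` in place of `a`), `measure_iUnion_le`, and `series_bound`.
-/

set_option autoImplicit false

open MeasureTheory ProbabilityTheory Set Filter Topology
open scoped NNReal ENNReal

namespace Pool.Agent.Lib.MP_098ea1_pr.BR

universe u

theorem hit_bound : ∃ C : ℝ, 1 ≤ C ∧ ∀ {Ω : Type u} [MeasurableSpace Ω] (P : Measure Ω) [IsProbabilityMeasure P]
    (W : ℝ≥0 → Ω → V), BM W P → ∀ (z : V) (a : ℝ≥0) (r : ℝ), 0 < a → 0 < r →
    P {ω | ∃ x ∈ Set.Ici a, ‖z + W x ω‖ < r} ≤ ENNReal.ofReal (C * (r / Real.sqrt a)) := by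
  obtain ⟨C, hC1, hC⟩ := hit_short.{u}
  refine ⟨3 * C, by linarith, ?_⟩
  intro Ω _ P _ W hW z a r ha hr
  have ha' : (0 : ℝ) < a := ha
  have hsa : 0 < Real.sqrt a := Real.sqrt_pos.2 ha'
  by_cases h : (a : ℝ) < r ^ 2
  · have h1 : Real.sqrt a ≤ r := by
      rw [Real.sqrt_le_left hr.le]
      exact h.le
    have h2 : 1 ≤ r / Real.sqrt a := by
      rw [le_div_iff₀ hsa, one_mul]
      exact h1
    have h3 : 1 ≤ 3 * C * (r / Real.sqrt a) := by nlinarith
    calc P {ω | ∃ x ∈ Set.Ici a, ‖z + W x ω‖ < r} ≤ 1 := prob_le_one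
      _ = ENNReal.ofReal 1 := ENNReal.ofReal_one.symm
      _ ≤ ENNReal.ofReal (3 * C * (r / Real.sqrt a)) := ENNReal.ofReal_le_ofReal h3
  · have hra : r ^ 2 ≤ (a : ℝ) := not_lt.1 h
    obtain ⟨r', hr'⟩ : ∃ r' : ℝ≥0, (r' : ℝ) = r := ⟨⟨r, hr.le⟩, rfl⟩
    have hr'0 : 0 < r' := by
      have : (0 : ℝ) < r' := by rw [hr']; exact hr
      exact_mod_cast this
    obtain ⟨E, hE⟩ : ∃ E : ℕ → Set Ω, ∀ m : ℕ, E m = {ω | ∃ x ∈ Set.Icc (a + (m : ℝ≥0) * r' ^ 2)
        (a + (m : ℝ≥0) * r' ^ 2 + r' ^ 2), ‖z + W x ω‖ < r'} := ⟨_, fun _ => rfl⟩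
    have hsub : {ω | ∃ x ∈ Set.Ici a, ‖z + W x ω‖ < r} ⊆ ⋃ m : ℕ, E m := by
      rintro ω ⟨x, hx, hxr⟩
      have hx' : (a : ℝ) ≤ x := hx
      have hr2 : 0 < r ^ 2 := by positivity
      have h1 : 0 ≤ ((x : ℝ) - a) / r ^ 2 := div_nonneg (by linarith) hr2.le
      obtain ⟨m, hm⟩ : ∃ m : ℕ, m = ⌊((x : ℝ) - a) / r ^ 2⌋₊ := ⟨_, rfl⟩
      have h2 : (m : ℝ) ≤ ((x : ℝ) - a) / r ^ 2 := by
        rw [hm]
        exact Nat.floor_le h1
      have h3 : ((x : ℝ) - a) / r ^ 2 < (m : ℝ) + 1 := by
        rw [hm]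
        exact Nat.lt_floor_add_one _
      rw [le_div_iff₀ hr2] at h2
      rw [div_lt_iff₀ hr2] at h3
      refine Set.mem_iUnion.2 ⟨m, ?_⟩
      rw [hE]
      refine ⟨x, ⟨?_, ?_⟩, ?_⟩
      · rw [← NNReal.coe_le_coe]
        push_cast
        rw [hr']
        linarith
      · rw [← NNReal.coe_le_coe]
        push_cast
        rw [hr']
        linarith
      · rw [hr']
        exact hxr
    obtain ⟨hs1, hs2⟩ := series_bound ha' hr hra
    have hEm : ∀ m : ℕ, P (E m) ≤
        ENNReal.ofReal (C * (r / Real.sqrt ((a : ℝ) + m * r ^ 2)) ^ 3) := by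
      intro m
      have h1 := hC P W hW z (a + (m : ℝ≥0) * r' ^ 2) r' (lt_of_lt_of_le ha le_self_add) hr'0
      rw [← hE] at h1
      have h2 : ((a + (m : ℝ≥0) * r' ^ 2 : ℝ≥0) : ℝ) = (a : ℝ) + m * r ^ 2 := by
        push_cast
        rw [hr']
      rw [h2, hr'] at h1
      exact h1
    calc P {ω | ∃ x ∈ Set.Ici a, ‖z + W x ω‖ < r} ≤ P (⋃ m : ℕ, E m) := measure_mono hsub
      _ ≤ ∑' m : ℕ, P (E m) := measure_iUnion_le E
      _ ≤ ∑' m : ℕ, ENNReal.ofReal (C * (r / Real.sqrt ((a : ℝ) + m * r ^ 2)) ^ 3) :=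
          ENNReal.tsum_le_tsum hEm
      _ = ENNReal.ofReal (∑' m : ℕ, C * (r / Real.sqrt ((a : ℝ) + m * r ^ 2)) ^ 3) := by
          refine (ENNReal.ofReal_tsum_of_nonneg (fun m => ?_) (hs1.mul_left C)).symm
          have : 0 ≤ r / Real.sqrt ((a : ℝ) + m * r ^ 2) := div_nonneg hr.le (Real.sqrt_nonneg _)
          have hC0 : 0 ≤ C := by linarith
          positivity
      _ ≤ ENNReal.ofReal (3 * C * (r / Real.sqrt a)) := by
          refine ENNReal.ofReal_le_ofReal ?_
          rw [tsum_mul_left]
          have := mul_le_mul_of_nonneg_left hs2 (by linarith : 0 ≤ C)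
          linarith

end Pool.Agent.Lib.MP_098ea1_pr.BR
end

section

/-!
# TASK BR WK: the windows are independent (events)

For `e N k ≤ c` the event `{UnsE N k i (fwd (path W ω) c) ∨ UnsE N k i (bwd (path W ω) c)}` is measurable for the σ-algebra generated by `ω ↦ (q ↦ Xw W N c k q ω)`: use `UnsE_meas` for this σ-algebra and
the processes `x ↦ fwd (path W ω) c x`, `x ↦ bwd (path W ω) c x` (continuous paths: `W` is continuous; `bwd_continuous` is in RV, you may import RV): for `x` in the window
`fwd .. x - fwd .. (s N k) = W (c+x) - W (c + s N k)` and `bwd .. x - bwd .. (s N k) = W (c-x) - W (c - s N k)` (`x ≤ e N k ≤ c`), whose coordinates are values of `Xw`. Then `window_indep` and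
`iIndepFun.meas_biInter` (or `iIndep.meas_biInter`) for the finite set of the `k ∈ A` (as elements of the subtype).
-/

set_option autoImplicit false

open MeasureTheory ProbabilityTheory Set Filter Topology
open scoped NNReal ENNReal

namespace Pool.Agent.Lib.MP_098ea1_pr.BR

universe u

variable {Ω : Type u} [MeasurableSpace Ω] {P : Measure Ω} [IsProbabilityMeasure P] {W : ℝ≥0 → Ω → V}

/-- The values of the increments in the window of scale `k` are measurable for the σ-algebra which they generate. -/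
theorem WK_meas_fwd (W : ℝ≥0 → Ω → V) (N : ℕ) (c : ℝ≥0) (k : ℕ) {x : ℝ≥0} (hx : x ∈ Set.Icc (s N k) (e N k)) :
    Measurable[MeasurableSpace.comap (fun ω q => Xw W N c k q ω) inferInstance]
      (fun ω => fwd (path W ω) c x - fwd (path W ω) c (s N k)) := by
  have h0 : Measurable[MeasurableSpace.comap (fun ω q => Xw W N c k q ω) inferInstance]
      (fun ω q => Xw W N c k q ω) := comap_measurable _
  refine @measurable_pi_lambda _ _ _ (MeasurableSpace.comap (fun ω q => Xw W N c k q ω) inferInstance) _ _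
    (fun j => ?_)
  have h1 := (measurable_pi_apply ((true, j, ⟨x, hx⟩) : Bool × Fin 3 × Set.Icc (s N k) (e N k))).comp h0
  have h2 : (fun ω => (fwd (path W ω) c x - fwd (path W ω) c (s N k)) j) =
      (fun b : Bool × Fin 3 × Set.Icc (s N k) (e N k) → ℝ => b (true, j, ⟨x, hx⟩)) ∘
        (fun ω q => Xw W N c k q ω) := by
    funext ω
    simp only [Function.comp, Xw, fwd, path, Pi.sub_apply, if_true]
    ring
  rw [h2]
  exact h1

theorem WK_meas_bwd (W : ℝ≥0 → Ω → V) (N : ℕ) (c : ℝ≥0) (k : ℕ) (hk : e N k ≤ c) {x : ℝ≥0}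
    (hx : x ∈ Set.Icc (s N k) (e N k)) :
    Measurable[MeasurableSpace.comap (fun ω q => Xw W N c k q ω) inferInstance]
      (fun ω => bwd (path W ω) c x - bwd (path W ω) c (s N k)) := by
  have h0 : Measurable[MeasurableSpace.comap (fun ω q => Xw W N c k q ω) inferInstance]
      (fun ω q => Xw W N c k q ω) := comap_measurable _
  refine @measurable_pi_lambda _ _ _ (MeasurableSpace.comap (fun ω q => Xw W N c k q ω) inferInstance) _ _
    (fun j => ?_)
  have h1 := (measurable_pi_apply ((false, j, ⟨x, hx⟩) : Bool × Fin 3 × Set.Icc (s N k) (e N k))).comp h0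
  have hxc : x ≤ c := hx.2.trans hk
  have hsc : s N k ≤ c := (hx.1.trans hx.2).trans hk
  have h2 : (fun ω => (bwd (path W ω) c x - bwd (path W ω) c (s N k)) j) =
      (fun b : Bool × Fin 3 × Set.Icc (s N k) (e N k) → ℝ => b (false, j, ⟨x, hx⟩)) ∘
        (fun ω q => Xw W N c k q ω) := by
    funext ω
    simp only [Function.comp, Xw, bwd, path, if_pos hxc, if_pos hsc, Pi.sub_apply, Bool.false_eq_true, if_false]
    ring
  rw [h2]
  exact h1

theorem WK_event (hW : BM W P) (N : ℕ) (i : Fin 3) (c : ℝ≥0) (k : ℕ) (hk : e N k ≤ c) :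
    MeasurableSet[MeasurableSpace.comap (fun ω q => Xw W N c k q ω) inferInstance]
      {ω | UnsE N k i (fwd (path W ω) c) ∨ UnsE N k i (bwd (path W ω) c)} := by
  have h1 := UnsE_meas (MeasurableSpace.comap (fun ω q => Xw W N c k q ω) inferInstance) N k i
    (fun x ω => fwd (path W ω) c x) (fun x hx => WK_meas_fwd W N c k hx)
    (fun ω => ((hW.cont ω).comp (continuous_const.add continuous_id)).sub continuous_const)
  have h2 := UnsE_meas (MeasurableSpace.comap (fun ω q => Xw W N c k q ω) inferInstance) N k i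
    (fun x ω => bwd (path W ω) c x) (fun x hx => WK_meas_bwd W N c k hk hx)
    (fun ω => bwd_continuous (path W ω) (hW.cont ω) (hW.zero ω) c)
  exact h1.union h2

theorem loc_prod (hW : BM W P) {N : ℕ} (hN : 2 ≤ N) (i : Fin 3) (c : ℝ≥0) (A : Finset ℕ) (hA : ∀ k ∈ A, e N k ≤ c) :
    P {ω | ∀ k ∈ A, UnsE N k i (fwd (path W ω) c) ∨ UnsE N k i (bwd (path W ω) c)} =
      ∏ k ∈ A, P {ω | UnsE N k i (fwd (path W ω) c) ∨ UnsE N k i (bwd (path W ω) c)} := by
  classical
  have key := (window_indep hW hN c).meas_biInter (S := A.attach.image (fun k => (⟨k.1, hA k.1 k.2⟩ : {k : ℕ // e N k ≤ c})))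
    (s := fun k => {ω | UnsE N k.1 i (fwd (path W ω) c) ∨ UnsE N k.1 i (bwd (path W ω) c)})
    (fun k _ => WK_event hW N i c k.1 k.2)
  have h1 : (⋂ k ∈ A.attach.image (fun k => (⟨k.1, hA k.1 k.2⟩ : {k : ℕ // e N k ≤ c})),
      {ω | UnsE N k.1 i (fwd (path W ω) c) ∨ UnsE N k.1 i (bwd (path W ω) c)}) =
      {ω | ∀ k ∈ A, UnsE N k i (fwd (path W ω) c) ∨ UnsE N k i (bwd (path W ω) c)} := by
    ext ω
    simp only [Set.mem_iInter, Finset.mem_image, Finset.mem_attach, true_and, Subtype.exists, Set.mem_ofPred_eq]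
    constructor
    · intro h k hk
      exact h ⟨k, hA k hk⟩ ⟨k, hk, rfl⟩
    · rintro h k ⟨a, ha, rfl⟩
      exact h a ha
  rw [h1] at key
  rw [key, Finset.prod_image]
  · exact Finset.prod_attach A
      (fun k => P {ω | UnsE N k i (fwd (path W ω) c) ∨ UnsE N k i (bwd (path W ω) c)})
  · intro a _ b _ hab
    exact Subtype.ext (congrArg (fun z : {k : ℕ // e N k ≤ c} => z.1) hab)

end Pool.Agent.Lib.MP_098ea1_pr.BR
end

section

/-!
# TASK BR CV: the cells

`Y` = all `y` with `y i = a` and `y j = m_j ell N n`, `m_j ∈ ℤ`, `|m_j| ≤ A N^(6n) + 1` for `j ≠ i` (image of `Fintype.piFinset (fun j => if j = i then {0} else Finset.Icc (-K) K)` under `m ↦ (j ↦ if j = i then a else m j * ell N n)`); at most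
`(2 (A N^(6n) + 1) + 1)² ≤ (2A+3)² N^(12n) = (2A+3)² ((ell N n)²)⁻¹` points. For `x ∈ BadT ..`: `y i = a`, `y j = ⌊x j / ell N n⌋ ell N n` (`|x j| ≤ A`, `1/ell N n = N^(6n)`): `‖x - y‖ ≤ ell N n` (`x i = a`). `EvE`: the path is at `x` at a time of `[2τ, T]`, so `‖w t - y‖ ≤ ell N n`. Let
`k1 ≤ k < n` and `c j = ⌊y j / ell N k⌋ ell N k` for `j ≠ i` and `c i = 0` (then `grid N k c`); `|y j - c j| ≤ ell N k`, `|x j - c j| ≤ ell N n + ell N k < 2 ell N k`, `|x i - a| = 0`: `x ∈ Obox N k i a c`. So for some `t ≥ τ` `p = w t ∈ Cap N k i a c`. `p ∈ HS N k i y`: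
`p i ≥ a = y i`; `|p j - y j| ≤ |p j - c j| + |c j - y j| ≤ 3 ell N k`, `|p i - y i| ≤ ell N k`; `‖p - y‖ ≥ ell N k`: `p i = a + ell N k`, or `|p j - c j| = 2 ell N k` for some `j ≠ i`, so `|p j - y j| ≥ ell N k`.
-/

set_option autoImplicit false

open MeasureTheory ProbabilityTheory Set Filter Topology
open scoped NNReal ENNReal

namespace Pool.Agent.Lib.MP_098ea1_pr.BR

universe u

private theorem CV_ell_pos {N : ℕ} (hN : 2 ≤ N) (k : ℕ) : 0 < ell N k := by
  have h : (0 : ℝ) < (N : ℝ) := by
    have : 0 < N := by omega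
    exact_mod_cast this
  unfold ell
  positivity

private theorem CV_ell_anti {N : ℕ} (hN : 2 ≤ N) {k n : ℕ} (hkn : k ≤ n) : ell N n ≤ ell N k := by
  have h : (1 : ℝ) ≤ (N : ℝ) := by
    have : 1 ≤ N := by omega
    exact_mod_cast this
  have h0 : (0 : ℝ) < (N : ℝ) := by linarith
  unfold ell
  exact inv_anti₀ (by positivity) (pow_le_pow_right₀ h (by omega))

private theorem CV_floor {x l : ℝ} (hl : 0 < l) :
    0 ≤ x - (⌊x / l⌋ : ℝ) * l ∧ x - (⌊x / l⌋ : ℝ) * l < l := by
  have h1 : (⌊x / l⌋ : ℝ) * l ≤ x := by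
    have := Int.floor_le (x / l)
    rwa [le_div_iff₀ hl] at this
  have h2 : x < ((⌊x / l⌋ : ℝ) + 1) * l := by
    have := Int.lt_floor_add_one (x / l)
    rwa [div_lt_iff₀ hl] at this
  constructor <;> linarith

private theorem CV_card (i : Fin 3) (K : ℤ) :
    (Fintype.piFinset (fun j : Fin 3 => if j = i then ({0} : Finset ℤ) else Finset.Icc (-K) K)).card =
      (2 * K + 1).toNat ^ 2 := by
  rw [Fintype.card_piFinset, Fin.prod_univ_three]
  have h : (Finset.Icc (-K) K).card = (2 * K + 1).toNat := by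
    rw [Int.card_Icc]
    congr 1
    ring
  fin_cases i
  · simp [h, pow_two]
  · simp [h, pow_two]
  · simp [h, pow_two]

theorem cells_exist {N : ℕ} (hN : 2 ≤ N) (n k1 : ℕ) (i : Fin 3) (a : ℝ) (τ T : ℝ≥0) (A : ℕ) :
    ∃ Y : Finset V, (Y.card : ℝ) ≤ (2 * A + 3) ^ 2 * ((ell N n) ^ 2)⁻¹ ∧
      ∀ (w : ℝ≥0 → V), ∀ x ∈ BadT N k1 i a τ T A w,
        ∃ y ∈ Y, EvE N n k1 i τ (Set.Icc (2 * τ) T) y w ∧ ‖x - y‖ ≤ ell N n := by
  classical
  set L : ℕ := N ^ (6 * n) with hL
  have hL1 : 1 ≤ L := Nat.one_le_pow _ _ (by omega)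
  have hLR : (1 : ℝ) ≤ (L : ℝ) := by exact_mod_cast hL1
  have hell : ell N n = ((L : ℝ))⁻¹ := by
    unfold ell
    rw [hL]
    push_cast
    rfl
  have hlpos := CV_ell_pos hN n
  set K : ℤ := (A : ℤ) * L + 1 with hK
  have hK0 : 0 ≤ K := by positivity
  refine ⟨(Fintype.piFinset (fun j : Fin 3 => if j = i then ({0} : Finset ℤ) else
    Finset.Icc (-K) K)).image (fun m j => if j = i then a else (m j : ℝ) * ell N n), ?_, ?_⟩
  · have h1 : ((((Fintype.piFinset (fun j : Fin 3 => if j = i then ({0} : Finset ℤ) else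
        Finset.Icc (-K) K)).image (fun m j => if j = i then a else (m j : ℝ) * ell N n)).card : ℕ) : ℝ) ≤
        (((2 * K + 1).toNat ^ 2 : ℕ) : ℝ) := by
      rw [← CV_card i K]
      exact_mod_cast Finset.card_image_le
    refine h1.trans ?_
    have h2 : (((2 * K + 1).toNat : ℕ) : ℝ) = 2 * ((A : ℝ) * L + 1) + 1 := by
      have h3 : (((2 * K + 1).toNat : ℕ) : ℤ) = 2 * K + 1 := Int.toNat_of_nonneg (by linarith)
      have h4 : (((2 * K + 1).toNat : ℕ) : ℝ) = ((2 * K + 1 : ℤ) : ℝ) := by
        rw [← Int.cast_natCast, h3]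
      rw [h4, hK]
      push_cast
      ring
    rw [Nat.cast_pow, h2, hell, inv_pow, inv_inv, ← mul_pow]
    have hA : (0 : ℝ) ≤ (A : ℝ) := Nat.cast_nonneg A
    apply pow_le_pow_left₀ (by positivity)
    nlinarith
  · intro w x hx
    obtain ⟨⟨t0, ht0, hwt0⟩, hxi, hxA, hbad⟩ := hx
    set y : V := fun j => if j = i then a else (⌊x j / ell N n⌋ : ℝ) * ell N n with hy
    have hyi : y i = a := by simp [hy]
    have hyj : ∀ j, j ≠ i → 0 ≤ x j - y j ∧ x j - y j < ell N n := by
      intro j hj
      have h1 : y j = (⌊x j / ell N n⌋ : ℝ) * ell N n := by simp [hy, hj]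
      rw [h1]
      exact CV_floor hlpos
    have hxy : ‖x - y‖ ≤ ell N n := by
      rw [pi_norm_le_iff_of_nonneg hlpos.le]
      intro j
      rw [Pi.sub_apply, Real.norm_eq_abs]
      by_cases hj : j = i
      · rw [hj, hxi, hyi, sub_self, abs_zero]
        exact hlpos.le
      · obtain ⟨h1, h2⟩ := hyj j hj
        rw [abs_of_nonneg h1]
        exact h2.le
    refine ⟨y, ?_, ⟨⟨t0, ht0, by rw [hwt0]; exact hxy⟩, ?_⟩, hxy⟩
    · rw [Finset.mem_image]
      refine ⟨fun j => if j = i then 0 else ⌊x j / ell N n⌋, ?_, ?_⟩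
      · rw [Fintype.mem_piFinset]
        intro j
        by_cases hj : j = i
        · simp [hj]
        · simp only [hj, if_false, Finset.mem_Icc]
          have h1 : |x j| ≤ A := by
            rw [← Real.norm_eq_abs]
            exact (norm_le_pi_norm x j).trans hxA
          obtain ⟨h2, h3⟩ := abs_le.1 h1
          have h4 : x j / ell N n = x j * L := by
            rw [hell, div_inv_eq_mul]
          rw [h4]
          constructor
          · apply Int.le_floor.2
            rw [hK]
            push_cast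
            nlinarith
          · have h5 : ⌊x j * (L : ℝ)⌋ ≤ (A : ℤ) * L := by
              apply Int.floor_le_iff.2
              push_cast
              nlinarith
            rw [hK]
            linarith
      · funext j
        by_cases hj : j = i
        · simp [hy, hj]
        · simp [hy, hj]
    · intro k hk1 hkn
      have hkpos := CV_ell_pos hN k
      have hkl := CV_ell_anti hN hkn.le
      set c : V := fun j => if j = i then 0 else (⌊y j / ell N k⌋ : ℝ) * ell N k with hc
      have hgrid : grid N k c := by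
        intro j
        by_cases hj : j = i
        · exact ⟨0, by simp [hc, hj]⟩
        · exact ⟨⌊y j / ell N k⌋, by simp [hc, hj]⟩
      have hcj : ∀ j, j ≠ i → 0 ≤ y j - c j ∧ y j - c j < ell N k := by
        intro j hj
        have h1 : c j = (⌊y j / ell N k⌋ : ℝ) * ell N k := by simp [hc, hj]
        rw [h1]
        exact CV_floor hkpos
      have hbox : x ∈ Obox N k i a c := by
        refine ⟨?_, fun j hj => ?_⟩
        · rw [hxi, sub_self, abs_zero]; exact hkpos
        · obtain ⟨h1, h2⟩ := hyj j hj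
          obtain ⟨h3, h4⟩ := hcj j hj
          rw [abs_lt]
          constructor <;> linarith
      obtain ⟨t, ht, hcap⟩ := hbad k hk1 c hgrid hbox
      refine ⟨t, ht, ?_⟩
      obtain ⟨hp1, hp2, hp3, hp4⟩ := hcap
      refine ⟨by rw [hyi]; exact hp1, ?_, ?_⟩
      · rcases hp4 with h | ⟨j, hj, h⟩
        · have h1 := norm_le_pi_norm (w t - y) i
          rw [Pi.sub_apply, Real.norm_eq_abs, h, hyi, add_sub_cancel_left, abs_of_pos hkpos] at h1
          exact h1
        · have h1 := norm_le_pi_norm (w t - y) j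
          rw [Pi.sub_apply, Real.norm_eq_abs] at h1
          refine le_trans ?_ h1
          obtain ⟨h3, h4⟩ := hcj j hj
          have h5 : |w t j - c j| ≤ |w t j - y j| + |y j - c j| := by
            have := abs_add_le (w t j - y j) (y j - c j)
            rwa [sub_add_sub_cancel] at this
          rw [h, abs_of_nonneg h3] at h5
          linarith
      · rw [pi_norm_le_iff_of_nonneg (by linarith)]
        intro j
        rw [Pi.sub_apply, Real.norm_eq_abs]
        by_cases hj : j = i
        · rw [hj, hyi, abs_le]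
          constructor <;> linarith
        · obtain ⟨h3, h4⟩ := hcj j hj
          have h5 := abs_le.1 (hp3 j hj)
          rw [abs_le]
          constructor <;> linarith [h5.1, h5.2]

end Pool.Agent.Lib.MP_098ea1_pr.BR
end

section

/-!
# TASK BR MD: density at a centre

`FailE_fut`: all six events depend on differences of values of `W` at times `≥ τ`: `fwd .. x = W (c+x) - W c`; `bwd .. x = W (c-x) - W c` for `x ≤ c - τ` (`x ≤ s N k` or `x ≤ e N k` or `x ∈ Iic (c - τ)`); `InE_meas`, `OutE_meas`, `UnsE_meas` for the σ-algebra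
`fut W τ` and the processes `x ↦ fwd (path W ω) c x`, `x ↦ bwd (path W ω) c x` (continuous: `bwd_continuous`), `fut_meas`.
`centre_density`: `W c ω - y = (W c ω - W τ ω - y) + W τ ω`. Let `B = {(ω', ω) | ‖(W c ω - W τ ω - y) + W τ ω'‖ < r}`, measurable for `(past W τ).prod (fut W τ)`; the sections `{ω' | ..}` for fixed `ω` have probability at most `(r/√τ)³` (`density_bound` with
`z = W c ω - W τ ω - y`). `markov_le'` with `m1 = past W τ`, `m2 = fut W τ`, `A = G`.
-/

set_option autoImplicit false

open MeasureTheory ProbabilityTheory Set Filter Topology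
open scoped NNReal ENNReal

namespace Pool.Agent.Lib.MP_098ea1_pr.BR

universe u

variable {Ω : Type u} [MeasurableSpace Ω] {P : Measure Ω} [IsProbabilityMeasure P] {W : ℝ≥0 → Ω → V}

theorem MD_fwd_meas {W : ℝ≥0 → Ω → V} {τ c : ℝ≥0} (hτ : τ ≤ c) (x : ℝ≥0) :
    Measurable[fut W τ] (fun ω => fwd (path W ω) c x) :=
  fut_meas W (hτ.trans le_self_add) hτ

theorem MD_fwd_cont (hW : BM W P) (c : ℝ≥0) (ω : Ω) : Continuous (fun x => fwd (path W ω) c x) := by
  have h1 : Continuous (fun x : ℝ≥0 => W (c + x) ω) :=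
    (hW.cont ω).comp (continuous_const.add continuous_id)
  exact h1.sub continuous_const

theorem MD_bwd_meas {W : ℝ≥0 → Ω → V} {τ c x : ℝ≥0} (hτ : τ ≤ c) (hx : x ≤ c - τ) :
    Measurable[fut W τ] (fun ω => bwd (path W ω) c x) := by
  have hxc : x ≤ c := hx.trans tsub_le_self
  have h1 : τ ≤ c - x := le_tsub_of_add_le_right ((add_comm τ x).le.trans ((add_le_add_left hx τ).trans (tsub_add_cancel_of_le hτ).le))
  have h2 : (fun ω => bwd (path W ω) c x) = fun ω => W (c - x) ω - W c ω := by
    funext ω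
    unfold bwd path
    rw [if_pos hxc]
  rw [h2]
  exact fut_meas W h1 hτ

theorem MD_bwd_cont (hW : BM W P) (c : ℝ≥0) (ω : Ω) : Continuous (fun x => bwd (path W ω) c x) :=
  bwd_continuous (path W ω) (hW.cont ω) (hW.zero ω) c

theorem InE_fut (hW : BM W P) (N k : ℕ) (τ c : ℝ≥0) (hτ : τ ≤ c) :
    MeasurableSet[fut W τ] {ω | InE N k (fwd (path W ω) c)} :=
  InE_meas (fut W τ) N k (fun x ω => fwd (path W ω) c x) (fun x _ => MD_fwd_meas hτ x)
    (fun ω => MD_fwd_cont hW c ω)

theorem FailE_fut (hW : BM W P) {N : ℕ} (hN : 2 ≤ N) (k : ℕ) (i : Fin 3) (τ c : ℝ≥0) (hτ : τ ≤ c)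
    (he : e N k ≤ c - τ) : MeasurableSet[fut W τ] {ω | FailE N k i τ c (path W ω)} := by
  have hs : s N k ≤ c - τ := (s_lt_e hN k).le.trans he
  have m1 := InE_fut hW N k τ c hτ
  have m2 : MeasurableSet[fut W τ] {ω | InE N k (bwd (path W ω) c)} :=
    InE_meas (fut W τ) N k (fun x ω => bwd (path W ω) c x)
      (fun x hx => MD_bwd_meas hτ (le_trans hx hs)) (fun ω => MD_bwd_cont hW c ω)
  have m3 : MeasurableSet[fut W τ] {ω | OutE N k Set.univ (fwd (path W ω) c)} :=
    OutE_meas (fut W τ) N k Set.univ (fun x ω => fwd (path W ω) c x)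
      (fun x _ => MD_fwd_meas hτ x) (fun ω => MD_fwd_cont hW c ω)
  have m4 : MeasurableSet[fut W τ] {ω | OutE N k (Set.Iic (c - τ)) (bwd (path W ω) c)} :=
    OutE_meas (fut W τ) N k (Set.Iic (c - τ)) (fun x ω => bwd (path W ω) c x)
      (fun x hx => MD_bwd_meas hτ hx.2) (fun ω => MD_bwd_cont hW c ω)
  have m5 : MeasurableSet[fut W τ] {ω | UnsE N k i (fwd (path W ω) c)} :=
    UnsE_meas (fut W τ) N k i (fun x ω => fwd (path W ω) c x)
      (fun x _ => (MD_fwd_meas hτ x).sub (MD_fwd_meas hτ (s N k)))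
      (fun ω => MD_fwd_cont hW c ω)
  have m6 : MeasurableSet[fut W τ] {ω | UnsE N k i (bwd (path W ω) c)} :=
    UnsE_meas (fut W τ) N k i (fun x ω => bwd (path W ω) c x)
      (fun x hx => (MD_bwd_meas hτ (le_trans hx.2 he)).sub (MD_bwd_meas hτ hs))
      (fun ω => MD_bwd_cont hW c ω)
  exact m1.union (m2.union (m3.union (m4.union (m5.union m6))))

theorem centre_density (hW : BM W P) {τ c : ℝ≥0} (hτ : 0 < τ) (hc : τ ≤ c) (y : V) {r : ℝ} (hr : 0 < r) {G : Set Ω}
    (hG : MeasurableSet[fut W τ] G) :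
    P (G ∩ {ω | ‖W c ω - y‖ < r}) ≤ P G * ENNReal.ofReal ((r / Real.sqrt τ) ^ 3) := by
  have f1 : Measurable[(past W τ).prod (fut W τ)] (fun q : Ω × Ω => W τ q.1) :=
    (past_meas W (le_refl τ)).comp (@measurable_fst Ω Ω (past W τ) (fut W τ))
  have f2 : Measurable[(past W τ).prod (fut W τ)] (fun q : Ω × Ω => W c q.2 - W τ q.2) :=
    (fut_meas W hc (le_refl τ)).comp (@measurable_snd Ω Ω (past W τ) (fut W τ))
  have f3 : Measurable[(past W τ).prod (fut W τ)]
      (fun q : Ω × Ω => (W c q.2 - W τ q.2 - y) + W τ q.1) :=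
    (f2.sub measurable_const).add f1
  have hB : MeasurableSet[(past W τ).prod (fut W τ)]
      {q : Ω × Ω | ‖(W c q.2 - W τ q.2 - y) + W τ q.1‖ < r} :=
    f3 (isOpen_lt continuous_norm continuous_const).measurableSet
  have h := markov_le' (m1 := past W τ) (m2 := fut W τ) P (past_le W hW.meas τ)
    (fut_le W hW.meas τ) (indep_past_fut hW τ) hB hG
    (ENNReal.ofReal ((r / Real.sqrt τ) ^ 3))
    (fun ω' => density_bound hW hτ (W c ω' - W τ ω' - y) hr)
  have hset : {ω : Ω | (ω, ω) ∈ {q : Ω × Ω | ‖(W c q.2 - W τ q.2 - y) + W τ q.1‖ < r}} =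
      {ω | ‖W c ω - y‖ < r} := by
    ext ω
    show ‖(W c ω - W τ ω - y) + W τ ω‖ < r ↔ ‖W c ω - y‖ < r
    have : (W c ω - W τ ω - y) + W τ ω = W c ω - y := by abel
    rw [this]
  rw [hset] at h
  exact h

end Pool.Agent.Lib.MP_098ea1_pr.BR
end
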