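import Pool.Agent.Lib.MP_098ea1_pr.Mg.G001
import Pool.Agent.Lib.MP_098ea1_pr.Mg.G003

section

/-!
# TASK BR DI: dimension from expected numbers

Let `Z n ω` be the number of `y ∈ Y n` with `ω ∈ toMeasurable P (E n y)`; measurable, and `∫ Z n (r n)^d = ∑_y P (E n y) (r n)^d ≤ a n` (`measure_toMeasurable`, `lintegral_finset_sum`, `lintegral_indicator_one`). So `∫ ∑_{n ≥ n0} Z n (r n)^d < ∞` and almost surely `∑_n Z n ω (r n)^d < ∞`
(`ae_lt_top`), so `Z n ω (r n)^d → 0`. For such `ω`: for `n ≥ n0` the set `B ω` is covered by the `Z n ω` balls `closedBall y (r n)` with `y ∈ Y n`, `ω ∈ E n y`, of diameter at most `2 r n → 0`, so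
`μH[d] (B ω) ≤ liminf_n ∑ (diam)^d ≤ liminf_n 2^d Z n ω (r n)^d = 0` (`MeasureTheory.Measure.hausdorffMeasure_le_liminf_sum`, sets indexed by a fintype for every `n`, for example the subtype of `Y n`, with the set `∅` if `ω ∉ E n y`;
for `d = 0` use `diam(∅)^0`: take nonempty sets only, or treat `d = 0` by: `Z n ω → 0` means `Z n ω = 0` for large `n`, `B ω = ∅`). Hence `dimH (B ω) ≤ d` (`dimH_le_of_hausdorffMeasure_ne_top`).
-/

set_option autoImplicit false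

open MeasureTheory ProbabilityTheory Set Filter Topology
open scoped NNReal ENNReal

namespace Pool.Agent.Lib.MP_098ea1_pr.BR

universe u

theorem dim_bound {Ω : Type u} [MeasurableSpace Ω] (P : Measure Ω) [IsProbabilityMeasure P] (B : Ω → Set V)
    (Y : ℕ → Finset V) (E : ℕ → V → Set Ω) (r : ℕ → ℝ) (hr : ∀ n, 0 < r n) (hr0 : Tendsto r atTop (𝓝 0)) (d : ℝ≥0)
    (a : ℕ → ℝ≥0∞) (ha : ∑' n, a n ≠ ∞) (n0 : ℕ)
    (hE : ∀ n, n0 ≤ n → ∑ y ∈ Y n, P (E n y) * ENNReal.ofReal (r n ^ (d : ℝ)) ≤ a n)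
    (hB : ∀ n, n0 ≤ n → ∀ ω, ∀ x ∈ B ω, ∃ y ∈ Y n, ω ∈ E n y ∧ ‖x - y‖ ≤ r n) :
    ∀ᵐ ω ∂P, dimH (B ω) ≤ d := by
  classical
  set f : ℕ → Ω → ℝ≥0∞ := fun n ω => ∑ y ∈ Y n,
    (toMeasurable P (E n y)).indicator (fun _ => ENNReal.ofReal (r n ^ (d : ℝ))) ω with hf
  have hfm : ∀ n, Measurable (f n) := fun n =>
    Finset.measurable_sum (Y n) fun y _ => measurable_const.indicator (measurableSet_toMeasurable P (E n y))
  have hfi : ∀ n, ∫⁻ ω, f n ω ∂P = ∑ y ∈ Y n, P (E n y) * ENNReal.ofReal (r n ^ (d : ℝ)) := by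
    intro n
    simp only [hf]
    rw [lintegral_finsetSum (Y n) fun y _ =>
      measurable_const.indicator (measurableSet_toMeasurable P (E n y))]
    refine Finset.sum_congr rfl fun y _ => ?_
    rw [lintegral_indicator_const (measurableSet_toMeasurable P (E n y)), measure_toMeasurable, mul_comm]
  set g : ℕ → Ω → ℝ≥0∞ := fun n ω => if n0 ≤ n then f n ω else 0 with hg
  have hgm : ∀ n, Measurable (g n) := by
    intro n
    by_cases h : n0 ≤ n
    · simpa only [hg, h, if_true] using hfm n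
    · simp only [hg, h, if_false]
      exact measurable_const
  have hgi : ∀ n, ∫⁻ ω, g n ω ∂P ≤ a n := by
    intro n
    by_cases h : n0 ≤ n
    · simp only [hg, h, if_true]
      rw [hfi n]
      exact hE n h
    · simp only [hg, h, if_false, lintegral_zero]
      exact zero_le
  have hsum : ∫⁻ ω, ∑' n, g n ω ∂P ≠ ∞ := by
    rw [lintegral_tsum fun n => (hgm n).aemeasurable]
    exact ((ENNReal.tsum_le_tsum hgi).trans_lt (lt_top_iff_ne_top.2 ha)).ne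
  have hae := ae_lt_top (Measurable.ennreal_tsum hgm) hsum
  filter_upwards [hae] with ω hω
  have hlim : Tendsto (fun n => g n ω) atTop (𝓝 0) := ENNReal.tendsto_atTop_zero_of_tsum_ne_top hω.ne
  have hr2 : Tendsto (fun n => 2 * ENNReal.ofReal (r n)) atTop (𝓝 0) := by
    have h1 := ENNReal.tendsto_ofReal hr0
    rw [ENNReal.ofReal_zero] at h1
    have h2 := ENNReal.Tendsto.const_mul h1 (Or.inr (by simp : (2 : ℝ≥0∞) ≠ ∞))
    simpa using h2
  have hball : ∀ (n : ℕ) (y : V), Metric.ediam (Metric.closedBall y (r n)) ≤ 2 * ENNReal.ofReal (r n) := by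
    intro n y
    rw [← Metric.closedEBall_ofReal (hr n).le]
    exact Metric.ediam_closedEBall_le
  have hH := MeasureTheory.Measure.hausdorffMeasure_le_liminf_sum
    (ι := fun n => {y // y ∈ (Y n).filter (fun y => ω ∈ E n y)}) (d : ℝ) (B ω) (l := atTop)
    (fun n => 2 * ENNReal.ofReal (r n)) hr2 (fun n y => Metric.closedBall (y : V) (r n))
    (Eventually.of_forall fun n y => hball n y) (by
      filter_upwards [eventually_ge_atTop n0] with n hn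
      intro x hx
      obtain ⟨y, hy, hyE, hxy⟩ := hB n hn ω x hx
      rw [Set.mem_iUnion]
      refine ⟨⟨y, Finset.mem_filter.2 ⟨hy, hyE⟩⟩, ?_⟩
      rw [Metric.mem_closedBall, dist_eq_norm]
      exact hxy)
  have hle : ∀ n, n0 ≤ n → ∑ i : {y // y ∈ (Y n).filter (fun y => ω ∈ E n y)},
      Metric.ediam (Metric.closedBall (i : V) (r n)) ^ (d : ℝ) ≤ 2 ^ (d : ℝ) * g n ω := by
    intro n hn
    have h1 : ∀ i : {y // y ∈ (Y n).filter (fun y => ω ∈ E n y)},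
        Metric.ediam (Metric.closedBall (i : V) (r n)) ^ (d : ℝ) ≤
          2 ^ (d : ℝ) * ENNReal.ofReal (r n ^ (d : ℝ)) := by
      intro i
      refine (ENNReal.rpow_le_rpow (hball n i) d.2).trans ?_
      rw [ENNReal.mul_rpow_of_nonneg _ _ d.2, ENNReal.ofReal_rpow_of_pos (hr n)]
      exact le_rfl
    refine (Finset.sum_le_sum fun i _ => h1 i).trans ?_
    rw [← Finset.mul_sum]
    refine mul_le_mul' le_rfl ?_
    have h2 : ∑ i : {y // y ∈ (Y n).filter (fun y => ω ∈ E n y)}, ENNReal.ofReal (r n ^ (d : ℝ)) =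
        ∑ y ∈ (Y n).filter (fun y => ω ∈ E n y), ENNReal.ofReal (r n ^ (d : ℝ)) :=
      Finset.sum_coe_sort ((Y n).filter (fun y => ω ∈ E n y)) (fun _ => ENNReal.ofReal (r n ^ (d : ℝ)))
    rw [h2]
    simp only [hg, hn, if_true, hf]
    rw [Finset.sum_filter]
    refine Finset.sum_le_sum fun y _ => ?_
    by_cases hy : ω ∈ E n y
    · rw [if_pos hy, Set.indicator_of_mem (subset_toMeasurable P (E n y) hy)]
    · rw [if_neg hy]
      exact zero_le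
  have hlim2 : Tendsto (fun n => 2 ^ (d : ℝ) * g n ω) atTop (𝓝 0) := by
    have h3 := ENNReal.Tendsto.const_mul (a := 2 ^ (d : ℝ)) hlim
      (Or.inr (ENNReal.rpow_ne_top_of_nonneg d.2 (by simp)))
    simpa using h3
  have hlim3 : Tendsto (fun n => ∑ i : {y // y ∈ (Y n).filter (fun y => ω ∈ E n y)},
      Metric.ediam (Metric.closedBall (i : V) (r n)) ^ (d : ℝ)) atTop (𝓝 0) :=
    tendsto_of_tendsto_of_tendsto_of_le_of_le' tendsto_const_nhds hlim2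
      (Eventually.of_forall fun n => zero_le) (by
        filter_upwards [eventually_ge_atTop n0] with n hn using hle n hn)
  rw [hlim3.liminf_eq] at hH
  apply dimH_le_of_hausdorffMeasure_ne_top
  rw [nonpos_iff_eq_zero.1 hH]
  simp

end Pool.Agent.Lib.MP_098ea1_pr.BR
end

section

/-!
# TASK BR GE: the geometric claim

Let `z = w c - y`, `‖z‖ ≤ ell/16`, and `t ≥ τ`. Case `t ≥ c`, `t = c + x`, `w t - y = z + fwd w c x`.
(1) `x ≤ s N k`: not `InE`, so `‖fwd w c x‖ ≤ ell/16` and `‖w t - y‖ ≤ ell/8 < ell`: not in `HS`.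
(2) `s ≤ x ≤ e`: by (1) `v = z + fwd w c s` has norm `≤ ell/8`, `w t - y = v + (fwd w c x - fwd w c s)`, and `u = ell⁻¹ • (fwd w c x - fwd w c s)` is not unsafe: `u i ≤ -1/4`: `(w t - y) i ≤ ell/8 - ell/4 < 0`; `‖u‖ ≤ 3/4`: `‖w t - y‖ ≤ 7 ell/8 < ell`;
`‖u‖ ≥ 13/4`: `‖w t - y‖ ≥ 13 ell/4 - ell/8 > 3 ell`.
(3) `x ≥ e`: not `OutE`, `‖fwd w c x‖ ≥ 4 ell`, `‖w t - y‖ ≥ 4 ell - ell/16 > 3 ell`.
Case `τ ≤ t ≤ c`, `t = c - x`, `x ≤ c - τ`: the same with `bwd w c x = w (c - x) - w c` (`x ≤ c`); `s N k ≤ e N k ≤ c`.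
-/

set_option autoImplicit false

open MeasureTheory ProbabilityTheory Set Filter Topology
open scoped NNReal ENNReal

namespace Pool.Agent.Lib.MP_098ea1_pr.BR

universe u

/-- One arm: `z = w c - y`, the point at the arm time `x` is `y + z + f x`. -/
private theorem GE_arm {N : ℕ} (hN : 2 ≤ N) (k : ℕ) (i : Fin 3) (f : ℝ≥0 → V) (I : Set ℝ≥0) (z : V)
    (hz : ‖z‖ ≤ ell N k / 16) (h1 : ¬ InE N k f) (h2 : ¬ OutE N k I f) (h3 : ¬ UnsE N k i f) (x : ℝ≥0) (hx : x ∈ I)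
    (hH1 : 0 ≤ (z + f x) i) (hH2 : ell N k ≤ ‖z + f x‖) (hH3 : ‖z + f x‖ ≤ 3 * ell N k) : False := by
  have hell := ell_pos hN k
  have hin : ∀ y ≤ s N k, ‖f y‖ ≤ ell N k / 16 := by
    intro y hy
    by_contra h
    exact h1 ⟨y, hy, not_le.mp h⟩
  rcases le_total x (s N k) with hxs | hxs
  · have h4 := norm_add_le z (f x)
    have h5 := hin x hxs
    linarith
  rcases le_total x (e N k) with hxe | hxe
  · -- the window
    have h4 := hin (s N k) le_rfl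
    obtain ⟨v, hv⟩ : ∃ v : V, v = z + f (s N k) := ⟨_, rfl⟩
    have hvn : ‖v‖ ≤ ell N k / 8 := by
      rw [hv]
      have := norm_add_le z (f (s N k))
      linarith
    obtain ⟨m, hm⟩ : ∃ m : V, m = f x - f (s N k) := ⟨_, rfl⟩
    have hsum : z + f x = v + m := by rw [hv, hm]; abel
    have h5 : ¬ uns i ((ell N k)⁻¹ • m) := by
      intro h
      exact h3 ⟨x, ⟨hxs, hxe⟩, by rw [← hm]; exact h⟩
    have hnorm : ‖(ell N k)⁻¹ • m‖ = (ell N k)⁻¹ * ‖m‖ := by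
      rw [norm_smul, Real.norm_eq_abs, abs_of_pos (inv_pos.mpr hell)]
    have hcoord : ((ell N k)⁻¹ • m) i = (ell N k)⁻¹ * m i := rfl
    rw [uns, hnorm, hcoord] at h5
    rw [hsum] at hH1 hH2 hH3
    have hvi : |v i| ≤ ell N k / 8 := (norm_le_pi_norm v i).trans hvn
    apply h5
    refine ⟨?_, ?_, ?_⟩
    · rw [lt_inv_mul_iff₀ hell]
      have h6 : 0 ≤ v i + m i := hH1
      have h7 := (abs_le.mp hvi).2
      nlinarith
    · rw [lt_inv_mul_iff₀ hell]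
      have h6 := norm_add_le v m
      nlinarith
    · rw [inv_mul_lt_iff₀ hell]
      have h6 : ‖m‖ ≤ ‖v + m‖ + ‖v‖ := by
        have h7 : m = (v + m) - v := by abel
        calc ‖m‖ = ‖(v + m) - v‖ := by rw [← h7]
          _ ≤ ‖v + m‖ + ‖v‖ := norm_sub_le _ _
      nlinarith
  · have h4 : 4 * ell N k ≤ ‖f x‖ := by
      by_contra h
      exact h2 ⟨x, ⟨hxe, hx⟩, not_le.mp h⟩
    have h5 : ‖f x‖ ≤ ‖z + f x‖ + ‖z‖ := by
      have h7 : f x = (z + f x) - z := by abel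
      calc ‖f x‖ = ‖(z + f x) - z‖ := by rw [← h7]
        _ ≤ ‖z + f x‖ + ‖z‖ := norm_sub_le _ _
    linarith

theorem no_hit (w : ℝ≥0 → V) {N : ℕ} (hN : 2 ≤ N) (k : ℕ) (i : Fin 3) (τ c : ℝ≥0) (hτ : τ ≤ c) (he : e N k ≤ c - τ)
    (y : V) (hy : ‖w c - y‖ ≤ ell N k / 16) (hF : ¬ FailE N k i τ c w) : ∀ t ∈ Set.Ici τ, w t ∉ HS N k i y := by
  unfold FailE at hF
  push Not at hF
  obtain ⟨hF1, hF2, hF3, hF4, hF5, hF6⟩ := hF
  rintro t ht ⟨hH1, hH2, hH3⟩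
  have ht' : τ ≤ t := ht
  rcases le_total c t with hct | hct
  · obtain ⟨x, rfl⟩ := exists_add_of_le hct
    have h1 : w (c + x) - y = (w c - y) + fwd w c x := by
      unfold fwd; abel
    refine GE_arm hN k i (fwd w c) Set.univ (w c - y) hy hF1 hF3 hF5 x (Set.mem_univ _) ?_ ?_ ?_
    · rw [← h1]
      change 0 ≤ w (c + x) i - y i
      linarith
    · rw [← h1]; exact hH2
    · rw [← h1]; exact hH3
  · obtain ⟨x, hx⟩ : ∃ x, x = c - t := ⟨_, rfl⟩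
    have hxc : x ≤ c := by rw [hx]; exact tsub_le_self
    have htx : c - x = t := by rw [hx]; exact tsub_tsub_cancel_of_le hct
    have h1 : w t - y = (w c - y) + bwd w c x := by
      unfold bwd
      rw [if_pos hxc, htx]; abel
    refine GE_arm hN k i (bwd w c) (Set.Iic (c - τ)) (w c - y) hy hF2 hF4 hF6 x ?_ ?_ ?_ ?_
    · rw [hx]
      exact tsub_le_tsub_left ht' c
    · rw [← h1]
      change 0 ≤ w t i - y i
      linarith
    · rw [← h1]; exact hH2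
    · rw [← h1]; exact hH3

end Pool.Agent.Lib.MP_098ea1_pr.BR
end

section

/-!
# TASK BR MS: splitting at a centre (deterministic)

If not all `InE N k (fwd w c)`, `k1 ≤ k ≤ n`, let `κ` be the largest `k` in `[k1, n]` with `¬ InE N k (fwd w c)`. The hitting time is `t = c + x`, `x ≤ s N n ≤ s N κ`, so `‖w t - w c‖ ≤ ell κ/16` and `‖w c - y‖ ≤ ell n + ell κ/16 ≤ (17/16) ell κ < 3 ell κ`. For
`k1 ≤ k < κ`: `‖w c - y‖ ≤ (17/16) ell κ ≤ ell k/16` (`ell_lt`), `e N k ≤ e N k1 ≤ τ ≤ c - τ`, and `w` meets `HS N k i y` after `τ`: by `no_hit` `FailE N k i τ c w`.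
-/

set_option autoImplicit false

open MeasureTheory ProbabilityTheory Set Filter Topology
open scoped NNReal ENNReal

namespace Pool.Agent.Lib.MP_098ea1_pr.BR

universe u

theorem centre_split (w : ℝ≥0 → V) {N : ℕ} (hN : 2 ≤ N) (i : Fin 3) (τ c : ℝ≥0) (hc : 2 * τ ≤ c) (n k1 : ℕ)
    (hk : k1 ≤ n) (he : e N k1 ≤ τ) (y : V) (hE : EvE N n k1 i τ (Set.Icc c (c + s N n)) y w) :
    (∀ k, k1 ≤ k → k ≤ n → InE N k (fwd w c)) ∨
      ∃ κ, k1 ≤ κ ∧ κ ≤ n ∧ ‖w c - y‖ < 3 * ell N κ ∧ (∀ k, κ < k → k ≤ n → InE N k (fwd w c)) ∧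
        (∀ k, k1 ≤ k → k < κ → FailE N k i τ c w) := by
  classical
  by_cases hall : ∀ k, k1 ≤ k → k ≤ n → InE N k (fwd w c)
  · exact Or.inl hall
  right
  push Not at hall
  obtain ⟨k0, h1, h2, h3⟩ := hall
  set F : Finset ℕ := (Finset.Icc k1 n).filter (fun k => ¬ InE N k (fwd w c)) with hF
  have hne : F.Nonempty := ⟨k0, by simp [hF, h1, h2, h3]⟩
  have hκF := F.max'_mem hne
  set κ := F.max' hne with hκ
  obtain ⟨hκ1, hκ2⟩ := Finset.mem_filter.1 hκF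
  obtain ⟨hκ3, hκ4⟩ := Finset.mem_Icc.1 hκ1
  obtain ⟨t, ⟨ht1, ht2⟩, hty⟩ := hE.1
  obtain ⟨x, rfl⟩ := exists_add_of_le ht1
  have hx : x ≤ s N κ := (le_of_add_le_add_left ht2).trans (s_anti hN hκ4)
  have hfx : ‖w (c + x) - w c‖ ≤ ell N κ / 16 := by
    by_contra hno
    exact hκ2 ⟨x, hx, not_le.1 hno⟩
  have hcy : ‖w c - y‖ ≤ 17 / 16 * ell N κ := by
    have e1 : w c - y = (w (c + x) - y) - (w (c + x) - w c) := by abel
    rw [e1]
    refine (norm_sub_le _ _).trans ?_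
    have := ell_anti hN hκ4
    linarith
  have hpos := ell_pos hN κ
  refine ⟨κ, hκ3, hκ4, by linarith, ?_, ?_⟩
  · intro k hk1 hk2
    by_contra hno
    have : k ∈ F := by simp [hF, hno, hk2, hκ3.trans hk1.le]
    exact absurd (F.le_max' k this) (not_le.2 hk1)
  · intro k hk1 hk2
    by_contra hno
    have hτc : τ ≤ c := le_trans (by rw [two_mul]; exact le_self_add) hc
    have he' : e N k ≤ c - τ := by
      refine ((e_anti hN hk1).trans he).trans ?_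
      refine le_tsub_of_add_le_left ?_
      rw [← two_mul]
      exact hc
    have hy : ‖w c - y‖ ≤ ell N k / 16 := by
      have := ell_lt hN hk2
      linarith
    obtain ⟨t, ht, hw⟩ := hE.2 k hk1 (lt_of_lt_of_le hk2 hκ4)
    exact no_hit w hN k i τ c hτc he' y hy hno t ht hw

end Pool.Agent.Lib.MP_098ea1_pr.BR
end

section

/-!
# TASK BR MC: the estimate at a centre

Let `ρ = q/N^18`. By `centre_split` the event is contained in `I_all ∪ ⋃_{κ ∈ [k1,n]} (G_κ ∩ {‖W c - y‖ < 3 ell κ})`, `G_κ = {∀ k ∈ (κ, n], InE N k (fwd ..)} ∩ {∀ k ∈ [k1, κ), FailE ..}`, in `fut W τ` (`InE_fut`, `FailE_fut`; `e N k ≤ e N k1 ≤ τ ≤ c - τ`).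
`P G_κ ≤ min (ρ^(2(n-κ))) (q^(2(κ-k1)))` by `hC.inE` for the Brownian motion `fwd` (`BM_shift`, `A = Ioc κ n`) and `hC.fail` (`A = Ico k1 κ`), and `min a² b² ≤ a b`. So by `centre_density` the term is at most
`q^(κ-k1) ρ^(n-κ) 27 (ell κ)³/(√τ)³`, and `(ell κ)³ = (ell n)³ N^(18(n-κ))` (`ell_mul`): `= 27/(√τ)³ (ell n)³ q^(n-k1)`. There are at most `n+1` values of `κ`.
`P I_all ≤ ρ^(2(n-k1+1)) ≤ ρ^(n-k1) = q^(n-k1) N^(-18(n-k1)) = q^(n-k1) N^(18 k1) (ell n)³` (`(ell n)³ = N^(-18n)`; `ρ ≤ 1`; `A = Icc k1 n`).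
-/

set_option autoImplicit false

open MeasureTheory ProbabilityTheory Set Filter Topology
open scoped NNReal ENNReal

namespace Pool.Agent.Lib.MP_098ea1_pr.BR

universe u

private theorem MC_min {p : ℝ≥0∞} {a b : ℝ} (ha : 0 ≤ a) (hb : 0 ≤ b) (h1 : p ≤ ENNReal.ofReal (a ^ 2))
    (h2 : p ≤ ENNReal.ofReal (b ^ 2)) : p ≤ ENNReal.ofReal (a * b) := by
  rcases le_total a b with h | h
  · exact h1.trans (ENNReal.ofReal_le_ofReal (by nlinarith))
  · exact h2.trans (ENNReal.ofReal_le_ofReal (by nlinarith))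

theorem centre_bound {N : ℕ} {q : ℝ} (hC : Core.{u} N q) {Ω : Type u} [MeasurableSpace Ω] {P : Measure Ω}
    [IsProbabilityMeasure P] {W : ℝ≥0 → Ω → V} (hW : BM W P) (i : Fin 3) {τ c : ℝ≥0} (hτ : 0 < τ) (hc : 2 * τ ≤ c)
    (n k1 : ℕ) (hk : k1 ≤ n) (he : e N k1 ≤ τ) (y : V) :
    P {ω | EvE N n k1 i τ (Set.Icc c (c + s N n)) y (path W ω)} ≤
      ENNReal.ofReal (((N : ℝ) ^ (18 * k1) + 27 / (Real.sqrt τ) ^ 3) * (n + 1) * (ell N n) ^ 3 * q ^ (n - k1)) := by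
  have hN := hC.hN
  have hq0 := hC.q0
  have hq1 := hC.q1
  have hN1 : (1 : ℝ) ≤ N := by exact_mod_cast (by omega : 1 ≤ N)
  have hN0 : (0 : ℝ) < N := by linarith
  have hτc : τ ≤ c := by
    have h1 : τ ≤ 2 * τ := by rw [two_mul]; exact le_self_add
    exact h1.trans hc
  have hcτ : τ ≤ c - τ := by
    apply le_tsub_of_add_le_right
    rw [← two_mul]
    exact hc
  have hsq : 0 < Real.sqrt τ := Real.sqrt_pos.mpr (by exact_mod_cast hτ)
  obtain ⟨ρ, hρ⟩ : ∃ ρ : ℝ, ρ = q / (N : ℝ) ^ 18 := ⟨_, rfl⟩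
  have hρ0 : 0 < ρ := by rw [hρ]; positivity
  have hρ1 : ρ ≤ 1 := by
    rw [hρ, div_le_one (by positivity)]
    exact hq1.le.trans (one_le_pow₀ hN1)
  have hell : ∀ k, 0 < ell N k := fun k => ell_pos hN k
  let G : ℕ → Set Ω := fun κ => {ω | (∀ k ∈ Finset.Ioc κ n, InE N k (fwd (path W ω) c)) ∧
    (∀ k ∈ Finset.Ico k1 κ, FailE N k i τ c (path W ω))}
  let I : Set Ω := {ω | ∀ k ∈ Finset.Icc k1 n, InE N k (fwd (path W ω) c)}
  have hsub : {ω | EvE N n k1 i τ (Set.Icc c (c + s N n)) y (path W ω)} ⊆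
      I ∪ ⋃ κ ∈ Finset.Icc k1 n, (G κ ∩ {ω | ‖W c ω - y‖ < 3 * ell N κ}) := by
    intro ω hω
    rcases centre_split (path W ω) hN i τ c hc n k1 hk he y hω with h | ⟨κ, hκ1, hκ2, hκ3, hκ4, hκ5⟩
    · left
      intro k hk'
      rw [Finset.mem_Icc] at hk'
      exact h k hk'.1 hk'.2
    · right
      rw [Set.mem_iUnion₂]
      refine ⟨κ, Finset.mem_Icc.mpr ⟨hκ1, hκ2⟩, ⟨?_, ?_⟩, hκ3⟩
      · intro k hk'
        rw [Finset.mem_Ioc] at hk'
        exact hκ4 k hk'.1 hk'.2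
      · intro k hk'
        rw [Finset.mem_Ico] at hk'
        exact hκ5 k hk'.1 hk'.2
  have hfail_e : ∀ k, k1 ≤ k → e N k ≤ c - τ := fun k hk' => (e_anti hN hk').trans (he.trans hcτ)
  have hGm : ∀ κ, MeasurableSet[fut W τ] (G κ) := by
    intro κ
    have h1 : G κ = (⋂ k ∈ Finset.Ioc κ n, {ω | InE N k (fwd (path W ω) c)}) ∩
        (⋂ k ∈ Finset.Ico k1 κ, {ω | FailE N k i τ c (path W ω)}) := by
      ext ω
      simp only [G, Set.mem_inter_iff, Set.mem_iInter, Set.mem_ofPred_eq]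
    rw [h1]
    refine MeasurableSet.inter ?_ ?_
    · exact MeasurableSet.biInter (Finset.countable_toSet _) (fun k _ => InE_fut hW N k τ c hτc)
    · refine MeasurableSet.biInter (Finset.countable_toSet _) (fun k hk' => FailE_fut hW hN k i τ c hτc ?_)
      exact hfail_e k (Finset.mem_Ico.mp (Finset.mem_coe.mp hk')).1
  have hGP : ∀ κ ∈ Finset.Icc k1 n, P (G κ) ≤ ENNReal.ofReal (ρ ^ (n - κ) * q ^ (κ - k1)) := by
    intro κ hκ
    rw [Finset.mem_Icc] at hκ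
    refine MC_min (by positivity) (by positivity) ?_ ?_
    · have h1 := hC.inE P (fun x ω => fwd (path W ω) c x) (BM_shift hW c) (Finset.Ioc κ n)
      rw [Nat.card_Ioc, ← hρ, mul_comm 2, pow_mul] at h1
      exact le_trans (measure_mono (fun ω hω => hω.1)) h1
    · have h1 := hC.fail P W hW i τ c (Finset.Ico k1 κ) hτc (fun k hk' => hfail_e k (Finset.mem_Ico.mp hk').1)
      rw [Nat.card_Ico, mul_comm 2, pow_mul] at h1
      exact le_trans (measure_mono (fun ω hω => hω.2)) h1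
  have hterm : ∀ κ ∈ Finset.Icc k1 n, P (G κ ∩ {ω | ‖W c ω - y‖ < 3 * ell N κ}) ≤
      ENNReal.ofReal (27 / (Real.sqrt τ) ^ 3 * (ell N n) ^ 3 * q ^ (n - k1)) := by
    intro κ hκ
    have h1 := centre_density hW hτ hτc y (r := 3 * ell N κ) (by have := hell κ; positivity) (hGm κ)
    refine h1.trans (le_trans (mul_le_mul_left (hGP κ hκ) _) ?_)
    rw [← ENNReal.ofReal_mul (by positivity)]
    refine ENNReal.ofReal_le_ofReal (le_of_eq ?_)
    rw [Finset.mem_Icc] at hκ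
    have h2 : ell N κ = ell N n * (N : ℝ) ^ (6 * (n - κ)) := ell_mul hN hκ.2
    have h3 : ρ ^ (n - κ) = q ^ (n - κ) / ((N : ℝ) ^ (6 * (n - κ))) ^ 3 := by
      rw [hρ, div_pow, ← pow_mul, ← pow_mul]
      congr 2
      ring
    have h4 : q ^ (n - k1) = q ^ (n - κ) * q ^ (κ - k1) := by
      rw [← pow_add]
      congr 1
      omega
    rw [h3, h4, h2]
    have h5 : ((N : ℝ) ^ (6 * (n - κ))) ≠ 0 := by positivity
    field_simp
    ring
  have hI : P I ≤ ENNReal.ofReal ((N : ℝ) ^ (18 * k1) * (ell N n) ^ 3 * q ^ (n - k1)) := by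
    have h1 := hC.inE P (fun x ω => fwd (path W ω) c x) (BM_shift hW c) (Finset.Icc k1 n)
    rw [Nat.card_Icc, ← hρ] at h1
    refine h1.trans (ENNReal.ofReal_le_ofReal ?_)
    have h2 : ρ ^ (2 * (n + 1 - k1)) ≤ ρ ^ (n - k1) := pow_le_pow_of_le_one hρ0.le hρ1 (by omega)
    refine h2.trans (le_of_eq ?_)
    have h3 : (ell N n) ^ 3 = ((N : ℝ) ^ (18 * n))⁻¹ := by
      unfold ell
      rw [inv_pow, ← pow_mul]
      congr 2
      ring
    have h4 : (N : ℝ) ^ (18 * n) = (N : ℝ) ^ (18 * k1) * (N : ℝ) ^ (18 * (n - k1)) := by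
      rw [← pow_add]
      congr 1
      omega
    rw [h3, h4, hρ, div_pow, ← pow_mul]
    field_simp
  calc P {ω | EvE N n k1 i τ (Set.Icc c (c + s N n)) y (path W ω)}
      ≤ P (I ∪ ⋃ κ ∈ Finset.Icc k1 n, (G κ ∩ {ω | ‖W c ω - y‖ < 3 * ell N κ})) := measure_mono hsub
    _ ≤ P I + P (⋃ κ ∈ Finset.Icc k1 n, (G κ ∩ {ω | ‖W c ω - y‖ < 3 * ell N κ})) := measure_union_le _ _
    _ ≤ P I + ∑ κ ∈ Finset.Icc k1 n, P (G κ ∩ {ω | ‖W c ω - y‖ < 3 * ell N κ}) := by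
        gcongr
        exact measure_biUnion_finset_le _ _
    _ ≤ ENNReal.ofReal ((N : ℝ) ^ (18 * k1) * (ell N n) ^ 3 * q ^ (n - k1)) +
          ∑ κ ∈ Finset.Icc k1 n, ENNReal.ofReal (27 / (Real.sqrt τ) ^ 3 * (ell N n) ^ 3 * q ^ (n - k1)) :=
        add_le_add hI (Finset.sum_le_sum hterm)
    _ = ENNReal.ofReal ((N : ℝ) ^ (18 * k1) * (ell N n) ^ 3 * q ^ (n - k1)) +
          ENNReal.ofReal (((n + 1 - k1 : ℕ) : ℝ) * (27 / (Real.sqrt τ) ^ 3 * (ell N n) ^ 3 * q ^ (n - k1))) := by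
        rw [Finset.sum_const, Nat.card_Icc, nsmul_eq_mul, ENNReal.ofReal_mul (Nat.cast_nonneg _), ENNReal.ofReal_natCast]
    _ = ENNReal.ofReal ((N : ℝ) ^ (18 * k1) * (ell N n) ^ 3 * q ^ (n - k1) +
          ((n + 1 - k1 : ℕ) : ℝ) * (27 / (Real.sqrt τ) ^ 3 * (ell N n) ^ 3 * q ^ (n - k1))) := by
        rw [ENNReal.ofReal_add (by have := hell n; positivity) (by have := hell n; positivity)]
    _ ≤ _ := by
        refine ENNReal.ofReal_le_ofReal ?_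
        have h1 : ((n + 1 - k1 : ℕ) : ℝ) ≤ n + 1 := by
          have : n + 1 - k1 ≤ n + 1 := Nat.sub_le _ _
          exact_mod_cast this
        have h2 : (0 : ℝ) ≤ (ell N n) ^ 3 * q ^ (n - k1) := by have := hell n; positivity
        have h3 : (0 : ℝ) ≤ 27 / (Real.sqrt τ) ^ 3 := by positivity
        have h4 : (0 : ℝ) ≤ (N : ℝ) ^ (18 * k1) := by positivity
        have h5 : (0 : ℝ) ≤ n := Nat.cast_nonneg _
        have h6 := mul_le_mul_of_nonneg_right h1 (mul_nonneg h3 h2)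
        have h7 := mul_nonneg (mul_nonneg h4 h5) h2
        nlinarith [h6, h7]

end Pool.Agent.Lib.MP_098ea1_pr.BR
end

section

/-!
# TASK BR MB: the sum over the centres

`[2τ, T]` is covered by the intervals `[c_m, c_m + s N n]`, `c_m = 2τ + m s N n`, `m ≤ ⌊T / s N n⌋`; the event is contained in the union of the events for these intervals. Their number is at most `T / s N n + 1 ≤ (T N^6 + 1) ((ell N n)²)⁻¹` (`inv_s`, `ell_le_one`).
`centre_bound` (with `2 * τ ≤ c_m`). `C = (T N^6 + 1) (N^(18 k1) + 27/(√τ)³) / q^k1`. (`q^(n-k1) = q^n/q^k1`.)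
-/

set_option autoImplicit false

open MeasureTheory ProbabilityTheory Set Filter Topology
open scoped NNReal ENNReal

namespace Pool.Agent.Lib.MP_098ea1_pr.BR

universe u

theorem EvE_bound {N : ℕ} {q : ℝ} (hC : Core.{u} N q) {Ω : Type u} [MeasurableSpace Ω] {P : Measure Ω}
    [IsProbabilityMeasure P] {W : ℝ≥0 → Ω → V} (hW : BM W P) (i : Fin 3) {τ : ℝ≥0} (hτ : 0 < τ) (T : ℝ≥0) (k1 : ℕ)
    (he : e N k1 ≤ τ) : ∃ C : ℝ, 0 < C ∧ ∀ n, k1 ≤ n → ∀ y : V,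
      P {ω | EvE N n k1 i τ (Set.Icc (2 * τ) T) y (path W ω)} ≤ ENNReal.ofReal (C * (n + 1) * ell N n * q ^ n) := by
  have hN := hC.hN
  have hq0 := hC.q0
  have hN0 : (0 : ℝ) < N := by
    have : 0 < N := by omega
    exact_mod_cast this
  have hK : 0 < (N : ℝ) ^ (18 * k1) + 27 / (Real.sqrt τ) ^ 3 := by
    have h1 : 0 < (N : ℝ) ^ (18 * k1) := by positivity
    have h2 : 0 ≤ 27 / (Real.sqrt τ) ^ 3 := by positivity
    linarith
  have hT0 : (0 : ℝ) ≤ T := T.2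
  refine ⟨((T : ℝ) * (N : ℝ) ^ 6 + 1) * ((N : ℝ) ^ (18 * k1) + 27 / (Real.sqrt τ) ^ 3) / q ^ k1,
    by positivity, fun n hn y => ?_⟩
  have hS : 0 < s N n := s_pos hN n
  have hSR : (0 : ℝ) < s N n := by exact_mod_cast hS
  have hell : 0 < ell N n := ell_pos hN n
  have hell1 : ell N n ≤ 1 := ell_le_one hN n
  set M : ℕ := ⌊(T : ℝ) / (s N n : ℝ)⌋₊ + 1 with hM
  have hsub : {ω | EvE N n k1 i τ (Set.Icc (2 * τ) T) y (path W ω)} ⊆
      ⋃ m ∈ Finset.range M, {ω | EvE N n k1 i τ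
        (Set.Icc (2 * τ + (m : ℝ≥0) * s N n) (2 * τ + (m : ℝ≥0) * s N n + s N n)) y (path W ω)} := by
    rintro ω ⟨⟨t, ⟨ht1, ht2⟩, ht3⟩, h2⟩
    have ht1' : (2 * τ : ℝ) ≤ t := by exact_mod_cast ht1
    have ht2' : (t : ℝ) ≤ T := by exact_mod_cast ht2
    have hτ0 : (0 : ℝ) ≤ τ := τ.2
    set m : ℕ := ⌊((t : ℝ) - 2 * τ) / (s N n : ℝ)⌋₊ with hm
    have hx0 : 0 ≤ ((t : ℝ) - 2 * τ) / (s N n : ℝ) := div_nonneg (by linarith) hSR.le
    have hm1 : (m : ℝ) ≤ ((t : ℝ) - 2 * τ) / (s N n : ℝ) := Nat.floor_le hx0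
    have hm2 : ((t : ℝ) - 2 * τ) / (s N n : ℝ) < m + 1 := Nat.lt_floor_add_one _
    rw [le_div_iff₀ hSR] at hm1
    rw [div_lt_iff₀ hSR] at hm2
    have hmM : m ∈ Finset.range M := by
      rw [Finset.mem_range, hM, hm]
      apply Nat.lt_succ_of_le
      apply Nat.floor_le_floor
      apply div_le_div_of_nonneg_right _ hSR.le
      linarith
    rw [Set.mem_iUnion₂]
    refine ⟨m, hmM, ⟨t, ⟨?_, ?_⟩, ht3⟩, h2⟩
    · rw [← NNReal.coe_le_coe]
      push_cast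
      linarith
    · rw [← NNReal.coe_le_coe]
      push_cast
      linarith
  have hB : ∀ m ∈ Finset.range M, P {ω | EvE N n k1 i τ
        (Set.Icc (2 * τ + (m : ℝ≥0) * s N n) (2 * τ + (m : ℝ≥0) * s N n + s N n)) y (path W ω)} ≤
      ENNReal.ofReal (((N : ℝ) ^ (18 * k1) + 27 / (Real.sqrt τ) ^ 3) * (n + 1) * (ell N n) ^ 3 *
        q ^ (n - k1)) := by
    intro m _
    exact centre_bound hC hW i hτ le_self_add n k1 hn he y
  have hMle : (M : ℝ) ≤ ((T : ℝ) * (N : ℝ) ^ 6 + 1) * ((ell N n) ^ 2)⁻¹ := by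
    have h1 : ((⌊(T : ℝ) / (s N n : ℝ)⌋₊ : ℕ) : ℝ) ≤ (T : ℝ) / (s N n : ℝ) :=
      Nat.floor_le (by positivity)
    have h2 : (T : ℝ) / (s N n : ℝ) = (T : ℝ) * (N : ℝ) ^ 6 * ((ell N n) ^ 2)⁻¹ := by
      rw [div_eq_mul_inv, inv_s hN, mul_assoc]
    have h3 : (1 : ℝ) ≤ ((ell N n) ^ 2)⁻¹ := by
      apply (one_le_inv₀ (by positivity)).2
      exact pow_le_one₀ hell.le hell1
    rw [hM]
    push_cast
    rw [add_mul, one_mul]
    linarith
  calc P {ω | EvE N n k1 i τ (Set.Icc (2 * τ) T) y (path W ω)}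
      ≤ P (⋃ m ∈ Finset.range M, {ω | EvE N n k1 i τ
        (Set.Icc (2 * τ + (m : ℝ≥0) * s N n) (2 * τ + (m : ℝ≥0) * s N n + s N n)) y (path W ω)}) :=
        measure_mono hsub
    _ ≤ ∑ m ∈ Finset.range M, P {ω | EvE N n k1 i τ
        (Set.Icc (2 * τ + (m : ℝ≥0) * s N n) (2 * τ + (m : ℝ≥0) * s N n + s N n)) y (path W ω)} :=
        measure_biUnion_finset_le _ _
    _ ≤ ∑ _m ∈ Finset.range M, ENNReal.ofReal (((N : ℝ) ^ (18 * k1) + 27 / (Real.sqrt τ) ^ 3) *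
        (n + 1) * (ell N n) ^ 3 * q ^ (n - k1)) := Finset.sum_le_sum hB
    _ = ENNReal.ofReal (M * (((N : ℝ) ^ (18 * k1) + 27 / (Real.sqrt τ) ^ 3) *
        (n + 1) * (ell N n) ^ 3 * q ^ (n - k1))) := by
        rw [Finset.sum_const, Finset.card_range, nsmul_eq_mul,
          ENNReal.ofReal_mul (p := (M : ℝ)) (Nat.cast_nonneg _), ENNReal.ofReal_natCast]
    _ ≤ ENNReal.ofReal (((T : ℝ) * (N : ℝ) ^ 6 + 1) *
          ((N : ℝ) ^ (18 * k1) + 27 / (Real.sqrt τ) ^ 3) / q ^ k1 * (n + 1) * ell N n * q ^ n) := by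
        apply ENNReal.ofReal_le_ofReal
        have hq : q ^ n = q ^ (n - k1) * q ^ k1 := by
          rw [← pow_add]; congr 1; omega
        have hrhs : ((T : ℝ) * (N : ℝ) ^ 6 + 1) *
            ((N : ℝ) ^ (18 * k1) + 27 / (Real.sqrt τ) ^ 3) / q ^ k1 * (n + 1) * ell N n * q ^ n
            = (((T : ℝ) * (N : ℝ) ^ 6 + 1) * ((ell N n) ^ 2)⁻¹) *
              (((N : ℝ) ^ (18 * k1) + 27 / (Real.sqrt τ) ^ 3) * (n + 1) * (ell N n) ^ 3 *
                q ^ (n - k1)) := by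
          rw [hq]
          field_simp
        rw [hrhs]
        apply mul_le_mul_of_nonneg_right hMle
        positivity

end Pool.Agent.Lib.MP_098ea1_pr.BR
end

section

/-!
# TASK BR RE: reduction to times away from 0

Let `x = w t ∈ Bad`, `x ≠ 0`. As `w` is continuous at 0 and `w 0 = 0` there is `η > 0` with `‖w u‖ ≤ ‖x‖/2` for `u ≤ η`. Take `m` with `τ = 1/(m+1) ≤ η` and `2 τ ≤ t` (`t > 0`), `T ≥ t` natural, `A ≥ ‖x‖` natural, and `k1 ≥ k0` with `e N k1 ≤ τ` (`e_tendsto`) and `4 ell N k1 < ‖x‖/2`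
(`ell_tendsto`). For `k ≥ k1` and a grid point `c` with `x ∈ Obox N k i a c` there is `p ∈ Cap N k i a c`, `p = w t'`. `|p j - x j| ≤ 4 ell N k` for `j ≠ i` and `|p i - x i| ≤ ell N k` (`x i = a`), so `‖p - x‖ ≤ 4 ell N k ≤ 4 ell N k1 < ‖x‖/2`, `‖p‖ > ‖x‖/2`, hence `t' > η ≥ τ`.
-/

set_option autoImplicit false

open MeasureTheory ProbabilityTheory Set Filter Topology
open scoped NNReal ENNReal

namespace Pool.Agent.Lib.MP_098ea1_pr.BR

universe u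

theorem Bad_subset (w : ℝ≥0 → V) (hw : Continuous w) (h0 : w 0 = 0) {N : ℕ} (hN : 2 ≤ N) (k0 : ℕ) (i : Fin 3) (a : ℝ) :
    Bad N k0 i a (Set.range w) ⊆ {0} ∪ ⋃ (m : ℕ) (T : ℕ) (A : ℕ) (k1 : ℕ) (_ : e N k1 ≤ 1 / ((m : ℝ≥0) + 1)),
      BadT N k1 i a (1 / ((m : ℝ≥0) + 1)) T A w := by
  rintro x ⟨⟨t, ht⟩, hxi, hx⟩
  by_cases hx0 : x = 0
  · exact Or.inl hx0
  right
  have hxn : 0 < ‖x‖ := norm_pos_iff.2 hx0
  have htpos : 0 < t := by
    rcases eq_or_lt_of_le (show (0 : ℝ≥0) ≤ t from bot_le) with h | h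
    · exfalso
      apply hx0
      rw [← ht, ← h, h0]
    · exact h
  -- continuity at 0
  obtain ⟨η, hη, hη2⟩ : ∃ η : ℝ, 0 < η ∧ ∀ x' : ℝ≥0, (x' : ℝ) < η → ‖w x'‖ < ‖x‖ / 2 := by
    have h1 : Tendsto (fun x' => ‖w x'‖) (𝓝 0) (𝓝 0) := by
      have h2 := (hw.norm).tendsto 0
      rw [h0, norm_zero] at h2
      exact h2
    have h3 := h1.eventually (gt_mem_nhds (half_pos hxn))
    obtain ⟨η, hη, h4⟩ := Metric.eventually_nhds_iff.1 h3
    refine ⟨η, hη, fun x' hx' => h4 ?_⟩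
    rw [NNReal.dist_eq]
    simpa using hx'
  obtain ⟨m, hm⟩ : ∃ m : ℕ, 1 / ((m : ℝ) + 1) < min η (t / 2) :=
    exists_nat_one_div_lt (lt_min hη (half_pos (NNReal.coe_pos.2 htpos)))
  obtain ⟨T, hT⟩ := exists_nat_ge t
  obtain ⟨A, hA⟩ := exists_nat_ge ‖x‖
  have hτ : 0 < 1 / ((m : ℝ≥0) + 1) := by positivity
  have hcast : ((1 / ((m : ℝ≥0) + 1) : ℝ≥0) : ℝ) = 1 / ((m : ℝ) + 1) := by
    push_cast
    rfl
  have ev1 : ∀ᶠ k in atTop, e N k < 1 / ((m : ℝ≥0) + 1) := (e_tendsto hN).eventually (gt_mem_nhds hτ)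
  have ev2 : ∀ᶠ k in atTop, ell N k < ‖x‖ / 8 :=
    (ell_tendsto hN).eventually (gt_mem_nhds (by positivity))
  obtain ⟨k1, hk1, hk2, hk3⟩ := (ev1.and (ev2.and (eventually_ge_atTop k0))).exists
  refine mem_iUnion.2 ⟨m, mem_iUnion.2 ⟨T, mem_iUnion.2 ⟨A, mem_iUnion.2 ⟨k1, mem_iUnion.2 ⟨hk1.le, ?_⟩⟩⟩⟩⟩
  refine ⟨⟨t, ⟨?_, hT⟩, ht⟩, hxi, hA, ?_⟩
  · rw [← NNReal.coe_le_coe, NNReal.coe_mul, hcast]
    have h1 := hm.trans_le (min_le_right _ _)
    push_cast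
    linarith
  · intro k hk c hc hxO
    obtain ⟨p, hpC, ⟨t', ht'⟩⟩ := hx k (hk3.trans hk) c hc hxO
    refine ⟨t', ?_, by rw [ht']; exact hpC⟩
    rw [mem_Ici]
    by_contra hlt
    rw [not_le, ← NNReal.coe_lt_coe, hcast] at hlt
    have h1 := hη2 t' (hlt.trans (hm.trans_le (min_le_left _ _)))
    rw [ht'] at h1
    have hell : ell N k ≤ ell N k1 := ell_anti hN hk
    have hellp : 0 < ell N k := ell_pos hN k
    have h2 : ‖p - x‖ ≤ 4 * ell N k := by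
      rw [pi_norm_le_iff_of_nonneg (by positivity)]
      intro j
      rw [Real.norm_eq_abs, Pi.sub_apply]
      obtain ⟨c1, c2, c3, _⟩ := hpC
      obtain ⟨_, d2⟩ := hxO
      by_cases hj : j = i
      · rw [hj, hxi, abs_le]
        constructor <;> linarith
      · have e1 := abs_le.1 (c3 j hj)
        have e2 := abs_lt.1 (d2 j hj)
        rw [abs_le]
        constructor <;> linarith [e1.1, e1.2, e2.1, e2.2]
    have h3 : ‖x‖ ≤ ‖p‖ + ‖p - x‖ := by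
      calc ‖x‖ = ‖p - (p - x)‖ := by rw [sub_sub_cancel]
        _ ≤ ‖p‖ + ‖p - x‖ := norm_sub_le _ _
    linarith

end Pool.Agent.Lib.MP_098ea1_pr.BR
end
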