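import Pool.Agent.Lib.MP_098ea1_pr.Mg.G001
import Pool.Agent.Lib.MP_098ea1_pr.Mg.G002
import Pool.Agent.Lib.MP_098ea1_pr.Mg.G003
import Pool.Agent.Lib.MP_098ea1_pr.Mg.G007

section

/-!
# TASK BR FA: far starting points

`C₁` from `hit_bound`, `C₂` from `sup_bound`. Choose `a > 0` with `C₁ r/√a ≤ ε/2`, then `R > r` with `C₂ (√a/(R-r))^16 ≤ ε/2`. If `R ≤ ‖z‖` and `‖z + W x ω‖ < r`, then either `x ≥ a`, or `x ≤ a`
and `‖W x ω‖ > ‖z‖ - r ≥ R - r`.
-/

set_option autoImplicit false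

open MeasureTheory ProbabilityTheory Set Filter Topology
open scoped NNReal ENNReal

namespace Pool.Agent.Lib.MP_098ea1_pr.BR

universe u

theorem far_bound (r ε : ℝ) (hr : 0 < r) (hε : 0 < ε) : ∃ R : ℝ, 0 < R ∧ ∀ {Ω : Type u} [MeasurableSpace Ω]
    (P : Measure Ω) [IsProbabilityMeasure P] (W : ℝ≥0 → Ω → V), BM W P → ∀ z : V, R ≤ ‖z‖ →
    P {ω | ∃ x : ℝ≥0, ‖z + W x ω‖ < r} ≤ ENNReal.ofReal ε := by
  obtain ⟨C₁, hC₁, h₁⟩ := hit_bound.{u}
  obtain ⟨C₂, hC₂, h₂⟩ := sup_bound.{u}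
  have hC₁0 : 0 < C₁ := by linarith
  have hC₂0 : 0 < C₂ := by linarith
  obtain ⟨q, hq⟩ : ∃ q : ℝ, q = 2 * C₁ * r / ε := ⟨_, rfl⟩
  obtain ⟨K, hK⟩ : ∃ K : ℝ, K = 1 + 2 * C₂ / ε := ⟨_, rfl⟩
  have hq0 : 0 < q := by rw [hq]; positivity
  have hK1 : 1 ≤ K := by
    have : 0 < 2 * C₂ / ε := by positivity
    linarith
  have hK0 : 0 < K := by linarith
  obtain ⟨a, ha⟩ : ∃ a : ℝ≥0, (a : ℝ) = q ^ 2 :=
    ⟨Real.toNNReal (q ^ 2), Real.coe_toNNReal _ (by positivity)⟩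
  have hsq : Real.sqrt (a : ℝ) = q := by
    rw [ha]; exact Real.sqrt_sq hq0.le
  have ha0 : 0 < a := by
    rw [← NNReal.coe_pos, ha]; positivity
  refine ⟨r + q * K, by positivity, ?_⟩
  intro Ω _ P _ W hW z hz
  have hsub : {ω | ∃ x : ℝ≥0, ‖z + W x ω‖ < r} ⊆
      {ω | ∃ x ∈ Set.Ici a, ‖z + W x ω‖ < r} ∪
      {ω | ∃ x ∈ Set.Iic a, q * K < ‖W x ω‖} := by
    rintro ω ⟨x, hx⟩
    rcases le_total a x with h | h
    · exact Or.inl ⟨x, h, hx⟩
    · refine Or.inr ⟨x, h, ?_⟩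
      have h3 : ‖z‖ ≤ ‖z + W x ω‖ + ‖W x ω‖ := by
        calc ‖z‖ = ‖(z + W x ω) - W x ω‖ := by rw [add_sub_cancel_right]
          _ ≤ ‖z + W x ω‖ + ‖W x ω‖ := norm_sub_le _ _
      linarith
  refine (measure_mono hsub).trans ((measure_union_le _ _).trans ?_)
  have e1 := h₁ P W hW z a r ha0 hr
  have e2 := h₂ P W hW a (q * K) (by positivity)
  rw [hsq] at e1 e2
  have f1 : C₁ * (r / q) = ε / 2 := by
    rw [hq]; field_simp
  have f2 : C₂ * (q / (q * K)) ^ 16 ≤ ε / 2 := by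
    have g1 : q / (q * K) = 1 / K := by field_simp
    rw [g1, div_pow, one_pow]
    have g2 : K ≤ K ^ 16 := by
      calc K = K ^ 1 := (pow_one K).symm
        _ ≤ K ^ 16 := pow_le_pow_right₀ hK1 (by norm_num)
    have g3 : 2 * C₂ / ε ≤ K ^ 16 := by linarith
    rw [div_le_iff₀ hε] at g3
    rw [mul_one_div, div_le_iff₀ (by positivity)]
    linarith
  calc _ ≤ ENNReal.ofReal (C₁ * (r / q)) + ENNReal.ofReal (C₂ * (q / (q * K)) ^ 16) := add_le_add e1 e2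
    _ ≤ ENNReal.ofReal (ε / 2) + ENNReal.ofReal (ε / 2) := by
      rw [f1]; gcongr
    _ = ENNReal.ofReal ε := by
      rw [← ENNReal.ofReal_add (by positivity) (by positivity)]; congr 1; ring

end Pool.Agent.Lib.MP_098ea1_pr.BR
end

section

/-!
# TASK BR SP: the path follows a line with positive probability

Take `L`, `p` from `one_step` for `R`, `ε`. Claim with `p^L`. Let `A_j`, `j ≤ L`, be the event that for all `j' < j` the increments of `X = W (j'/L + ·) - W (j'/L)` (a Brownian motion, `BM_shift`) satisfy the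
condition of `one_step`. `A_j` is in `past W (j/L)` (the condition `∀ x ≤ 1/L, ‖X x‖ ≤ ε/4` is the complement of an event of `meas_exists`), the condition for `j` is in `fut W (j/L)`; so by
`indep_past_fut`, `indep_inter` and induction `P A_j ≥ p^j`. On `A_L`, for `x ∈ [j/L, (j+1)/L]`, `j < L`: `W x + R x e = ∑_{j' < j} (W((j'+1)/L) - W(j'/L) + (R/L) e) + (W x - W (j/L)) + R (x - j/L) e`,
of norm at most `j ε/(2L) + ε/4 + R/L ≤ ε/2 + ε/4 + ε/4 = ε`.
-/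

set_option autoImplicit false

open MeasureTheory ProbabilityTheory Set Filter Topology
open scoped NNReal ENNReal

namespace Pool.Agent.Lib.MP_098ea1_pr.BR

universe u

theorem SP_meas {Ω : Type u} (m : MeasurableSpace Ω) (X : ℝ≥0 → Ω → V) (T : ℝ≥0)
    (hX : ∀ x ∈ Set.Iic T, Measurable[m] (X x)) (hc : ∀ ω, Continuous (fun t => X t ω)) (v : V) (a b : ℝ) :
    MeasurableSet[m] {ω | ‖X T ω + v‖ ≤ a ∧ ∀ x ∈ Set.Iic T, ‖X x ω‖ ≤ b} := by
  have h1 : MeasurableSet[m] {ω | ‖X T ω + v‖ ≤ a} := by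
    have h2 : MeasurableSet {y : V | ‖y + v‖ ≤ a} :=
      (isClosed_le ((continuous_id.add continuous_const).norm) continuous_const).measurableSet
    exact hX T (Set.mem_Iic.2 le_rfl) h2
  have h3 : MeasurableSet[m] {ω | ∃ x ∈ Set.Iic T, X x ω ∈ {y : V | b < ‖y‖}} :=
    meas_exists m X (Set.Iic T) hX hc {y : V | b < ‖y‖} (isOpen_lt continuous_const continuous_norm)
  have h4 : {ω | ‖X T ω + v‖ ≤ a ∧ ∀ x ∈ Set.Iic T, ‖X x ω‖ ≤ b} =
      {ω | ‖X T ω + v‖ ≤ a} ∩ {ω | ∃ x ∈ Set.Iic T, X x ω ∈ {y : V | b < ‖y‖}}ᶜ := by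
    ext ω
    constructor
    · rintro ⟨h5, h6⟩
      refine ⟨h5, ?_⟩
      rintro ⟨x, hx, hx2⟩
      exact absurd hx2 (not_lt.2 (h6 x hx))
    · rintro ⟨h5, h6⟩
      refine ⟨h5, fun x hx => ?_⟩
      by_contra hcon
      exact h6 ⟨x, hx, not_le.1 hcon⟩
  rw [h4]
  exact h1.inter h3.compl

theorem SP_det (w : ℝ≥0 → V) (h0 : w 0 = 0) (L : ℕ) (hL : 0 < L) (R ε : ℝ) (hR : 0 < R) (hε : 0 < ε)
    (hRL : R / L ≤ ε / 4) (i : Fin 3)
    (hG : ∀ j < L, ‖(w ((j : ℝ≥0) / L + 1 / (L : ℝ≥0)) - w ((j : ℝ≥0) / L)) +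
        (R / L) • (Pi.single i (1 : ℝ) : V)‖ ≤ ε / (2 * L) ∧
      ∀ x ∈ Set.Iic (1 / (L : ℝ≥0)), ‖w ((j : ℝ≥0) / L + x) - w ((j : ℝ≥0) / L)‖ ≤ ε / 4) :
    ∀ x ∈ Set.Iic (1 : ℝ≥0), ‖w x + (R * x) • (Pi.single i (1 : ℝ) : V)‖ ≤ ε := by
  have hLr : (0 : ℝ) < L := by exact_mod_cast hL
  have hLn : (0 : ℝ≥0) < L := by exact_mod_cast hL
  set e1 : V := Pi.single i (1 : ℝ) with he1
  have he1n : ‖e1‖ ≤ 1 := by
    rw [he1, pi_norm_le_iff_of_nonneg zero_le_one]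
    intro j
    by_cases hj : j = i
    · subst hj; simp
    · rw [Pi.single_eq_of_ne hj]; simp
  have hstep : ∀ j : ℕ, ((j + 1 : ℕ) : ℝ≥0) / L = (j : ℝ≥0) / L + 1 / (L : ℝ≥0) := by
    intro j
    push_cast
    rw [add_div]
  have hind : ∀ j : ℕ, j ≤ L → ‖w ((j : ℝ≥0) / L) + (R * ((j : ℝ) / L)) • e1‖ ≤ j * (ε / (2 * L)) := by
    intro j
    induction j with
    | zero =>
      intro _
      simp [h0]
    | succ j ih =>
      intro hj
      have h1 := ih (by omega)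
      have h2 := (hG j (by omega)).1
      rw [hstep j]
      have h3 : w ((j : ℝ≥0) / L + 1 / (L : ℝ≥0)) + (R * (((j + 1 : ℕ) : ℝ) / L)) • e1 =
          (w ((j : ℝ≥0) / L) + (R * ((j : ℝ) / L)) • e1) +
            ((w ((j : ℝ≥0) / L + 1 / (L : ℝ≥0)) - w ((j : ℝ≥0) / L)) + (R / L) • e1) := by
        have h4 : R * (((j + 1 : ℕ) : ℝ) / L) = R * ((j : ℝ) / L) + R / L := by
          push_cast
          ring
        rw [h4, add_smul]
        abel
      rw [h3]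
      refine (norm_add_le _ _).trans ?_
      push_cast
      linarith
  intro x hx
  obtain ⟨j, hjL, hj1, hj2⟩ : ∃ j : ℕ, j < L ∧ (j : ℝ≥0) / L ≤ x ∧ x ≤ (j : ℝ≥0) / L + 1 / (L : ℝ≥0) := by
    rcases eq_or_lt_of_le (show x ≤ 1 from hx) with rfl | hx1
    · refine ⟨L - 1, by omega, ?_, ?_⟩
      · rw [div_le_one hLn]
        exact_mod_cast Nat.sub_le L 1
      · rw [← hstep, Nat.sub_add_cancel hL, div_self hLn.ne']
    · refine ⟨⌊x * L⌋₊, ?_, ?_, ?_⟩
      · rw [Nat.floor_lt (by positivity)]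
        calc x * L < 1 * L := mul_lt_mul_of_pos_right hx1 hLn
          _ = L := one_mul _
      · rw [div_le_iff₀ hLn]
        exact Nat.floor_le (by positivity)
      · rw [← hstep, le_div_iff₀ hLn]
        push_cast
        exact (Nat.lt_floor_add_one (x * L)).le
  obtain ⟨y, hy⟩ : ∃ y : ℝ≥0, x = (j : ℝ≥0) / L + y := ⟨x - (j : ℝ≥0) / L, (add_tsub_cancel_of_le hj1).symm⟩
  subst hy
  have hyL : y ≤ 1 / (L : ℝ≥0) := by simpa using hj2
  have h1 := hind j hjL.le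
  have h2 := (hG j hjL).2 y hyL
  have h3 : w ((j : ℝ≥0) / L + y) + (R * (((j : ℝ≥0) / L + y : ℝ≥0) : ℝ)) • e1 =
      (w ((j : ℝ≥0) / L) + (R * ((j : ℝ) / L)) • e1) + (w ((j : ℝ≥0) / L + y) - w ((j : ℝ≥0) / L)) +
        (R * (y : ℝ)) • e1 := by
    have h4 : R * (((j : ℝ≥0) / L + y : ℝ≥0) : ℝ) = R * ((j : ℝ) / L) + R * (y : ℝ) := by
      push_cast
      ring
    rw [h4, add_smul]
    abel
  rw [h3]
  have hyr : (y : ℝ) ≤ 1 / L := by
    have : (y : ℝ) ≤ ((1 / (L : ℝ≥0) : ℝ≥0) : ℝ) := NNReal.coe_le_coe.2 hyL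
    simpa using this
  have h5 : ‖(R * (y : ℝ)) • e1‖ ≤ R / L := by
    rw [norm_smul, Real.norm_eq_abs, abs_of_nonneg (mul_nonneg hR.le (NNReal.coe_nonneg y))]
    calc R * (y : ℝ) * ‖e1‖ ≤ R * (1 / L) * 1 :=
          mul_le_mul (mul_le_mul_of_nonneg_left hyr hR.le) he1n (norm_nonneg _) (by positivity)
      _ = R / L := by ring
  have h6 : (j : ℝ) * (ε / (2 * L)) ≤ ε / 2 := by
    have hjr : (j : ℝ) ≤ L := by exact_mod_cast hjL.le
    calc (j : ℝ) * (ε / (2 * L)) ≤ L * (ε / (2 * L)) := mul_le_mul_of_nonneg_right hjr (by positivity)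
      _ = ε / 2 := by field_simp
  refine (norm_add_le _ _).trans ?_
  have h7 := norm_add_le (w ((j : ℝ≥0) / L) + (R * ((j : ℝ) / L)) • e1)
    (w ((j : ℝ≥0) / L + y) - w ((j : ℝ≥0) / L))
  linarith

theorem support_bound (R ε : ℝ) (hR : 0 < R) (hε : 0 < ε) : ∃ p : ℝ, 0 < p ∧ p ≤ 1 ∧
    ∀ {Ω : Type u} [MeasurableSpace Ω] (P : Measure Ω) [IsProbabilityMeasure P] (W : ℝ≥0 → Ω → V), BM W P →
    ∀ i : Fin 3, ENNReal.ofReal p ≤
      P {ω | ∀ x ∈ Set.Iic (1 : ℝ≥0), ‖W x ω + (R * x) • (Pi.single i (1 : ℝ) : V)‖ ≤ ε} := by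
  obtain ⟨L, hL, hRL, p0, hp0, hstep⟩ := one_step.{u} R ε hR hε
  have hp1 : 0 < min p0 1 := lt_min hp0 one_pos
  refine ⟨(min p0 1) ^ L, by positivity, pow_le_one₀ hp1.le (min_le_right _ _), ?_⟩
  intro Ω _ P _ W hW i
  have hLn : (0 : ℝ≥0) < L := by exact_mod_cast hL
  have htstep : ∀ j : ℕ, ((j + 1 : ℕ) : ℝ≥0) / L = (j : ℝ≥0) / L + 1 / (L : ℝ≥0) := by
    intro j
    push_cast
    rw [add_div]
  set G : ℕ → Set Ω := fun j => {ω | ‖(W ((j : ℝ≥0) / L + 1 / (L : ℝ≥0)) ω - W ((j : ℝ≥0) / L) ω) +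
      (R / L) • (Pi.single i (1 : ℝ) : V)‖ ≤ ε / (2 * L) ∧
    ∀ x ∈ Set.Iic (1 / (L : ℝ≥0)), ‖W ((j : ℝ≥0) / L + x) ω - W ((j : ℝ≥0) / L) ω‖ ≤ ε / 4} with hG
  have hGP : ∀ j, ENNReal.ofReal (min p0 1) ≤ P (G j) := by
    intro j
    refine (ENNReal.ofReal_le_ofReal (min_le_left _ _)).trans ?_
    exact hstep P (fun x ω => fwd (path W ω) ((j : ℝ≥0) / L) x) (BM_shift hW ((j : ℝ≥0) / L)) i
  have hcont : ∀ (j : ℕ) (ω : Ω), Continuous (fun x => W ((j : ℝ≥0) / L + x) ω - W ((j : ℝ≥0) / L) ω) :=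
    fun j ω => ((hW.cont ω).comp (continuous_const.add continuous_id)).sub continuous_const
  have hGm : ∀ (j : ℕ) (m : MeasurableSpace Ω), (∀ x ∈ Set.Iic (1 / (L : ℝ≥0)),
      Measurable[m] (fun ω => W ((j : ℝ≥0) / L + x) ω - W ((j : ℝ≥0) / L) ω)) → MeasurableSet[m] (G j) := by
    intro j m hm
    exact SP_meas m (fun x ω => W ((j : ℝ≥0) / L + x) ω - W ((j : ℝ≥0) / L) ω) (1 / (L : ℝ≥0)) hm
      (fun ω => hcont j ω) ((R / L) • (Pi.single i (1 : ℝ) : V)) (ε / (2 * L)) (ε / 4)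
  have hGfut : ∀ j : ℕ, MeasurableSet[fut W ((j : ℝ≥0) / L)] (G j) := fun j =>
    hGm j _ fun x _ => fut_meas W le_self_add le_rfl
  have hGpast : ∀ j' j : ℕ, j' < j → MeasurableSet[past W ((j : ℝ≥0) / L)] (G j') := by
    intro j' j hj
    have h2 : (j' : ℝ≥0) / L + 1 / (L : ℝ≥0) ≤ (j : ℝ≥0) / L := by
      rw [← htstep]
      gcongr
      exact_mod_cast hj
    refine hGm j' _ fun x hx => ?_
    have h1 : (j' : ℝ≥0) / L + x ≤ (j : ℝ≥0) / L := (add_le_add le_rfl hx).trans h2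
    exact (past_meas W h1).sub (past_meas W (le_self_add.trans h2))
  have hA : ∀ j : ℕ, ENNReal.ofReal ((min p0 1) ^ j) ≤ P (⋂ j' ∈ Finset.range j, G j') := by
    intro j
    induction j with
    | zero => simp
    | succ j ih =>
      have h1 : (⋂ j' ∈ Finset.range (j + 1), G j') = (⋂ j' ∈ Finset.range j, G j') ∩ G j := by
        ext ω
        simp only [Set.mem_iInter, Finset.mem_range, Set.mem_inter_iff]
        constructor
        · intro h
          exact ⟨fun j' hj' => h j' (by omega), h j (by omega)⟩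
        · rintro ⟨h, h'⟩ j' hj'
          rcases Nat.lt_succ_iff_lt_or_eq.1 hj' with hj2 | rfl
          · exact h j' hj2
          · exact h'
      have hAm : MeasurableSet[past W ((j : ℝ≥0) / L)] (⋂ j' ∈ Finset.range j, G j') :=
        @Finset.measurableSet_biInter _ _ (past W ((j : ℝ≥0) / L)) _ _ fun j' hj' =>
          hGpast j' j (Finset.mem_range.1 hj')
      rw [h1, indep_inter P (indep_past_fut hW ((j : ℝ≥0) / L)) hAm (hGfut j), pow_succ,
        ENNReal.ofReal_mul (by positivity)]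
      exact mul_le_mul' ih (hGP j)
  refine (hA L).trans (measure_mono ?_)
  intro ω hω
  have hω' : ∀ j < L, ω ∈ G j := by
    intro j hj
    have := Set.mem_iInter₂.1 hω j (Finset.mem_range.2 hj)
    exact this
  exact SP_det (path W ω) (hW.zero ω) L hL R ε hR hε hRL i hω'

end Pool.Agent.Lib.MP_098ea1_pr.BR
end

section

/-!
# TASK BR SF: safe paths have positive probability

`far_bound` for `r = 13/4`, `ε = 1/2` gives `R₀`. Let `R = R₀ + 1` and `p` from `support_bound` for `R`, `ε = 1/8`; claim with `p/2`. `A = {∀ x ≤ 1, ‖W x + R x e_i‖ ≤ 1/8}` is in `past W 1` (complement of `meas_exists`).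
On `A`: `‖W 1‖ ≥ R - 1/8 ≥ R₀`, and `W x` is not unsafe for `x ≤ 1`: if `W x i > -1/4` then `R x < 1/4 + 1/8` and `‖W x‖ ≤ R x + 1/8 < 1/2 < 3/4`. Let
`B = {(ω', ω) | R₀ ≤ ‖W 1 ω'‖ ∧ ∃ x, ‖W 1 ω' + (W (1+x) ω - W 1 ω)‖ < 13/4}`, measurable for `(past W 1).prod (fut W 1)` (`meas_exists` on `Ω × Ω`); its sections have probability at most `1/2`
(`far_bound` for the Brownian motion `W (1+·) - W 1`, `BM_shift`). By `markov_le`: `P (A ∩ {(ω,ω) ∈ B}) ≤ P A / 2`, so `P (A \ ..) ≥ P A/2 ≥ p/2`, and there `W x` is never unsafe.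
-/

set_option autoImplicit false

open MeasureTheory ProbabilityTheory Set Filter Topology
open scoped NNReal ENNReal

namespace Pool.Agent.Lib.MP_098ea1_pr.BR

universe u

theorem safe_bound : ∃ p : ℝ, 0 < p ∧ p ≤ 1 ∧ ∀ {Ω : Type u} [MeasurableSpace Ω] (P : Measure Ω)
    [IsProbabilityMeasure P] (W : ℝ≥0 → Ω → V), BM W P → ∀ i : Fin 3,
    ENNReal.ofReal p ≤ P {ω | ∀ x : ℝ≥0, ¬ uns i (W x ω)} := by
  obtain ⟨R0, hR0, hfar⟩ := far_bound.{u} (13 / 4) (1 / 2) (by norm_num) (by norm_num)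
  obtain ⟨p, hp0, hp1, hsup⟩ := support_bound.{u} (R0 + 1) (1 / 8) (by linarith) (by norm_num)
  refine ⟨p / 2, by linarith, by linarith, ?_⟩
  intro Ω mΩ P _ W hW i
  obtain ⟨A, hAdef⟩ : ∃ A : Set Ω, A = {ω | ∀ x ∈ Set.Iic (1 : ℝ≥0),
    ‖W x ω + ((R0 + 1) * x) • (Pi.single i (1 : ℝ) : V)‖ ≤ 1 / 8} := ⟨_, rfl⟩
  have hPA : ENNReal.ofReal p ≤ P A := by
    rw [hAdef]
    exact hsup P W hW i
  have hcont : Continuous (fun x : ℝ≥0 => ((R0 + 1) * (x : ℝ)) • (Pi.single i (1 : ℝ) : V)) :=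
    (continuous_const.mul NNReal.continuous_coe).smul continuous_const
  have hAm : MeasurableSet[past W 1] A := by
    have h1 := meas_exists (past W 1) (fun (x : ℝ≥0) ω => W x ω + ((R0 + 1) * (x : ℝ)) • (Pi.single i (1 : ℝ) : V))
      (Set.Iic (1 : ℝ≥0)) (fun t ht => (past_meas W ht).add measurable_const)
      (fun ω => (hW.cont ω).add hcont) {v : V | 1 / 8 < ‖v‖} (isOpen_lt continuous_const continuous_norm)
    have h2 : A = {ω | ∃ t ∈ Set.Iic (1 : ℝ≥0),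
        W t ω + ((R0 + 1) * (t : ℝ)) • (Pi.single i (1 : ℝ) : V) ∈ {v : V | 1 / 8 < ‖v‖}}ᶜ := by
      rw [hAdef]
      ext ω
      simp only [Set.mem_compl_iff, Set.mem_ofPred_eq, not_exists, not_and, not_lt]
    rw [h2]
    exact h1.compl
  obtain ⟨B, hBdef⟩ : ∃ B : Set (Ω × Ω), B = {q | R0 ≤ ‖W 1 q.1‖ ∧
    ∃ x ∈ (Set.univ : Set ℝ≥0), W 1 q.1 + (W (1 + x) q.2 - W 1 q.2) ∈ {v : V | ‖v‖ < 13 / 4}} := ⟨_, rfl⟩
  have hBm : MeasurableSet[(past W 1).prod (fut W 1)] B := by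
    have hf : Measurable[(past W 1).prod (fut W 1)] (fun q : Ω × Ω => W 1 q.1) :=
      (past_meas W le_rfl).comp (@measurable_fst _ _ (past W 1) (fut W 1))
    have h1 := meas_exists ((past W 1).prod (fut W 1))
      (fun (x : ℝ≥0) (q : Ω × Ω) => W 1 q.1 + (W (1 + x) q.2 - W 1 q.2)) Set.univ
      (fun t _ => hf.add ((fut_meas W le_self_add le_rfl).comp (@measurable_snd _ _ (past W 1) (fut W 1))))
      (fun q => continuous_const.add (((hW.cont q.2).comp (continuous_const.add continuous_id)).sub continuous_const))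
      {v : V | ‖v‖ < 13 / 4} (isOpen_lt continuous_norm continuous_const)
    have h2 : MeasurableSet[(past W 1).prod (fut W 1)] {q : Ω × Ω | R0 ≤ ‖W 1 q.1‖} :=
      (measurable_norm.comp hf) measurableSet_Ici
    rw [hBdef]
    exact h2.inter h1
  have hsec : ∀ ω', P {ω | (ω', ω) ∈ B} ≤ ENNReal.ofReal (1 / 2) := by
    intro ω'
    by_cases h : R0 ≤ ‖W 1 ω'‖
    · refine le_trans (measure_mono ?_) (hfar P (fun x ω => fwd (path W ω) 1 x) (BM_shift hW 1) (W 1 ω') h)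
      intro ω hω
      rw [Set.mem_ofPred_eq, hBdef] at hω
      obtain ⟨_, x, _, hx⟩ := hω
      exact ⟨x, hx⟩
    · have h1 : {ω | (ω', ω) ∈ B} = ∅ := by
        rw [Set.eq_empty_iff_forall_notMem]
        intro ω hω
        rw [Set.mem_ofPred_eq, hBdef] at hω
        exact h hω.1
      rw [h1, measure_empty]
      exact zero_le
  have hmk := markov_le P (past_le W hW.meas 1) (fut_le W hW.meas 1) (indep_past_fut hW 1) hBm hAm _ hsec
  have hdiff : P A / 2 ≤ P (A \ {ω | (ω, ω) ∈ B}) := by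
    have h1 := measure_le_inter_add_sdiff P A {ω | (ω, ω) ∈ B}
    have h2 : P A * ENNReal.ofReal (1 / 2) = P A / 2 := by
      rw [ENNReal.ofReal_div_of_pos two_pos, ENNReal.ofReal_one, ENNReal.ofReal_ofNat, div_eq_mul_inv,
        div_eq_mul_inv, one_mul]
    rw [h2] at hmk
    have h3 : P A / 2 + P A / 2 ≤ P A / 2 + P (A \ {ω | (ω, ω) ∈ B}) := by
      rw [ENNReal.add_halves]
      exact h1.trans (add_le_add hmk le_rfl)
    exact (ENNReal.add_le_add_iff_left (ENNReal.div_ne_top (measure_ne_top P A) (by norm_num))).1 h3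
  have hp2 : ENNReal.ofReal (p / 2) ≤ P A / 2 := by
    rw [ENNReal.ofReal_div_of_pos two_pos, ENNReal.ofReal_ofNat]
    exact ENNReal.div_le_div_right hPA 2
  refine hp2.trans (hdiff.trans (measure_mono ?_))
  rintro ω ⟨hA, hB⟩ x hx
  rw [hAdef] at hA
  rcases le_or_gt x 1 with h | h
  · have h1 := hA x h
    have h2 := (norm_le_pi_norm (W x ω + ((R0 + 1) * (x : ℝ)) • (Pi.single i (1 : ℝ) : V)) i).trans h1
    rw [Pi.add_apply, Pi.smul_apply, Pi.single_eq_same, smul_eq_mul, mul_one, Real.norm_eq_abs, abs_le] at h2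
    have h3 : ‖W x ω‖ ≤ ‖W x ω + ((R0 + 1) * (x : ℝ)) • (Pi.single i (1 : ℝ) : V)‖ +
        ‖((R0 + 1) * (x : ℝ)) • (Pi.single i (1 : ℝ) : V)‖ := by
      have h4 := norm_sub_le (W x ω + ((R0 + 1) * (x : ℝ)) • (Pi.single i (1 : ℝ) : V))
        (((R0 + 1) * (x : ℝ)) • (Pi.single i (1 : ℝ) : V))
      rwa [add_sub_cancel_right] at h4
    have h5 : ‖((R0 + 1) * (x : ℝ)) • (Pi.single i (1 : ℝ) : V)‖ = (R0 + 1) * x := by
      have h6 : (0 : ℝ) ≤ (R0 + 1) * (x : ℝ) := mul_nonneg (by linarith) x.2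
      rw [norm_smul, Pi.norm_single, norm_one, mul_one, Real.norm_eq_abs, abs_of_nonneg h6]
    rw [h5] at h3
    have h6 := hx.1
    have h7 := hx.2.1
    linarith [h2.2]
  · apply hB
    rw [Set.mem_ofPred_eq, hBdef]
    refine ⟨?_, x - 1, Set.mem_univ _, ?_⟩
    · have h1 := hA 1 (le_refl (1 : ℝ≥0))
      have h2 := (norm_le_pi_norm (W 1 ω + ((R0 + 1) * ((1 : ℝ≥0) : ℝ)) • (Pi.single i (1 : ℝ) : V)) i).trans h1
      rw [Pi.add_apply, Pi.smul_apply, Pi.single_eq_same, smul_eq_mul, mul_one, NNReal.coe_one, mul_one,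
        Real.norm_eq_abs, abs_le] at h2
      have h3 := norm_le_pi_norm (W 1 ω) i
      rw [Real.norm_eq_abs] at h3
      have h4 := neg_abs_le (W 1 ω i)
      linarith [h2.2]
    · simp only [add_sub_cancel, Set.mem_ofPred_eq]
      rw [add_tsub_cancel_of_le h.le]
      exact hx.2.2

end Pool.Agent.Lib.MP_098ea1_pr.BR
end

section

/-!
# TASK BR SW: safe windows

`p` of `safe_bound`. Let `X x = W (s + x) - W s`, `s = s N k` (`BM_shift`), and `Y x = ell⁻¹ • X (ell² x)` (`BM_scale`, `a = ell` as an element of `ℝ≥0`). If `UnsE N k i (path W ω)` holds at `x = s + ell² x'` then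
`uns i (Y x' ω)`. So `{UnsE}` is contained in the complement of `{∀ x, ¬ uns i (Y x ω)}`, which is measurable (`meas_exists`).
-/

set_option autoImplicit false

open MeasureTheory ProbabilityTheory Set Filter Topology
open scoped NNReal ENNReal

namespace Pool.Agent.Lib.MP_098ea1_pr.BR

universe u

theorem uns_bound : ∃ p : ℝ, 0 < p ∧ p ≤ 1 ∧ ∀ {Ω : Type u} [MeasurableSpace Ω] (P : Measure Ω)
    [IsProbabilityMeasure P] (W : ℝ≥0 → Ω → V), BM W P → ∀ (N k : ℕ) (i : Fin 3), 2 ≤ N →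
    P {ω | UnsE N k i (path W ω)} ≤ ENNReal.ofReal (1 - p) := by
  obtain ⟨p, hp0, hp1, hp⟩ := safe_bound.{u}
  refine ⟨p, hp0, hp1, ?_⟩
  intro Ω _ P _ W hW N k i hN
  obtain ⟨a, ha⟩ : ∃ a : ℝ≥0, a = ((N : ℝ≥0) ^ (6 * k))⁻¹ := ⟨_, rfl⟩
  have haell : (a : ℝ) = ell N k := by
    rw [ha, ell]
    push_cast
    rfl
  have ha0 : 0 < a := by
    have h1 : (0 : ℝ) < (a : ℝ) := by
      rw [haell]
      exact ell_pos hN k
    exact_mod_cast h1
  have hX := BM_shift hW (s N k)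
  have hY := BM_scale hX ha0
  have hsafe := hp P _ hY i
  -- the bad event of the scaled process
  have hmeas := meas_exists (inferInstance : MeasurableSpace Ω)
    (fun x ω => ((a : ℝ)⁻¹) • fwd (path W ω) (s N k) (a ^ 2 * x)) Set.univ
    (fun t _ => hY.meas t) (fun ω => hY.cont ω) {v | uns i v} (RM_uns_open i)
  have hsub : {ω | UnsE N k i (path W ω)} ⊆
      {ω | ∃ t ∈ Set.univ, ((a : ℝ)⁻¹) • fwd (path W ω) (s N k) (a ^ 2 * t) ∈ {v | uns i v}} := by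
    rintro ω ⟨x, hx, hu⟩
    refine ⟨(x - s N k) / a ^ 2, Set.mem_univ _, ?_⟩
    have h1 : a ^ 2 * ((x - s N k) / a ^ 2) = x - s N k :=
      mul_div_cancel₀ _ (pow_ne_zero 2 ha0.ne')
    have h2 : s N k + (x - s N k) = x := add_tsub_cancel_of_le hx.1
    show uns i (((a : ℝ)⁻¹) • fwd (path W ω) (s N k) (a ^ 2 * ((x - s N k) / a ^ 2)))
    rw [h1, fwd, h2, haell]
    exact hu
  refine (measure_mono hsub).trans ?_
  have hcompl : {ω | ∃ t ∈ Set.univ, ((a : ℝ)⁻¹) • fwd (path W ω) (s N k) (a ^ 2 * t) ∈ {v | uns i v}}ᶜ =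
      {ω | ∀ x : ℝ≥0, ¬ uns i (((a : ℝ)⁻¹) • fwd (path W ω) (s N k) (a ^ 2 * x))} := by
    ext ω
    simp
  have h3 := measure_compl hmeas.compl (measure_ne_top P _)
  rw [compl_compl, hcompl, measure_univ] at h3
  rw [h3, ENNReal.ofReal_sub 1 hp0.le, ENNReal.ofReal_one]
  exact tsub_le_tsub_left hsafe 1

end Pool.Agent.Lib.MP_098ea1_pr.BR
end

section

/-!
# TASK BR AS: the dimension of the bad points, first version

`δ = min 1 (log (1/q) / (12 log N)) > 0`, so `(ell N n)^(-δ) = N^(6 n δ) ≤ (q⁻¹)^(n/2)`. Fix `W, i, a, τ, T, A, k1`; `C` from `EvE_bound`, `Y n` from `cells_exist` (`Classical.choose`), `E n y = {ω | EvE N n k1 i τ (Icc (2τ) T) y (path W ω)}`, `r n = ell N n`, `d = 1 - δ` in `ℝ≥0`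
(`δ ≤ 1`), `n0 = k1`. `∑_y P (E n y) (r n)^d ≤ (2A+3)² (ell n)^(-2) · C (n+1) ell n q^n · (ell n)^(1-δ) = (2A+3)² C (n+1) q^n (ell n)^(-δ) ≤ (2A+3)² C (n+1) (√q)^n =: a n`, summable (`summable_pow_mul_geometric_of_norm_lt_one`). `dim_bound`.
-/

set_option autoImplicit false

open MeasureTheory ProbabilityTheory Set Filter Topology
open scoped NNReal ENNReal

namespace Pool.Agent.Lib.MP_098ea1_pr.BR

universe u

theorem badT_dim {N : ℕ} {q : ℝ} (hC : Core.{u} N q) : ∃ δ : ℝ, 0 < δ ∧ δ ≤ 1 ∧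
    ∀ {Ω : Type u} [MeasurableSpace Ω] (P : Measure Ω) [IsProbabilityMeasure P] (W : ℝ≥0 → Ω → V), BM W P →
    ∀ (i : Fin 3) (a : ℝ) (τ T : ℝ≥0) (A k1 : ℕ), 0 < τ → e N k1 ≤ τ →
    ∀ᵐ ω ∂P, dimH (BadT N k1 i a τ T A (path W ω)) ≤ ENNReal.ofReal (1 - δ) := by
  have hN := hC.hN
  have hNr : (2 : ℝ) ≤ N := by exact_mod_cast hN
  have hlogN : 0 < Real.log N := Real.log_pos (by linarith)
  have hq0 := hC.q0
  have hlogq : Real.log q < 0 := Real.log_neg hq0 hC.q1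
  set δ : ℝ := min 1 (-Real.log q / (12 * Real.log N)) with hδdef
  have hδ0 : 0 < δ := lt_min one_pos (div_pos (by linarith) (by positivity))
  have hδ1 : δ ≤ 1 := min_le_left _ _
  have hδ2 : δ * (12 * Real.log N) ≤ -Real.log q :=
    (le_div_iff₀ (by positivity)).1 (min_le_right _ _)
  refine ⟨δ, hδ0, hδ1, ?_⟩
  have hkey : ∀ n : ℕ, ell N n ^ (-δ) * q ^ n ≤ (Real.sqrt q) ^ n := by
    intro n
    have hl : Real.log (ell N n) = -(6 * n) * Real.log N := by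
      unfold ell
      rw [Real.log_inv, Real.log_pow]
      push_cast
      ring
    rw [Real.rpow_def_of_pos (ell_pos hN n), hl]
    have h1 : q ^ n = Real.exp (n * Real.log q) := by
      rw [Real.exp_nat_mul, Real.exp_log hq0]
    have h2 : Real.sqrt q ^ n = Real.exp (n * (Real.log q / 2)) := by
      rw [Real.exp_nat_mul, ← Real.log_sqrt hq0.le, Real.exp_log (Real.sqrt_pos.2 hq0)]
    rw [h1, h2, ← Real.exp_add]
    apply Real.exp_le_exp.2
    have hn : (0 : ℝ) ≤ n := Nat.cast_nonneg n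
    nlinarith [mul_le_mul_of_nonneg_left hδ2 hn]
  intro Ω _ P _ W hW i a τ T A k1 hτ he
  obtain ⟨C, hC0, hE⟩ := EvE_bound hC hW i hτ T k1 he
  choose Y hY1 hY2 using fun n => cells_exist hN n k1 i a τ T A
  have hd : ((Real.toNNReal (1 - δ) : ℝ≥0) : ℝ) = 1 - δ := Real.coe_toNNReal _ (by linarith)
  have hsq1 : Real.sqrt q < 1 := by
    rw [Real.sqrt_lt' one_pos]
    simpa using hC.q1
  have hsum : Summable (fun n : ℕ => (2 * (A : ℝ) + 3) ^ 2 * C * ((n : ℝ) + 1) * (Real.sqrt q) ^ n) := by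
    have h1 : Summable (fun n : ℕ => (n : ℝ) ^ 1 * (Real.sqrt q) ^ n) :=
      summable_pow_mul_geometric_of_norm_lt_one 1 (by
        rw [Real.norm_eq_abs, abs_of_nonneg (Real.sqrt_nonneg q)]
        exact hsq1)
    have h2 : Summable (fun n : ℕ => (Real.sqrt q) ^ n) :=
      summable_geometric_of_lt_one (Real.sqrt_nonneg q) hsq1
    have h3 := (h1.add h2).mul_left ((2 * (A : ℝ) + 3) ^ 2 * C)
    refine h3.congr fun n => ?_
    simp only [pow_one]
    ring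
  exact dim_bound P (fun ω => BadT N k1 i a τ T A (path W ω)) Y
    (fun n y => {ω | EvE N n k1 i τ (Set.Icc (2 * τ) T) y (path W ω)}) (ell N) (ell_pos hN)
    (ell_tendsto hN) (Real.toNNReal (1 - δ))
    (fun n => ENNReal.ofReal ((2 * (A : ℝ) + 3) ^ 2 * C * ((n : ℝ) + 1) * (Real.sqrt q) ^ n))
    hsum.tsum_ofReal_ne_top k1 (by
      intro n hn
      have hl0 := ell_pos hN n
      have h1 : ∀ y ∈ Y n, P {ω | EvE N n k1 i τ (Set.Icc (2 * τ) T) y (path W ω)} *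
          ENNReal.ofReal (ell N n ^ ((Real.toNNReal (1 - δ) : ℝ≥0) : ℝ)) ≤
          ENNReal.ofReal (C * (n + 1) * ell N n * q ^ n * ell N n ^ (1 - δ)) := by
        intro y _
        rw [hd, ENNReal.ofReal_mul (by positivity)]
        exact mul_le_mul_left (hE n hn y) _
      refine (Finset.sum_le_sum h1).trans ?_
      rw [Finset.sum_const, nsmul_eq_mul, ← ENNReal.ofReal_natCast, ← ENNReal.ofReal_mul (by positivity)]
      apply ENNReal.ofReal_le_ofReal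
      have h2 : ell N n ^ (1 - δ) = ell N n * ell N n ^ (-δ) := by
        rw [sub_eq_add_neg, Real.rpow_add hl0, Real.rpow_one]
      rw [h2]
      have h3 : 0 < ell N n ^ (-δ) := Real.rpow_pos_of_pos hl0 _
      calc ((Y n).card : ℝ) * (C * (n + 1) * ell N n * q ^ n * (ell N n * ell N n ^ (-δ)))
          ≤ ((2 * A + 3) ^ 2 * ((ell N n) ^ 2)⁻¹) *
            (C * (n + 1) * ell N n * q ^ n * (ell N n * ell N n ^ (-δ))) :=
            mul_le_mul_of_nonneg_right (hY1 n) (by positivity)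
        _ = (2 * A + 3) ^ 2 * C * (n + 1) * (ell N n ^ (-δ) * q ^ n) := by
            field_simp
        _ ≤ (2 * A + 3) ^ 2 * C * (n + 1) * (Real.sqrt q) ^ n :=
            mul_le_mul_of_nonneg_left (hkey n) (by positivity)) (by
      intro n _ ω x hx
      exact hY2 n (path W ω) x hx)

end Pool.Agent.Lib.MP_098ea1_pr.BR
end

section

/-!
# TASK BR RF: the dimension of the bad points

`δ` of `badT_dim`. For all (countably many) `i`, `a : ℚ`, `m, T, A, k1` with `e N k1 ≤ 1/(m+1)` the estimate of `badT_dim` holds almost surely, so almost surely for all of them (`ae_all_iff`); then `Bad_subset`, `dimH_union`, `dimH_iUnion`, `dimH_singleton` (or `dimH_subsingleton`).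
-/

set_option autoImplicit false

open MeasureTheory ProbabilityTheory Set Filter Topology
open scoped NNReal ENNReal

namespace Pool.Agent.Lib.MP_098ea1_pr.BR

universe u

theorem bad_dim {N : ℕ} {q : ℝ} (hC : Core.{u} N q) : ∃ δ : ℝ, 0 < δ ∧ δ ≤ 1 ∧
    ∀ {Ω : Type u} [MeasurableSpace Ω] (P : Measure Ω) [IsProbabilityMeasure P] (W : ℝ≥0 → Ω → V), BM W P →
    ∀ᵐ ω ∂P, ∀ (i : Fin 3) (a : ℚ) (k0 : ℕ),
      dimH (Bad N k0 i (a : ℝ) (Set.range (path W ω))) ≤ ENNReal.ofReal (1 - δ) := by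
  obtain ⟨δ, hδ, hδ1, hmain⟩ := badT_dim hC
  refine ⟨δ, hδ, hδ1, ?_⟩
  intro Ω _ P _ W hW
  have h1 : ∀ᵐ ω ∂P, ∀ (i : Fin 3) (a : ℚ) (m T A k1 : ℕ), e N k1 ≤ 1 / ((m : ℝ≥0) + 1) →
      dimH (BadT N k1 i (a : ℝ) (1 / ((m : ℝ≥0) + 1)) (T : ℝ≥0) A (path W ω)) ≤
        ENNReal.ofReal (1 - δ) := by
    rw [ae_all_iff]; intro i
    rw [ae_all_iff]; intro a
    rw [ae_all_iff]; intro m
    rw [ae_all_iff]; intro T
    rw [ae_all_iff]; intro A
    rw [ae_all_iff]; intro k1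
    rw [ae_all_iff]; intro hk
    exact hmain P W hW i (a : ℝ) (1 / ((m : ℝ≥0) + 1)) (T : ℝ≥0) A k1 (by positivity) hk
  filter_upwards [h1] with ω h2
  intro i a k0
  have hsub := Bad_subset (path W ω) (hW.cont ω) (hW.zero ω) hC.hN k0 i (a : ℝ)
  refine (dimH_mono hsub).trans ?_
  rw [dimH_union, dimH_iUnion]
  refine max_le ?_ (iSup_le (fun m => ?_))
  · rw [dimH_singleton]
    exact zero_le
  · rw [dimH_iUnion]
    refine iSup_le (fun T => ?_)
    rw [dimH_iUnion]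
    refine iSup_le (fun A => ?_)
    rw [dimH_iUnion]
    refine iSup_le (fun k1 => ?_)
    rw [dimH_iUnion]
    refine iSup_le (fun hk => ?_)
    exact h2 i a m T A k1 hk

end Pool.Agent.Lib.MP_098ea1_pr.BR
end
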