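import Pool.Agent.Lib.MP_098ea1_pr.Mg.G001
import Pool.Agent.Lib.MP_098ea1_pr.Mg.G003
import Pool.Agent.Lib.MP_098ea1_pr.Mg.G002
import Pool.Agent.Lib.MP_098ea1_pr.Mg.G005
import Pool.Agent.Lib.MP_098ea1_pr.Mg.G004

section

/-!
# TASK BR LO: unsafe windows

`p` of `uns_bound`, `q = 1 - p²`. For `k ∈ A`: `{UnsE N k i (fwd ..)}` is in `fut W c`, `{UnsE N k i (bwd ..)}` is in `past W c` (`UnsE_meas`, window times `≤ e N k ≤ c`), so the complements are independent
(`indep_past_fut`, `indep_inter`), and each complement has probability at least `p` (`uns_bound` for the Brownian motions `BM_shift`, `BM_reverse`). So the union has probability at most `1 - p²`. Then `loc_prod` and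
`Finset.prod_le_pow_card`.
-/

set_option autoImplicit false

open MeasureTheory ProbabilityTheory Set Filter Topology
open scoped NNReal ENNReal

namespace Pool.Agent.Lib.MP_098ea1_pr.BR

universe u

private theorem LO_one {Ω : Type u} [mΩ : MeasurableSpace Ω] (P : Measure Ω) [IsProbabilityMeasure P]
    (W : ℝ≥0 → Ω → V) (hW : BM W P) {N k : ℕ} (i : Fin 3) {c : ℝ≥0} (hN : 2 ≤ N) (hk : e N k ≤ c) {p : ℝ}
    (h0 : 0 < p) (h1 : P {ω | UnsE N k i (fwd (path W ω) c)} ≤ ENNReal.ofReal (1 - p))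
    (h2 : P {ω | UnsE N k i (bwd (path W ω) c)} ≤ ENNReal.ofReal (1 - p)) (hp1 : p ≤ 1) :
    P {ω | UnsE N k i (fwd (path W ω) c) ∨ UnsE N k i (bwd (path W ω) c)} ≤ ENNReal.ofReal (1 - p ^ 2) := by
  have hsc : s N k ≤ c := (s_lt_e hN k).le.trans hk
  have m1 : MeasurableSet[fut W c] {ω | UnsE N k i (fwd (path W ω) c)} := by
    refine UnsE_meas (fut W c) N k i (fun x ω => fwd (path W ω) c x) (fun t _ => ?_) (fun ω => ?_)
    · have a1 : Measurable[fut W c] (fun ω => W (c + t) ω - W c ω) := fut_meas W le_self_add le_rfl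
      have a2 : Measurable[fut W c] (fun ω => W (c + s N k) ω - W c ω) := fut_meas W le_self_add le_rfl
      exact a1.sub a2
    · exact ((hW.cont ω).comp (continuous_const.add continuous_id)).sub continuous_const
  have m2 : MeasurableSet[past W c] {ω | UnsE N k i (bwd (path W ω) c)} := by
    refine UnsE_meas (past W c) N k i (fun x ω => bwd (path W ω) c x) (fun t ht => ?_) (fun ω => ?_)
    · have htc : t ≤ c := ht.2.trans hk
      have e1 : (fun ω => bwd (path W ω) c t - bwd (path W ω) c (s N k)) =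
          fun ω => (W (c - t) ω - W c ω) - (W (c - s N k) ω - W c ω) := by
        funext ω
        simp only [bwd, if_pos htc, if_pos hsc, path]
      rw [e1]
      have a1 : Measurable[past W c] (W (c - t)) := past_meas W tsub_le_self
      have a2 : Measurable[past W c] (W (c - s N k)) := past_meas W tsub_le_self
      have a3 : Measurable[past W c] (W c) := past_meas W le_rfl
      exact (a1.sub a3).sub (a2.sub a3)
    · exact bwd_continuous (path W ω) (hW.cont ω) (hW.zero ω) c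
  have M1 := fut_le W hW.meas c _ m1
  have M2 := past_le W hW.meas c _ m2
  have hind := indep_inter P (indep_past_fut hW c) m2.compl m1.compl
  set E1 := {ω | UnsE N k i (fwd (path W ω) c)} with hE1
  set E2 := {ω | UnsE N k i (bwd (path W ω) c)} with hE2
  have hU : {ω | UnsE N k i (fwd (path W ω) c) ∨ UnsE N k i (bwd (path W ω) c)} = E1 ∪ E2 := rfl
  rw [hU]
  have r1 : P.real E1 ≤ 1 - p := ENNReal.toReal_le_of_le_ofReal (by linarith) h1
  have r2 : P.real E2 ≤ 1 - p := ENNReal.toReal_le_of_le_ofReal (by linarith) h2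
  have c1 : P.real E1ᶜ = 1 - P.real E1 := probReal_compl_eq_one_sub M1
  have c2 : P.real E2ᶜ = 1 - P.real E2 := probReal_compl_eq_one_sub M2
  have c3 : P.real (E1 ∪ E2)ᶜ = 1 - P.real (E1 ∪ E2) := probReal_compl_eq_one_sub (M1.union M2)
  have c4 : P.real (E1 ∪ E2)ᶜ = P.real E2ᶜ * P.real E1ᶜ := by
    rw [Set.compl_union, Set.inter_comm, Measure.real, hind, ENNReal.toReal_mul]
    rfl
  have r3 : p ^ 2 ≤ P.real E2ᶜ * P.real E1ᶜ := by
    rw [sq]
    exact mul_le_mul (by linarith) (by linarith) h0.le (by linarith)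
  have r4 : P.real (E1 ∪ E2) ≤ 1 - p ^ 2 := by linarith
  rw [← ofReal_measureReal]
  exact ENNReal.ofReal_le_ofReal r4

theorem loc_bound : ∃ q : ℝ, 0 ≤ q ∧ q < 1 ∧ ∀ {Ω : Type u} [MeasurableSpace Ω] (P : Measure Ω)
    [IsProbabilityMeasure P] (W : ℝ≥0 → Ω → V), BM W P → ∀ (N : ℕ) (i : Fin 3) (c : ℝ≥0) (A : Finset ℕ), 2 ≤ N →
    (∀ k ∈ A, e N k ≤ c) →
    P {ω | ∀ k ∈ A, UnsE N k i (fwd (path W ω) c) ∨ UnsE N k i (bwd (path W ω) c)} ≤ ENNReal.ofReal (q ^ A.card) := by
  obtain ⟨p, hp0, hp1, hp⟩ := uns_bound.{u}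
  have hq0 : 0 ≤ 1 - p ^ 2 := by nlinarith
  refine ⟨1 - p ^ 2, hq0, by nlinarith [pow_pos hp0 2], ?_⟩
  intro Ω _ P _ W hW N i c A hN hA
  rw [loc_prod hW hN i c A hA, ENNReal.ofReal_pow hq0]
  refine Finset.prod_le_pow_card _ _ _ fun k hk => ?_
  exact LO_one P W hW i hN (hA k hk) hp0
    (hp P (fun x ω => fwd (path W ω) c x) (BM_shift hW c) N k i hN)
    (hp P (fun x ω => bwd (path W ω) c x) (BM_reverse hW c) N k i hN) hp1

end Pool.Agent.Lib.MP_098ea1_pr.BR
end

section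

/-!
# TASK BR OW: return to scale `k` after the time `s N j`

`C` of `hit_bound`. The times are `x ≥ a := s N j - θ ≥ s N j / 2` (`two_s`: `θ ≤ s N (j+1) ≤ s N j / 2`); `hit_bound`: probability at most `C · 4 ell N k / √a ≤ C · 4 √2 ell N k / √(s N j) = 4√2 C N^3 ell N k / ell N j`
(`sqrt_s`) `= 4√2 C N^3 N^(-6 (k-j))` (`ell_mul`) `≤ 6 C N^(-3 (k-j))` since `3 ≤ 3 (k - j)`.
`ret_zero`: the same with `e N 0` in place of `s N j`: `a = e N 0 - θ ≥ e N 0/2`, `4 ell N 0/√a ≤ 4√2 / N^3`.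
-/

set_option autoImplicit false

open MeasureTheory ProbabilityTheory Set Filter Topology
open scoped NNReal ENNReal

namespace Pool.Agent.Lib.MP_098ea1_pr.BR

universe u

private theorem OW_sqrt {a b : ℝ≥0} (h : b ≤ 2 * a) : 2 / 3 * Real.sqrt b ≤ Real.sqrt a := by
  apply Real.le_sqrt_of_sq_le
  rw [mul_pow, Real.sq_sqrt b.coe_nonneg]
  have h1 : (b : ℝ) ≤ 2 * a := by exact_mod_cast h
  have h2 : (0 : ℝ) ≤ a := a.coe_nonneg
  nlinarith

theorem ret_bound : ∃ C : ℝ, 1 ≤ C ∧ ∀ {Ω : Type u} [MeasurableSpace Ω] (P : Measure Ω) [IsProbabilityMeasure P]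
    (W : ℝ≥0 → Ω → V), BM W P → ∀ (N j k : ℕ) (θ : ℝ≥0) (z : V), 2 ≤ N → j < k → θ ≤ s N (j + 1) →
    P {ω | ∃ x : ℝ≥0, s N j ≤ θ + x ∧ ‖z + W x ω‖ < 4 * ell N k} ≤
      ENNReal.ofReal (C * (((N : ℝ) ^ 3)⁻¹) ^ (k - j)) := by
  obtain ⟨C, hC1, hC⟩ := hit_bound.{u}
  refine ⟨6 * C, by linarith, ?_⟩
  intro Ω _ P _ W hW N j k θ z hN hjk hθ
  have hs := two_s hN (Nat.lt_succ_self j)
  have hθ2 : 2 * θ ≤ s N j := (mul_le_mul_of_nonneg_left hθ (by norm_num)).trans hs
  have hspos := s_pos hN j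
  have ha2 : s N j ≤ 2 * (s N j - θ) := by
    rw [mul_tsub, two_mul (s N j)]
    refine le_tsub_of_add_le_left ?_
    exact add_le_add_left hθ2 _
  have ha0 : 0 < s N j - θ := by
    rcases (s N j - θ).2.lt_or_eq with h | h
    · exact h
    · exfalso
      have h' : s N j - θ = 0 := Subtype.ext h.symm
      rw [h', mul_zero] at ha2
      exact absurd hspos (not_lt.2 ha2)
  have hk0 := ell_pos hN k
  have hj0 := ell_pos hN j
  have hNr : (2 : ℝ) ≤ N := by exact_mod_cast hN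
  refine (measure_mono ?_).trans ((hC P W hW z (s N j - θ) (4 * ell N k) ha0 (by linarith)).trans ?_)
  · rintro ω ⟨x, hx, hx2⟩
    exact ⟨x, tsub_le_iff_left.2 hx, hx2⟩
  · apply ENNReal.ofReal_le_ofReal
    have h1 := OW_sqrt ha2
    rw [sqrt_s hN j] at h1
    have h2 : 0 < 2 / 3 * (ell N j / (N : ℝ) ^ 3) := by positivity
    have h3 : 4 * ell N k / Real.sqrt (s N j - θ : ℝ≥0) ≤ 4 * ell N k / (2 / 3 * (ell N j / (N : ℝ) ^ 3)) :=
      div_le_div_of_nonneg_left (by positivity) h2 h1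
    have h4 : 4 * ell N k / (2 / 3 * (ell N j / (N : ℝ) ^ 3)) = 6 * ((N : ℝ) ^ 3 / (N : ℝ) ^ (6 * (k - j))) := by
      rw [ell_mul hN hjk.le]
      field_simp
      ring
    have h5 : (N : ℝ) ^ 3 / (N : ℝ) ^ (6 * (k - j)) ≤ (((N : ℝ) ^ 3)⁻¹) ^ (k - j) := by
      rw [inv_pow, ← pow_mul, div_le_iff₀ (by positivity), inv_mul_eq_div, le_div_iff₀ (by positivity), ← pow_add]
      exact pow_le_pow_right₀ (by linarith) (by omega)
    calc C * (4 * ell N k / Real.sqrt (s N j - θ : ℝ≥0))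
        ≤ C * (6 * (((N : ℝ) ^ 3)⁻¹) ^ (k - j)) := by
          apply mul_le_mul_of_nonneg_left _ (by linarith)
          exact h3.trans (h4.le.trans (by linarith))
      _ = 6 * C * (((N : ℝ) ^ 3)⁻¹) ^ (k - j) := by ring

theorem ret_zero : ∃ C : ℝ, 1 ≤ C ∧ ∀ {Ω : Type u} [MeasurableSpace Ω] (P : Measure Ω) [IsProbabilityMeasure P]
    (W : ℝ≥0 → Ω → V), BM W P → ∀ (N : ℕ) (θ : ℝ≥0) (z : V), 2 ≤ N → θ ≤ s N 0 →
    P {ω | ∃ x : ℝ≥0, e N 0 ≤ θ + x ∧ ‖z + W x ω‖ < 4 * ell N 0} ≤ ENNReal.ofReal (C * ((N : ℝ) ^ 3)⁻¹) := by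
  obtain ⟨C, hC1, hC⟩ := hit_bound.{u}
  refine ⟨6 * C, by linarith, ?_⟩
  intro Ω _ P _ W hW N θ z hN hθ
  have hNr : (2 : ℝ) ≤ N := by exact_mod_cast hN
  have hNn : (2 : ℝ≥0) ≤ N := by exact_mod_cast hN
  have hs1 : s N 0 ≤ 1 := by
    unfold s
    exact inv_le_one_of_one_le₀ (one_le_pow₀ (le_trans (by norm_num) hNn))
  have he2 : 2 ≤ e N 0 := by
    unfold e
    rw [mul_zero, pow_zero, inv_one, mul_one]
    calc (2 : ℝ≥0) ≤ N := hNn
      _ = (N : ℝ≥0) ^ 1 := (pow_one _).symm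
      _ ≤ (N : ℝ≥0) ^ 6 := pow_le_pow_right₀ (le_trans (by norm_num) hNn) (by norm_num)
  have hθ2 : 2 * θ ≤ e N 0 := by
    calc 2 * θ ≤ 2 * 1 := mul_le_mul_of_nonneg_left (hθ.trans hs1) (by norm_num)
      _ = 2 := by norm_num
      _ ≤ e N 0 := he2
  have hspos := e_pos hN 0
  have ha2 : e N 0 ≤ 2 * (e N 0 - θ) := by
    rw [mul_tsub, two_mul (e N 0)]
    refine le_tsub_of_add_le_left ?_
    exact add_le_add_left hθ2 _
  have ha0 : 0 < e N 0 - θ := by
    rcases (e N 0 - θ).2.lt_or_eq with h | h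
    · exact h
    · exfalso
      have h' : e N 0 - θ = 0 := Subtype.ext h.symm
      rw [h', mul_zero] at ha2
      exact absurd hspos (not_lt.2 ha2)
  have hk0 := ell_pos hN 0
  refine (measure_mono ?_).trans ((hC P W hW z (e N 0 - θ) (4 * ell N 0) ha0 (by linarith)).trans ?_)
  · rintro ω ⟨x, hx, hx2⟩
    exact ⟨x, tsub_le_iff_left.2 hx, hx2⟩
  · apply ENNReal.ofReal_le_ofReal
    have h1 := OW_sqrt ha2
    rw [sqrt_e hN 0] at h1
    have h2 : 0 < 2 / 3 * (ell N 0 * (N : ℝ) ^ 3) := by positivity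
    have h3 : 4 * ell N 0 / Real.sqrt (e N 0 - θ : ℝ≥0) ≤ 4 * ell N 0 / (2 / 3 * (ell N 0 * (N : ℝ) ^ 3)) :=
      div_le_div_of_nonneg_left (by positivity) h2 h1
    have h4 : 4 * ell N 0 / (2 / 3 * (ell N 0 * (N : ℝ) ^ 3)) = 6 * ((N : ℝ) ^ 3)⁻¹ := by
      field_simp
      ring
    calc C * (4 * ell N 0 / Real.sqrt (e N 0 - θ : ℝ≥0))
        ≤ C * (6 * ((N : ℝ) ^ 3)⁻¹) := by
          apply mul_le_mul_of_nonneg_left _ (by linarith)
          exact h3.trans h4.le
      _ = 6 * C * ((N : ℝ) ^ 3)⁻¹ := by ring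

end Pool.Agent.Lib.MP_098ea1_pr.BR
end

section

/-!
# TASK BR OU: repeated returns

`C` = maximum of the two constants of `ret_bound`, `ret_zero`; `K ≥ 1` with `K³ ≥ 1 + C`, for example `K = 1 + C`. `q = K/N ≤ 1`. Induction on the cardinality of `A` (generalizing everything). `A = ∅`: `P ≤ 1`. Otherwise
`k = max A < b`.
`k = 0`: `A = {0}`; `θ ≤ s N b ≤ s N 0`; `ret_zero`: `P ≤ C/N^3 ≤ q^3 ≤ q`.
`k ≥ 1`: let `ω` be in the event, `x` the time of `k`; `windows_cover` for `θ + x`: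
(a) `s N 0 ≤ θ + x`: by `ret_bound` with `j = 0` (`θ ≤ s N b ≤ s N 1`): probability at most `C (N^3)^(-k)`; `A ⊆ {0..k}` so `card A ≤ k + 1 ≤ k + 2`: at most `C x^k q^(card A - (k+2))` (the power is 1).
(b) `s N j ≤ θ + x ≤ e N j`, `1 ≤ j < k`. Let `v = e N j - θ` (`θ ≤ s N b ≤ e N j`), `A' = A.filter (· < j - 1)`. The event `R = {∃ x, s N j ≤ θ + x ∧ θ + x ≤ e N j ∧ ‖z + W x‖ < 4 ell k}` is in `past W v`
(`meas_exists`), `P R ≤ C x^(k-j)` (`ret_bound`, `θ ≤ s N b ≤ s N (j+1)`). For `k' ∈ A'`: `e N k' ≥ e N (j-2)..`, more precisely `e N k' > e N j`, so its time `x'` satisfies `θ + x' ≥ e N k' ≥ e N j`, `x' ≥ v`, `x' = v + x''`,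
`e N j + x'' = θ + x' ≥ e N k'` and `z + W x' = (z + W v) + (W (v+x'') - W v)`. So `ω` is in `{(ω, ω) ∈ B}`, `B = {(ω', ω) | ∀ k' ∈ A', ∃ x'', e N k' ≤ e N j + x'' ∧ ‖(z + W v ω') + (W (v+x'') ω - W v ω)‖ < 4 ell k'}`,
measurable for `(past W v).prod (fut W v)`; its sections have probability at most `q^(card A')` by induction (Brownian motion `W (v+·) - W v`, `θ' = e N j = s N (j-1)`, `b' = j - 1`, `A' ⊆ range (j-1)`, fewer elements as `k ∉ A'`).
`markov_le`: probability at most `C x^(k-j) q^(card A')`, and `card A' ≥ card A - (k - j + 2)` (the elements of `A \ A'` are in `[j-1, k]`).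
Sum over `i = k - j ∈ {1..k-1}` and `i = k` for (a): `sum_bound` with `n = card A`.
`out_bound`: `θ = 0`, `z = 0`, `b = max A + 1`.
-/

set_option autoImplicit false

open MeasureTheory ProbabilityTheory Set Filter Topology
open scoped NNReal ENNReal

namespace Pool.Agent.Lib.MP_098ea1_pr.BR

universe u

/-- One window of the induction. -/
private theorem OU_step {Ω : Type u} [MeasurableSpace Ω] {P : Measure Ω} [IsProbabilityMeasure P] {W : ℝ≥0 → Ω → V}
    (hW : BM W P) {N : ℕ} (hN : 2 ≤ N) {j k : ℕ} {θ : ℝ≥0} (hθ : θ ≤ s N (j + 1)) (z : V)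
    (A' : Finset ℕ) (hA' : ∀ k' ∈ A', k' < j) (p1 p2 : ℝ≥0∞)
    (h1 : P {ω | ∃ x : ℝ≥0, s N j ≤ θ + x ∧ ‖z + W x ω‖ < 4 * ell N k} ≤ p1)
    (h2 : ∀ z' : V, P {ω | ∀ k' ∈ A', ∃ x : ℝ≥0, e N k' ≤ e N j + x ∧
      ‖z' + fwd (path W ω) (e N j - θ) x‖ < 4 * ell N k'} ≤ p2) :
    P {ω | (∃ x : ℝ≥0, s N j ≤ θ + x ∧ θ + x ≤ e N j ∧ ‖z + W x ω‖ < 4 * ell N k) ∧
      ∀ k' ∈ A', ∃ x : ℝ≥0, e N k' ≤ θ + x ∧ ‖z + W x ω‖ < 4 * ell N k'} ≤ p1 * p2 := by
  have hθe : θ ≤ e N j := hθ.trans ((s_anti hN (Nat.le_succ j)).trans (s_lt_e hN j).le)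
  obtain ⟨v, hv⟩ : ∃ v, v = e N j - θ := ⟨_, rfl⟩
  have hθv : θ + v = e N j := by rw [hv]; exact add_tsub_cancel_of_le hθe
  rw [← hv] at h2
  let R : Set Ω := {ω | ∃ x ∈ {x : ℝ≥0 | s N j ≤ θ + x ∧ θ + x ≤ e N j}, W x ω ∈ {w : V | ‖z + w‖ < 4 * ell N k}}
  let B : Set (Ω × Ω) := {p | ∀ k' ∈ A', ∃ x ∈ {x : ℝ≥0 | e N k' ≤ e N j + x},
    (z + W v p.1) + (W (v + x) p.2 - W v p.2) ∈ {w : V | ‖w‖ < 4 * ell N k'}}
  have hR : MeasurableSet[past W v] R := by
    refine meas_exists (past W v) W _ (fun x hx => past_meas W ?_) hW.cont _ ?_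
    · have h3 : θ + x ≤ θ + v := by rw [hθv]; exact hx.2
      exact le_of_add_le_add_left h3
    · exact isOpen_lt (continuous_const.add continuous_id).norm continuous_const
  have hB : MeasurableSet[(past W v).prod (fut W v)] B := by
    have h3 : B = ⋂ k' ∈ A', {p : Ω × Ω | ∃ x ∈ {x : ℝ≥0 | e N k' ≤ e N j + x},
        (z + W v p.1) + (W (v + x) p.2 - W v p.2) ∈ {w : V | ‖w‖ < 4 * ell N k'}} := by
      ext p; simp only [B, Set.mem_ofPred_eq, Set.mem_iInter]
    rw [h3]
    refine MeasurableSet.biInter A'.countable_toSet (fun k' _ => ?_)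
    refine meas_exists ((past W v).prod (fut W v)) (fun x (p : Ω × Ω) => (z + W v p.1) + (W (v + x) p.2 - W v p.2)) _
      (fun x _ => ?_) (fun p => ?_) _ (isOpen_lt continuous_norm continuous_const)
    · have h4 : Measurable[(past W v).prod (fut W v)] (fun p : Ω × Ω => z + W v p.1) :=
        (measurable_const.add (past_meas W le_rfl)).comp (@measurable_fst Ω Ω (past W v) (fut W v))
      have h5 : Measurable[(past W v).prod (fut W v)] (fun p : Ω × Ω => W (v + x) p.2 - W v p.2) :=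
        (fut_meas W le_self_add le_rfl).comp (@measurable_snd Ω Ω (past W v) (fut W v))
      exact h4.add h5
    · exact continuous_const.add (((hW.cont p.2).comp (continuous_const.add continuous_id)).sub continuous_const)
  have key := markov_le P (past_le W hW.meas v) (fut_le W hW.meas v) (indep_past_fut hW v) hB hR p2 (fun ω' => by
    refine le_trans (measure_mono ?_) (h2 (z + W v ω'))
    intro ω hω k' hk'
    obtain ⟨x, hx1, hx2⟩ := hω k' hk'
    exact ⟨x, hx1, hx2⟩)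
  refine le_trans (measure_mono ?_) (key.trans (mul_le_mul_left (le_trans (measure_mono ?_) h1) p2))
  · rintro ω ⟨⟨x, hx1, hx2, hx3⟩, hrest⟩
    refine ⟨⟨x, ⟨hx1, hx2⟩, hx3⟩, ?_⟩
    intro k' hk'
    obtain ⟨x', hx'1, hx'2⟩ := hrest k' hk'
    have h3 : e N j ≤ e N k' := e_anti hN (hA' k' hk').le
    have h4 : v ≤ x' := by
      have h5 : θ + v ≤ θ + x' := by rw [hθv]; exact h3.trans hx'1
      exact le_of_add_le_add_left h5
    obtain ⟨x'', hx''⟩ := exists_add_of_le h4
    refine ⟨x'', ?_, ?_⟩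
    · change e N k' ≤ e N j + x''
      rw [← hθv, add_assoc, ← hx'']
      exact hx'1
    · change ‖(z + W v ω) + (W (v + x'') ω - W v ω)‖ < 4 * ell N k'
      rw [← hx'']
      have h5 : (z + W v ω) + (W x' ω - W v ω) = z + W x' ω := by abel
      rw [h5]
      exact hx'2
  · rintro ω ⟨x, hx1, hx2⟩
    exact ⟨x, hx1.1, hx2⟩

theorem out_gen : ∃ K : ℝ, 1 ≤ K ∧ ∀ {Ω : Type u} [MeasurableSpace Ω] (P : Measure Ω) [IsProbabilityMeasure P]
    (W : ℝ≥0 → Ω → V), BM W P → ∀ (N : ℕ), 2 ≤ N → K ≤ N → ∀ (b : ℕ) (θ : ℝ≥0), θ ≤ s N b →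
    ∀ A : Finset ℕ, (∀ k ∈ A, k < b) → ∀ z : V,
    P {ω | ∀ k ∈ A, ∃ x : ℝ≥0, e N k ≤ θ + x ∧ ‖z + W x ω‖ < 4 * ell N k} ≤ ENNReal.ofReal ((K / N) ^ A.card) := by
  obtain ⟨C1, hC1, hret⟩ := ret_bound.{u}
  obtain ⟨C2, hC2, hzero⟩ := ret_zero.{u}
  obtain ⟨C, hCdef⟩ : ∃ C, C = max C1 C2 := ⟨_, rfl⟩
  have hC1C : C1 ≤ C := hCdef ▸ le_max_left _ _
  have hC2C : C2 ≤ C := hCdef ▸ le_max_right _ _
  have hC : 1 ≤ C := hC1.trans hC1C
  refine ⟨1 + C, by linarith, ?_⟩
  intro Ω _ P _ W hW N hN hKN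
  have hN0 : (0 : ℝ) < N := by positivity
  obtain ⟨q, hq⟩ : ∃ q : ℝ, q = (1 + C) / N := ⟨_, rfl⟩
  have hq0 : 0 < q := by rw [hq]; positivity
  have hq1 : q ≤ 1 := by rw [hq, div_le_one hN0]; exact hKN
  rw [← hq]
  have main : ∀ (n : ℕ) (W : ℝ≥0 → Ω → V), BM W P → ∀ (b : ℕ) (θ : ℝ≥0), θ ≤ s N b →
      ∀ A : Finset ℕ, (∀ k ∈ A, k < b) → A.card = n → ∀ z : V,
      P {ω | ∀ k ∈ A, ∃ x : ℝ≥0, e N k ≤ θ + x ∧ ‖z + W x ω‖ < 4 * ell N k} ≤ ENNReal.ofReal (q ^ A.card) := by
    intro n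
    induction n using Nat.strong_induction_on with
    | _ n ih =>
      intro W hW b θ hθ A hA hcard z
      rcases A.eq_empty_or_nonempty with hAe | hAne
      · subst hAe
        simp only [Finset.card_empty, pow_zero, ENNReal.ofReal_one]
        exact prob_le_one
      obtain ⟨k, hk⟩ : ∃ k, k = A.max' hAne := ⟨_, rfl⟩
      have hkA : k ∈ A := hk ▸ A.max'_mem hAne
      have hkmax : ∀ k' ∈ A, k' ≤ k := fun k' h => hk ▸ A.le_max' k' h
      have hkb : k < b := hA k hkA
      rcases Nat.eq_zero_or_pos k with hk0 | hkpos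
      · -- `k = 0`
        have hA1 : A.card = 1 := by
          have h1 : A = {0} := by
            ext a
            constructor
            · intro ha
              have := hkmax a ha
              rw [hk0] at this
              simp [Nat.le_zero.mp this]
            · intro ha
              rw [Finset.mem_singleton] at ha
              rw [ha, ← hk0]
              exact hkA
          rw [h1, Finset.card_singleton]
        rw [hA1, pow_one]
        have h2 := hzero P W hW N θ z hN (hθ.trans (s_anti hN (Nat.zero_le b)))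
        refine le_trans (measure_mono ?_) (h2.trans (ENNReal.ofReal_le_ofReal ?_))
        · intro ω hω
          have := hω k hkA
          rw [hk0] at this
          exact this
        · rw [hq]
          have h3 : ((N : ℝ) ^ 3)⁻¹ ≤ (N : ℝ)⁻¹ := by
            apply inv_anti₀ hN0
            have hN1 : (1 : ℝ) ≤ N := by exact_mod_cast (by omega : 1 ≤ N)
            calc (N : ℝ) = (N : ℝ) ^ 1 := (pow_one _).symm
              _ ≤ (N : ℝ) ^ 3 := pow_le_pow_right₀ hN1 (by norm_num)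
          have h4 : (0 : ℝ) ≤ (N : ℝ)⁻¹ := by positivity
          calc C2 * ((N : ℝ) ^ 3)⁻¹ ≤ C * (N : ℝ)⁻¹ := by
                apply mul_le_mul hC2C h3 (by positivity) (by linarith)
            _ ≤ (1 + C) / N := by rw [div_eq_mul_inv]; nlinarith
      · -- `k ≥ 1`
        obtain ⟨x, hx⟩ : ∃ x : ℝ, x = ((N : ℝ) ^ 3)⁻¹ := ⟨_, rfl⟩
        have hx0 : 0 < x := by rw [hx]; positivity
        let E : ℕ → Set Ω := fun i => if i = k then
            {ω | ∃ x : ℝ≥0, s N 0 ≤ θ + x ∧ ‖z + W x ω‖ < 4 * ell N k}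
          else {ω | (∃ x : ℝ≥0, s N (k - i) ≤ θ + x ∧ θ + x ≤ e N (k - i) ∧ ‖z + W x ω‖ < 4 * ell N k) ∧
            ∀ k' ∈ A.filter (fun a => a < k - i - 1), ∃ x : ℝ≥0, e N k' ≤ θ + x ∧ ‖z + W x ω‖ < 4 * ell N k'}
        have hsub : {ω | ∀ k ∈ A, ∃ x : ℝ≥0, e N k ≤ θ + x ∧ ‖z + W x ω‖ < 4 * ell N k} ⊆
            ⋃ i ∈ Finset.Icc 1 k, E i := by
          intro ω hω
          obtain ⟨y, hy1, hy2⟩ := hω k hkA
          rw [Set.mem_iUnion₂]
          rcases windows_cover hN hkpos hy1 with h | ⟨j, hj1, hjk, hj2, hj3⟩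
          · refine ⟨k, Finset.mem_Icc.mpr ⟨hkpos, le_rfl⟩, ?_⟩
            simp only [E, if_true]
            exact ⟨y, h, hy2⟩
          · refine ⟨k - j, Finset.mem_Icc.mpr ⟨by omega, by omega⟩, ?_⟩
            have h1 : k - j ≠ k := by omega
            have h2 : k - (k - j) = j := by omega
            simp only [E, if_neg h1, h2]
            refine ⟨⟨y, hj2, hj3, hy2⟩, ?_⟩
            intro k' hk'
            exact hω k' (Finset.mem_filter.mp hk').1
        have hbound : ∀ i ∈ Finset.Icc 1 k, P (E i) ≤ ENNReal.ofReal (C * x ^ i * q ^ (n - (i + 2))) := by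
          intro i hi
          rw [Finset.mem_Icc] at hi
          by_cases hik : i = k
          · simp only [E, if_pos hik]
            have h1 := hret P W hW N 0 k θ z hN hkpos (hθ.trans (s_anti hN (by omega)))
            refine h1.trans (ENNReal.ofReal_le_ofReal ?_)
            have h2 : n ≤ k + 1 := by
              rw [← hcard]
              calc A.card ≤ (Finset.range (k + 1)).card :=
                    Finset.card_le_card (fun a ha => Finset.mem_range.mpr (Nat.lt_succ_of_le (hkmax a ha)))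
                _ = k + 1 := Finset.card_range _
            have h3 : n - (i + 2) = 0 := by omega
            rw [h3, pow_zero, mul_one, hik, Nat.sub_zero, ← hx]
            exact mul_le_mul_of_nonneg_right hC1C (by positivity)
          · simp only [E, if_neg hik]
            have hj1 : 1 ≤ k - i := by omega
            have hjk : k - i < k := by omega
            have hθ' : θ ≤ s N (k - i + 1) := hθ.trans (s_anti hN (by omega))
            have hlt : (A.filter (fun a => a < k - i - 1)).card < n := by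
              rw [← hcard]
              refine Finset.card_lt_card ⟨Finset.filter_subset _ _, fun h => ?_⟩
              have := (Finset.mem_filter.mp (h hkA)).2
              omega
            have h2 := OU_step hW hN (j := k - i) (k := k) hθ' z (A.filter (fun a => a < k - i - 1))
              (fun k' hk' => by have := (Finset.mem_filter.mp hk').2; omega)
              (ENNReal.ofReal (C * x ^ i)) (ENNReal.ofReal (q ^ (A.filter (fun a => a < k - i - 1)).card))
              (by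
                have h3 := hret P W hW N (k - i) k θ z hN hjk hθ'
                refine h3.trans (ENNReal.ofReal_le_ofReal ?_)
                have h4 : k - (k - i) = i := by omega
                rw [h4, ← hx]
                exact mul_le_mul_of_nonneg_right hC1C (by positivity))
              (fun z' => by
                have hes : e N (k - i) = s N (k - i - 1) := by
                  have h5 := e_succ hN (k - i - 1)
                  rwa [Nat.sub_add_cancel hj1] at h5
                exact ih _ hlt (fun y ω => fwd (path W ω) (e N (k - i) - θ) y) (BM_shift hW _) (k - i - 1) (e N (k - i))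
                  (le_of_eq hes) (A.filter (fun a => a < k - i - 1)) (fun k' hk' => (Finset.mem_filter.mp hk').2) rfl z')
            refine h2.trans ?_
            rw [← ENNReal.ofReal_mul (by positivity)]
            refine ENNReal.ofReal_le_ofReal (mul_le_mul_of_nonneg_left ?_ (by positivity))
            refine pow_le_pow_of_le_one hq0.le hq1 ?_
            have h5 : A ⊆ A.filter (fun a => a < k - i - 1) ∪ Finset.Icc (k - i - 1) k := by
              intro a ha
              rw [Finset.mem_union, Finset.mem_filter, Finset.mem_Icc]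
              have := hkmax a ha
              by_cases h : a < k - i - 1
              · exact Or.inl ⟨ha, h⟩
              · exact Or.inr ⟨by omega, this⟩
            have h6 := (Finset.card_le_card h5).trans (Finset.card_union_le _ _)
            rw [Nat.card_Icc, hcard] at h6
            omega
        have hfin : ∑ i ∈ Finset.Icc 1 k, C * x ^ i * q ^ (n - (i + 2)) ≤ q ^ n := by
          rw [hx, hq]
          refine sum_bound C (1 + C) hC (by linarith) ?_ N hKN n k
          nlinarith [mul_nonneg (by linarith : (0:ℝ) ≤ C) (by linarith : (0:ℝ) ≤ 1 + C)]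
        calc P {ω | ∀ k ∈ A, ∃ x : ℝ≥0, e N k ≤ θ + x ∧ ‖z + W x ω‖ < 4 * ell N k}
            ≤ P (⋃ i ∈ Finset.Icc 1 k, E i) := measure_mono hsub
          _ ≤ ∑ i ∈ Finset.Icc 1 k, P (E i) := measure_biUnion_finset_le _ _
          _ ≤ ∑ i ∈ Finset.Icc 1 k, ENNReal.ofReal (C * x ^ i * q ^ (n - (i + 2))) := Finset.sum_le_sum hbound
          _ = ENNReal.ofReal (∑ i ∈ Finset.Icc 1 k, C * x ^ i * q ^ (n - (i + 2))) := by
              rw [ENNReal.ofReal_sum_of_nonneg]
              intro i _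
              positivity
          _ ≤ ENNReal.ofReal (q ^ A.card) := by
              rw [hcard]
              exact ENNReal.ofReal_le_ofReal hfin
  intro b θ hθ A hA z
  exact main A.card W hW b θ hθ A hA rfl z

theorem out_bound : ∃ K : ℝ, 1 ≤ K ∧ ∀ {Ω : Type u} [MeasurableSpace Ω] (P : Measure Ω) [IsProbabilityMeasure P]
    (W : ℝ≥0 → Ω → V), BM W P → ∀ (N : ℕ), 2 ≤ N → K ≤ N → ∀ A : Finset ℕ,
    P {ω | ∀ k ∈ A, OutE N k Set.univ (path W ω)} ≤ ENNReal.ofReal ((K / N) ^ A.card) := by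
  obtain ⟨K, hK, h⟩ := out_gen.{u}
  refine ⟨K, hK, ?_⟩
  intro Ω _ P _ W hW N hN hKN A
  have h1 := h P W hW N hN hKN (A.sup id + 1) 0 zero_le A (fun k hk => by
    have h2 : id k ≤ A.sup id := Finset.le_sup hk
    exact Nat.lt_succ_of_le h2) 0
  refine le_trans (measure_mono ?_) h1
  intro ω hω k hk
  obtain ⟨x, hx1, hx2⟩ := hω k hk
  refine ⟨x, ?_, ?_⟩
  · rw [zero_add]
    exact hx1.1
  · rw [zero_add]
    exact hx2

end Pool.Agent.Lib.MP_098ea1_pr.BR
end
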