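import Pool.Agent.Lib.MP_098ea1_pr.BR.Cls

section

/-!
# Brownian motion in space and the topological Hausdorff dimension of its range: definitions

* `V = Fin 3 → ℝ` with the sup norm. `BM W P`: three-dimensional Brownian motion, measurable, all paths continuous.
* `past W t`, `fut W t`: the σ-algebras of the path up to `t` and of the increments after `t`. `path W ω`: the path.
* `fwd w c`, `bwd w c`: the two arms of the path `w` at the centre `c`.
* Scales: `ell N k = N^(-6k)`, `s N k = (ell N k / N^3)^2`, `e N k = (ell N k * N^3)^2`; `e N (k+1) = s N k`.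
* `uns i v`: the increment `v` is unsafe (an open condition). `InE`, `OutE`, `UnsE`: the bad events of an arm at the scale `k`.
* `FailE`: one of the six bad events at the centre `c`.
* `HS`: half shells. `Obox`, `Cap`, `Vset`, `Bad`, `BadT`: the modified half spaces and their bad points.
-/

set_option autoImplicit false

open MeasureTheory ProbabilityTheory Set Filter Topology
open scoped NNReal ENNReal

namespace Pool.Agent.Lib.MP_098ea1_pr.BR

universe u

/-- Points of space, with the sup norm. -/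
abbrev V : Type := Fin 3 → ℝ

section BM

variable {Ω : Type u} [MeasurableSpace Ω]

/-- Three-dimensional Brownian motion: measurable, all paths continuous and starting at `0`, the coordinates form a
centred Gaussian process with covariance `δ_ij min(s, t)`. -/
structure BM (W : ℝ≥0 → Ω → V) (P : Measure Ω) : Prop where
  meas : ∀ t, Measurable (W t)
  cont : ∀ ω, Continuous (fun t => W t ω)
  zero : ∀ ω, W 0 ω = 0
  gauss : IsGaussianProcess (fun (p : Fin 3 × ℝ≥0) ω => W p.2 ω p.1) P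
  mean : ∀ i t, ∫ ω, W t ω i ∂P = 0
  cov : ∀ i j x t, cov[fun ω => W x ω i, fun ω => W t ω j; P] = if i = j then ((min x t : ℝ≥0) : ℝ) else 0

/-- The σ-algebra of the path up to the time `t`. -/
@[reducible] def past (W : ℝ≥0 → Ω → V) (t : ℝ≥0) : MeasurableSpace Ω :=
  MeasurableSpace.comap (fun ω (x : Set.Iic t) => W x ω) inferInstance

/-- The σ-algebra of the increments after the time `t`. -/
@[reducible] def fut (W : ℝ≥0 → Ω → V) (t : ℝ≥0) : MeasurableSpace Ω :=
  MeasurableSpace.comap (fun ω (x : ℝ≥0) => W (t + x) ω - W t ω) inferInstance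

end BM

/-- The path of `ω`. -/
def path {Ω : Type u} (W : ℝ≥0 → Ω → V) (ω : Ω) : ℝ≥0 → V := fun t => W t ω

/-- The forward arm at the centre `c`. -/
def fwd (w : ℝ≥0 → V) (c : ℝ≥0) : ℝ≥0 → V := fun x => w (c + x) - w c

/-- The backward arm at the centre `c`, continued after the time `c` (so that the arm of a Brownian motion is a
Brownian motion). -/
noncomputable def bwd (w : ℝ≥0 → V) (c : ℝ≥0) : ℝ≥0 → V :=
  fun x => if x ≤ c then w (c - x) - w c else w x - (2 : ℝ) • w c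

/-- The length of scale `k`. -/
noncomputable def ell (N k : ℕ) : ℝ := ((N : ℝ) ^ (6 * k))⁻¹

/-- Start of the time window of scale `k`. -/
noncomputable def s (N k : ℕ) : ℝ≥0 := ((N : ℝ≥0) ^ (12 * k + 6))⁻¹

/-- End of the time window of scale `k`. -/
noncomputable def e (N k : ℕ) : ℝ≥0 := (N : ℝ≥0) ^ 6 * ((N : ℝ≥0) ^ (12 * k))⁻¹

/-- Unsafe increments (in units of `ell N k`). -/
def uns (i : Fin 3) (v : V) : Prop := -(1 / 4) < v i ∧ 3 / 4 < ‖v‖ ∧ ‖v‖ < 13 / 4

/-- The arm leaves the ball of radius `ell/16` before the time `s`. -/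
def InE (N k : ℕ) (f : ℝ≥0 → V) : Prop := ∃ x ∈ Set.Iic (s N k), ell N k / 16 < ‖f x‖

/-- The arm enters the ball of radius `4 ell` at a time of `I` after `e`. -/
def OutE (N k : ℕ) (I : Set ℝ≥0) (f : ℝ≥0 → V) : Prop := ∃ x ∈ Set.Ici (e N k) ∩ I, ‖f x‖ < 4 * ell N k

/-- An increment of the window is unsafe. -/
def UnsE (N k : ℕ) (i : Fin 3) (f : ℝ≥0 → V) : Prop :=
  ∃ x ∈ Set.Icc (s N k) (e N k), uns i ((ell N k)⁻¹ • (f x - f (s N k)))

/-- Scale `k` fails at the centre `c` of the path `w`; `τ` is the initial time. -/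
def FailE (N k : ℕ) (i : Fin 3) (τ c : ℝ≥0) (w : ℝ≥0 → V) : Prop :=
  InE N k (fwd w c) ∨ InE N k (bwd w c) ∨ OutE N k Set.univ (fwd w c) ∨ OutE N k (Set.Iic (c - τ)) (bwd w c) ∨
  (UnsE N k i (fwd w c) ∨ UnsE N k i (bwd w c))

/-- The half shell at `y`. -/
def HS (N k : ℕ) (i : Fin 3) (y : V) : Set V :=
  {x | y i ≤ x i ∧ ell N k ≤ ‖x - y‖ ∧ ‖x - y‖ ≤ 3 * ell N k}

/-- The path meets the ball `B(y, ell n)` in the time interval `I`, and all half shells of the scales
`k1 ≤ k < n` after `τ`. -/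
def EvE (N n k1 : ℕ) (i : Fin 3) (τ : ℝ≥0) (I : Set ℝ≥0) (y : V) (w : ℝ≥0 → V) : Prop :=
  (∃ t ∈ I, ‖w t - y‖ ≤ ell N n) ∧ ∀ k, k1 ≤ k → k < n → ∃ t ∈ Set.Ici τ, w t ∈ HS N k i y

/-- `c` is a grid point of level `k`. -/
def grid (N k : ℕ) (c : V) : Prop := ∀ j, ∃ m : ℤ, c j = m * ell N k

/-- The box over the plane `x i = a`. -/
def Obox (N k : ℕ) (i : Fin 3) (a : ℝ) (c : V) : Set V :=
  {x | |x i - a| < ell N k ∧ ∀ j, j ≠ i → |x j - c j| < 2 * ell N k}

/-- Its upper boundary. -/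
def Cap (N k : ℕ) (i : Fin 3) (a : ℝ) (c : V) : Set V :=
  {x | a ≤ x i ∧ x i ≤ a + ell N k ∧ (∀ j, j ≠ i → |x j - c j| ≤ 2 * ell N k) ∧
    (x i = a + ell N k ∨ ∃ j, j ≠ i ∧ |x j - c j| = 2 * ell N k)}

/-- The half space `x i < a` enlarged by all boxes of the scales `≥ k0` whose cap does not meet `R`. -/
def Vset (N k0 : ℕ) (i : Fin 3) (a : ℝ) (R : Set V) : Set V :=
  {x | x i < a ∨ ∃ k, k0 ≤ k ∧ ∃ c, grid N k c ∧ Cap N k i a c ∩ R = ∅ ∧ x ∈ Obox N k i a c}

/-- The bad points of the plane `x i = a`. -/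
def Bad (N k0 : ℕ) (i : Fin 3) (a : ℝ) (R : Set V) : Set V :=
  {x | x ∈ R ∧ x i = a ∧ ∀ k, k0 ≤ k → ∀ c, grid N k c → x ∈ Obox N k i a c → (Cap N k i a c ∩ R).Nonempty}

/-- The bad points visited between `2τ` and `T`, in the ball of radius `A`, with respect to the path after `τ`. -/
def BadT (N k1 : ℕ) (i : Fin 3) (a : ℝ) (τ T : ℝ≥0) (A : ℕ) (w : ℝ≥0 → V) : Set V :=
  {x | (∃ t ∈ Set.Icc (2 * τ) T, w t = x) ∧ x i = a ∧ ‖x‖ ≤ A ∧
    ∀ k, k1 ≤ k → ∀ c, grid N k c → x ∈ Obox N k i a c → ∃ t ∈ Set.Ici τ, w t ∈ Cap N k i a c}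

/-- The two estimates which the rest of the proof uses, with constants `N`, `q`. -/
structure Core (N : ℕ) (q : ℝ) : Prop where
  hN : 2 ≤ N
  q0 : 0 < q
  q1 : q < 1
  fail : ∀ {Ω : Type u} [MeasurableSpace Ω] (P : Measure Ω) [IsProbabilityMeasure P] (W : ℝ≥0 → Ω → V), BM W P →
    ∀ (i : Fin 3) (τ c : ℝ≥0) (A : Finset ℕ), τ ≤ c → (∀ k ∈ A, e N k ≤ c - τ) →
      P {ω | ∀ k ∈ A, FailE N k i τ c (path W ω)} ≤ ENNReal.ofReal (q ^ (2 * A.card))
  inE : ∀ {Ω : Type u} [MeasurableSpace Ω] (P : Measure Ω) [IsProbabilityMeasure P] (W : ℝ≥0 → Ω → V), BM W P →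
    ∀ A : Finset ℕ, P {ω | ∀ k ∈ A, InE N k (path W ω)} ≤ ENNReal.ofReal ((q / (N : ℝ) ^ 18) ^ (2 * A.card))

end Pool.Agent.Lib.MP_098ea1_pr.BR
end

section

/-!
# TASK BR BA: independent Brownian motions are jointly Gaussian

For a finite `I ⊆ Fin 3 × ℝ≥0` let `J` be the finite set of the times of `I`. For each `i` the vector `(W t i)_{t ∈ J}` is Gaussian (`(hW.coord i).isGaussianProcess`), and these three vectors are independent (`hW.indep`, `iIndepFun.comp` with the restrictions to `J`), so `(i, t) ↦ W t i` on `Fin 3 × J` has a Gaussian law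
(`Mathlib/Probability/Distributions/Gaussian/HasGaussianLaw/Independence.lean`: `iIndepFun.hasGaussianLaw`); restrict to `I` (a continuous linear map). Mean: `IsPreBrownianReal.integral_eval`. Covariance: `IsPreBrownianReal.covariance_eval` for `i = j`; for `i ≠ j` independence
(`IndepFun.covariance_eq_zero`).
-/

set_option autoImplicit false

open MeasureTheory ProbabilityTheory Set Filter Topology
open scoped NNReal ENNReal

namespace Pool.Agent.Lib.MP_098ea1_pr.BR

universe u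

variable {Ω : Type u} [MeasurableSpace Ω] {P : Measure Ω} {W : ℝ≥0 → Ω → EuclideanSpace ℝ (Fin 3)}

theorem IsBM3_prob (hW : IsBM3 W P) : IsProbabilityMeasure P := by
  exact (hW.coord 0).isGaussianProcess.isProbabilityMeasure

theorem IsBM3_gauss (hW : IsBM3 W P) : IsGaussianProcess (fun (p : Fin 3 × ℝ≥0) ω => W p.2 ω p.1) P := by
  classical
  refine ⟨fun I => ?_⟩
  have hI : iIndepFun (fun (i : Fin 3) (ω : Ω) (t : I.image Prod.snd) => W t ω i) P := by
    have h := hW.indep.comp (fun (i : Fin 3) (x : ℝ≥0 → ℝ) (t : I.image Prod.snd) => x t)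
      (fun i => measurable_pi_lambda _ fun t => measurable_pi_apply _)
    exact h
  have hG : ∀ i : Fin 3, HasGaussianLaw (fun (ω : Ω) (t : I.image Prod.snd) => W t ω i) P :=
    fun i => (hW.coord i).isGaussianProcess.hasGaussianLaw (I.image Prod.snd)
  have hJ := hI.hasGaussianLaw hG
  let L : (Fin 3 → (I.image Prod.snd) → ℝ) →L[ℝ] (I → ℝ) :=
    { toFun x p := x p.1.1 ⟨p.1.2, Finset.mem_image_of_mem Prod.snd p.2⟩
      map_add' x y := by ext; simp
      map_smul' c x := by ext; simp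
      cont := by fun_prop }
  exact hJ.map L

theorem IsBM3_mean (hW : IsBM3 W P) (i : Fin 3) (t : ℝ≥0) : ∫ ω, W t ω i ∂P = 0 := by
  exact (hW.coord i).integral_eval t

theorem IsBM3_cov (hW : IsBM3 W P) (i j : Fin 3) (x t : ℝ≥0) :
    cov[fun ω => W x ω i, fun ω => W t ω j; P] = if i = j then ((min x t : ℝ≥0) : ℝ) else 0 := by
  by_cases hij : i = j
  · subst hij
    rw [if_pos rfl]
    exact (hW.coord i).covariance_fun_eval x t
  · rw [if_neg hij]
    have h1 : IndepFun (fun ω => W x ω i) (fun ω => W t ω j) P := by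
      have hx : Measurable (fun y : ℝ≥0 → ℝ => y x) := measurable_pi_apply x
      have ht : Measurable (fun y : ℝ≥0 → ℝ => y t) := measurable_pi_apply t
      have h := (hW.indep.indepFun hij).comp hx ht
      exact h
    exact h1.covariance_eq_zero ((hW.coord i).isGaussianProcess.hasGaussianLaw_eval x).memLp_two
      ((hW.coord j).isGaussianProcess.hasGaussianLaw_eval t).memLp_two

end Pool.Agent.Lib.MP_098ea1_pr.BR
end

section

/-!
# TASK BR TR: from the sup norm to the Euclidean norm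

`toV x = fun i => x i` is (the function of) the continuous linear equivalence `EuclideanSpace.equiv (Fin 3) ℝ`, so bi-Lipschitz. It restricts to a homeomorphism `φ : R ≃ₜ toV '' R` which is Lipschitz with Lipschitz inverse. `𝓑' = {φ ⁻¹' U | U ∈ 𝓑}` is a basis (`IsTopologicalBasis.isInducing` or
`Homeomorph.isTopologicalBasis..`, `IsTopologicalBasis.inducing`), `frontier (φ ⁻¹' U) = φ ⁻¹' frontier U` (`Homeomorph.preimage_frontier`), and `φ ⁻¹' A = φ.symm '' A` has dimension at most that of `A` (`LipschitzWith.dimH_image_le`).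
-/

set_option autoImplicit false

open MeasureTheory ProbabilityTheory Set Filter Topology
open scoped NNReal ENNReal

namespace Pool.Agent.Lib.MP_098ea1_pr.BR

universe u

/-- The coordinates. -/
def toV (x : EuclideanSpace ℝ (Fin 3)) : V := fun i => x i

theorem transfer_basis (R : Set (EuclideanSpace ℝ (Fin 3))) (d : ℝ≥0∞)
    (h : ∃ 𝓑 : Set (Set (toV '' R)), TopologicalSpace.IsTopologicalBasis 𝓑 ∧ ∀ U ∈ 𝓑, dimH (frontier U) ≤ d) :
    ∃ 𝓑 : Set (Set R), TopologicalSpace.IsTopologicalBasis 𝓑 ∧ ∀ U ∈ 𝓑, dimH (frontier U) ≤ d := by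
  obtain ⟨𝓑, hB, hd⟩ := h
  have hto : toV = ⇑(EuclideanSpace.equiv (Fin 3) ℝ) := rfl
  let φ : R ≃ₜ (toV '' R) := (EuclideanSpace.equiv (Fin 3) ℝ).toHomeomorph.image R
  have hφ : ∀ x : R, ((φ x : toV '' R) : V) = EuclideanSpace.equiv (Fin 3) ℝ (x : EuclideanSpace ℝ (Fin 3)) :=
    fun x => rfl
  have hanti : ∃ K : ℝ≥0, AntilipschitzWith K φ := by
    refine ⟨‖((EuclideanSpace.equiv (Fin 3) ℝ).symm : V →L[ℝ] EuclideanSpace ℝ (Fin 3))‖₊, fun x y => ?_⟩
    have h1 := (EuclideanSpace.equiv (Fin 3) ℝ).antilipschitz (x : EuclideanSpace ℝ (Fin 3)) y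
    rw [← hφ x, ← hφ y] at h1
    exact h1
  obtain ⟨K, hK⟩ := hanti
  refine ⟨(preimage φ) '' 𝓑, hB.isInducing φ.isInducing, ?_⟩
  rintro _ ⟨U, hU, rfl⟩
  rw [← φ.preimage_frontier]
  exact (hK.dimH_preimage_le _).trans (hd U hU)

end Pool.Agent.Lib.MP_098ea1_pr.BR
end

section

/-!
# TASK BR BB: regularization

For rational `t` (image of `ℚ≥0`, a countable dense set `D` of `ℝ≥0`) choose measurable versions `w t i` of `ω ↦ W t ω i` (`(hW.coord i).aemeasurable t`, `AEMeasurable.mk`). Almost surely: the three coordinate paths are continuous (`IsBrownianReal.cont`), `W 0 ω i = 0` (`IsPreBrownianReal.eval_zero_ae_eq_zero`),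
`W t ω i = w t i ω` for all `t ∈ D`, `i`. Let `A` be a measurable set of full measure on which all this holds (complement of `toMeasurable` of the exceptional set). `W' t ω i = W t ω i` on `A`, `0` off `A`. `meas`: for `t_n ∈ D`, `t_n → t`, `W' t` is the pointwise limit of the measurable functions
`A.indicator (w (t_n) i)` (`measurable_of_tendsto_metrizable`, `measurable_pi_lambda`). `cont`, `zero`: clear. `W' t = W t` almost surely, so `gauss`, `mean`, `cov` follow from BA (`IsGaussianProcess` is invariant under a.e. equality of every value: `IsGaussianProcess.congr` or `HasGaussianLaw.congr`; `integral_congr_ae`,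
`covariance_congr`).
-/

set_option autoImplicit false

open MeasureTheory ProbabilityTheory Set Filter Topology
open scoped NNReal ENNReal

namespace Pool.Agent.Lib.MP_098ea1_pr.BR

universe u

variable {Ω : Type u} [MeasurableSpace Ω] {P : Measure Ω} {W : ℝ≥0 → Ω → EuclideanSpace ℝ (Fin 3)}

theorem regularize (hW : IsBM3 W P) : ∃ W' : ℝ≥0 → Ω → V, BM W' P ∧ ∀ᵐ ω ∂P, ∀ t, toV (W t ω) = W' t ω := by
  classical
  obtain ⟨D, hDc, hDd⟩ := TopologicalSpace.exists_countable_dense ℝ≥0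
  have hm : ∀ (i : Fin 3) (t : ℝ≥0), AEMeasurable (fun ω => W t ω i) P := fun i t => (hW.coord i).aemeasurable t
  obtain ⟨w, hw1, hw2⟩ : ∃ w : Fin 3 → ℝ≥0 → Ω → ℝ, (∀ i t, Measurable (w i t)) ∧
      ∀ i t, (fun ω => W t ω i) =ᵐ[P] w i t :=
    ⟨fun i t => (hm i t).mk _, fun i t => (hm i t).measurable_mk, fun i t => (hm i t).ae_eq_mk⟩
  have hgood : ∀ᵐ ω ∂P, (∀ i, Continuous (fun t => W t ω i)) ∧ (∀ i, W 0 ω i = 0) ∧
      ∀ t ∈ D, ∀ i, W t ω i = w i t ω := by
    have h1 : ∀ᵐ ω ∂P, ∀ i, Continuous (fun t => W t ω i) := ae_all_iff.2 fun i => (hW.coord i).cont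
    have h2 : ∀ᵐ ω ∂P, ∀ i, W 0 ω i = 0 := ae_all_iff.2 fun i => (hW.coord i).eval_zero_ae_eq_zero
    have h3 : ∀ᵐ ω ∂P, ∀ t ∈ D, ∀ i, W t ω i = w i t ω :=
      (ae_ball_iff hDc).2 fun t _ => ae_all_iff.2 fun i => hw2 i t
    filter_upwards [h1, h2, h3] with ω a1 a2 a3
    exact ⟨a1, a2, a3⟩
  obtain ⟨A, hA, hA1, hA2⟩ : ∃ A : Set Ω, MeasurableSet A ∧ (∀ ω ∈ A, (∀ i, Continuous (fun t => W t ω i)) ∧
      (∀ i, W 0 ω i = 0) ∧ ∀ t ∈ D, ∀ i, W t ω i = w i t ω) ∧ ∀ᵐ ω ∂P, ω ∈ A := by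
    refine ⟨(toMeasurable P {ω | ¬ ((∀ i, Continuous (fun t => W t ω i)) ∧ (∀ i, W 0 ω i = 0) ∧
      ∀ t ∈ D, ∀ i, W t ω i = w i t ω)})ᶜ, (measurableSet_toMeasurable _ _).compl, ?_, ?_⟩
    · intro ω hω
      by_contra h
      exact hω (subset_toMeasurable _ _ h)
    · have h0 : P (toMeasurable P {ω | ¬ ((∀ i, Continuous (fun t => W t ω i)) ∧ (∀ i, W 0 ω i = 0) ∧
          ∀ t ∈ D, ∀ i, W t ω i = w i t ω)}) = 0 := by
        rw [measure_toMeasurable]
        exact hgood
      exact measure_eq_zero_iff_ae_notMem.1 h0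
  obtain ⟨W', hW'⟩ : ∃ W' : ℝ≥0 → Ω → V, W' = fun t ω => if ω ∈ A then toV (W t ω) else 0 := ⟨_, rfl⟩
  have e1 : ∀ t, ∀ ω ∈ A, W' t ω = toV (W t ω) := by
    intro t ω hω
    rw [hW']
    exact if_pos hω
  have e2 : ∀ t ω, ω ∉ A → W' t ω = 0 := by
    intro t ω hω
    rw [hW']
    exact if_neg hω
  have e3 : ∀ t (i : Fin 3), (fun ω => W t ω i) =ᵐ[P] fun ω => W' t ω i := by
    intro t i
    filter_upwards [hA2] with ω hω
    rw [e1 t ω hω]
    rfl
  refine ⟨W', ⟨?_, ?_, ?_, ?_, ?_, ?_⟩, ?_⟩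
  · intro t
    refine measurable_pi_lambda _ fun i => ?_
    obtain ⟨u, hu, hut⟩ := mem_closure_iff_seq_limit.1 (hDd t)
    refine measurable_of_tendsto_metrizable (f := fun n => A.indicator (w i (u n)))
      (fun n => (hw1 i (u n)).indicator hA) ?_
    rw [tendsto_pi_nhds]
    intro ω
    by_cases hω : ω ∈ A
    · have h1 : (fun n => A.indicator (w i (u n)) ω) = fun n => W (u n) ω i := by
        funext n
        rw [indicator_of_mem hω]
        exact ((hA1 ω hω).2.2 (u n) (hu n) i).symm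
      rw [h1, e1 t ω hω]
      exact (((hA1 ω hω).1 i).tendsto t).comp hut
    · have h1 : (fun n => A.indicator (w i (u n)) ω) = fun _ => (0 : ℝ) := by
        funext n
        exact indicator_of_notMem hω _
      rw [h1, e2 t ω hω]
      exact tendsto_const_nhds
  · intro ω
    by_cases hω : ω ∈ A
    · have h1 : (fun t => W' t ω) = fun t => toV (W t ω) := by
        funext t
        exact e1 t ω hω
      rw [h1]
      exact continuous_pi fun i => (hA1 ω hω).1 i
    · have h1 : (fun t => W' t ω) = fun _ => (0 : V) := by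
        funext t
        exact e2 t ω hω
      rw [h1]
      exact continuous_const
  · intro ω
    by_cases hω : ω ∈ A
    · rw [e1 0 ω hω]
      funext i
      exact (hA1 ω hω).2.1 i
    · exact e2 0 ω hω
  · exact (IsBM3_gauss hW).congr fun p => e3 p.2 p.1
  · intro i t
    rw [← integral_congr_ae (e3 t i)]
    exact IsBM3_mean hW i t
  · intro i j x t
    have hc : cov[fun ω => W' x ω i, fun ω => W' t ω j; P] = cov[fun ω => W x ω i, fun ω => W t ω j; P] := by
      unfold covariance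
      rw [← integral_congr_ae (e3 x i), ← integral_congr_ae (e3 t j)]
      refine integral_congr_ae ?_
      filter_upwards [e3 x i, e3 t j] with ω h1 h2
      rw [← h1, ← h2]
    rw [hc]
    exact IsBM3_cov hW i j x t
  · filter_upwards [hA2] with ω hω t
    exact (e1 t ω hω).symm

end Pool.Agent.Lib.MP_098ea1_pr.BR
end

section

/-!
# TASK BR BS: shift and scaling of Brownian motion

Look at `Mathlib/Probability/BrownianMotion/Basic.lean` (`IsPreBrownianReal.shift`, `.smul`, `.indepFun_shift`): Gaussianity of the new process by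
`IsGaussianProcess.of_isGaussianProcess` (every value is a continuous linear function of finitely many values of the old process), mean and covariance by
bilinearity (`covariance_fun_sub_left`, `covariance_fun_sub_right`, `covariance_const_mul_left`, ...); the values are in `L²`
(`(hW.gauss.hasGaussianLaw_eval _).memLp_two`).
`shift`: covariance `min (c+x) (c+t) - min (c+x) c - min c (c+t) + c = min x t`. `scale`: `a⁻¹ a⁻¹ min (a² x) (a² t) = min x t`. Measurability and
continuity: composition.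
-/

set_option autoImplicit false

open MeasureTheory ProbabilityTheory Set Filter Topology
open scoped NNReal ENNReal

namespace Pool.Agent.Lib.MP_098ea1_pr.BR

universe u

variable {Ω : Type u} [MeasurableSpace Ω] {P : Measure Ω} [IsProbabilityMeasure P] {W : ℝ≥0 → Ω → V}

theorem BM_shift (hW : BM W P) (c : ℝ≥0) : BM (fun x ω => fwd (path W ω) c x) P := by
  classical
  have hL2 : ∀ (i : Fin 3) (t : ℝ≥0), MemLp (fun ω => W t ω i) 2 P := fun i t =>
    (hW.gauss.hasGaussianLaw_eval (i, t)).memLp_two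
  refine ⟨fun t => ?_, fun ω => ?_, fun ω => ?_, ?_, fun i t => ?_, fun i j x t => ?_⟩
  · exact (hW.meas (c + t)).sub (hW.meas c)
  · exact ((hW.cont ω).comp (continuous_const.add continuous_id)).sub continuous_const
  · simp [fwd, path]
  · exact hW.gauss.of_isGaussianProcess fun p => ⟨{(p.1, c), (p.1, c + p.2)},
      { toFun x := x ⟨(p.1, c + p.2), by simp⟩ - x ⟨(p.1, c), by simp⟩
        map_add' x y := by simp; abel
        map_smul' c x := by simp; ring }, fun ω => by simp [fwd, path]⟩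
  · have e : (fun ω => fwd (path W ω) c t i) = fun ω => W (c + t) ω i - W c ω i := rfl
    rw [e, integral_sub, hW.mean, hW.mean, sub_zero]
    · exact (hL2 i (c + t)).integrable one_le_two
    · exact (hL2 i c).integrable one_le_two
  · have e : ∀ (i : Fin 3) (t : ℝ≥0), (fun ω => fwd (path W ω) c t i) =
        fun ω => W (c + t) ω i - W c ω i := fun _ _ => rfl
    have hs : ∀ (i : Fin 3) (t : ℝ≥0), MemLp (fun ω => W (c + t) ω i - W c ω i) 2 P := fun i t =>
      (hL2 i (c + t)).sub (hL2 i c)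
    rw [e, e, covariance_fun_sub_left (hL2 i (c + x)) (hL2 i c) (hs j t),
      covariance_fun_sub_right (hL2 i (c + x)) (hL2 j (c + t)) (hL2 j c),
      covariance_fun_sub_right (hL2 i c) (hL2 j (c + t)) (hL2 j c), hW.cov, hW.cov, hW.cov, hW.cov]
    by_cases hij : i = j
    · simp only [hij, if_true]
      rw [← add_min, min_eq_right (le_self_add : c ≤ c + x), min_eq_left (le_self_add : c ≤ c + t),
        min_self]
      push_cast
      ring
    · simp only [hij, if_false, sub_zero]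

theorem BM_scale (hW : BM W P) {a : ℝ≥0} (ha : 0 < a) : BM (fun x ω => ((a : ℝ)⁻¹) • W (a ^ 2 * x) ω) P := by
  classical
  have hL2 : ∀ (i : Fin 3) (t : ℝ≥0), MemLp (fun ω => W t ω i) 2 P := fun i t =>
    (hW.gauss.hasGaussianLaw_eval (i, t)).memLp_two
  have ha' : (a : ℝ) ≠ 0 := by
    have : a ≠ 0 := ha.ne'
    exact_mod_cast this
  refine ⟨fun t => ?_, fun ω => ?_, fun ω => ?_, ?_, fun i t => ?_, fun i j x t => ?_⟩
  · exact (hW.meas (a ^ 2 * t)).const_smul ((a : ℝ)⁻¹)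
  · have h1 : Continuous fun t => W (a ^ 2 * t) ω :=
      (hW.cont ω).comp (continuous_const.mul continuous_id)
    exact h1.const_smul ((a : ℝ)⁻¹)
  · simp [hW.zero ω]
  · exact hW.gauss.of_isGaussianProcess fun p => ⟨{(p.1, a ^ 2 * p.2)},
      { toFun x := (a : ℝ)⁻¹ * x ⟨(p.1, a ^ 2 * p.2), by simp⟩
        map_add' x y := by simp; ring
        map_smul' c x := by simp; ring }, fun ω => by simp⟩
  · have e : (fun ω => ((a : ℝ)⁻¹ • W (a ^ 2 * t) ω) i) = fun ω => (a : ℝ)⁻¹ * W (a ^ 2 * t) ω i := rfl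
    rw [e, integral_const_mul, hW.mean, mul_zero]
  · have e : ∀ (i : Fin 3) (t : ℝ≥0), (fun ω => ((a : ℝ)⁻¹ • W (a ^ 2 * t) ω) i) =
        fun ω => (a : ℝ)⁻¹ * W (a ^ 2 * t) ω i := fun _ _ => rfl
    rw [e, e, covariance_const_mul_left, covariance_const_mul_right, hW.cov]
    by_cases hij : i = j
    · simp only [hij, if_true]
      have h1 : min (a ^ 2 * x) (a ^ 2 * t) = a ^ 2 * min x t := by
        rcases le_total x t with h | h
        · rw [min_eq_left h, min_eq_left (mul_le_mul_right h (a ^ 2))]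
        · rw [min_eq_right h, min_eq_right (mul_le_mul_right h (a ^ 2))]
      rw [h1]
      push_cast
      field_simp
    · simp only [hij, if_false, mul_zero]

end Pool.Agent.Lib.MP_098ea1_pr.BR
end

section

/-!
# TASK BR AB: independent σ-algebras and Fubini

`indep_diag`: let `f : (Ω, mΩ) → (Ω, m1)` and `g : (Ω, mΩ) → (Ω, m2)` be the identity maps; they are measurable and independent
(`IndepFun`, the comap of `m1` under the identity is `m1`), so the law of `(f, g)` on `(Ω × Ω, m1.prod m2)` is the product of the laws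
(`indepFun_iff_map_prod_eq_prod_map_map`), and the laws are the traces `P.trim h1`, `P.trim h2`; `(P.prod P) B` is the same number since `B` is in
`m1.prod m2` (the restriction of `P.prod P` to this σ-algebra is the product of the restrictions). Alternative: π-λ theorem
(`MeasurableSpace.induction_on_inter`) for the π-system of the rectangles `s ×ˢ t`, `s ∈ m1`, `t ∈ m2`; both sides are finite measures of `B`;
for rectangles it is the definition of independence.

`markov_le`: `P (A ∩ {(ω, ω) ∈ B}) = (P.prod P) ((A × Ω) ∩ B) = ∫_A P {ω | (ω', ω) ∈ B} dP(ω') ≤ P A * c` (`Measure.prod_apply`).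
`markov_le'`: the same with the roles exchanged (`Measure.prod_apply_symm`, or apply `markov_le` to the swapped set and `hind.symm`).
-/

set_option autoImplicit false

open MeasureTheory ProbabilityTheory Set Filter Topology
open scoped NNReal ENNReal

namespace Pool.Agent.Lib.MP_098ea1_pr.BR

universe u

variable {Ω : Type u} {m1 m2 : MeasurableSpace Ω} [mΩ : MeasurableSpace Ω]

private theorem AB_prod_le (h1 : m1 ≤ mΩ) (h2 : m2 ≤ mΩ) : m1.prod m2 ≤ mΩ.prod mΩ :=
  sup_le_sup (MeasurableSpace.comap_mono h1) (MeasurableSpace.comap_mono h2)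

private theorem AB_diag_meas (h1 : m1 ≤ mΩ) (h2 : m2 ≤ mΩ) {B : Set (Ω × Ω)}
    (hB : MeasurableSet[m1.prod m2] B) : MeasurableSet {ω : Ω | (ω, ω) ∈ B} := by
  have hm : @Measurable Ω (Ω × Ω) mΩ (m1.prod m2) (fun ω => (ω, ω)) :=
    @Measurable.prodMk Ω mΩ Ω Ω m1 m2 (fun ω => ω) (fun ω => ω) (measurable_id'' h1) (measurable_id'' h2)
  exact hm hB

theorem indep_inter (P : Measure Ω) (hind : Indep m1 m2 P) {A B : Set Ω} (hA : MeasurableSet[m1] A)
    (hB : MeasurableSet[m2] B) : P (A ∩ B) = P A * P B :=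
  (Indep_iff m1 m2 P).1 hind A B hA hB

theorem indep_diag (P : Measure Ω) [IsProbabilityMeasure P] (h1 : m1 ≤ mΩ) (h2 : m2 ≤ mΩ) (hind : Indep m1 m2 P)
    {B : Set (Ω × Ω)} (hB : MeasurableSet[m1.prod m2] B) : P {ω | (ω, ω) ∈ B} = (P.prod P) B := by
  have hle := AB_prod_le h1 h2
  refine MeasurableSpace.induction_on_inter (m := m1.prod m2)
    (C := fun B _ => P {ω | (ω, ω) ∈ B} = (P.prod P) B)
    (@generateFrom_prod Ω Ω m1 m2).symm (@isPiSystem_prod Ω Ω m1 m2) ?_ ?_ ?_ ?_ B hB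
  · simp
  · rintro _ ⟨s, hs, t, ht, rfl⟩
    have e : {ω : Ω | (ω, ω) ∈ s ×ˢ t} = s ∩ t := rfl
    rw [e, Measure.prod_prod]
    exact indep_inter P hind hs ht
  · intro t ht ih
    have e : {ω : Ω | (ω, ω) ∈ tᶜ} = {ω : Ω | (ω, ω) ∈ t}ᶜ := rfl
    rw [e, prob_compl_eq_one_sub (AB_diag_meas h1 h2 ht), prob_compl_eq_one_sub (hle _ ht), ih]
  · intro f hd hf ih
    have e : {ω : Ω | (ω, ω) ∈ ⋃ i, f i} = ⋃ i, {ω : Ω | (ω, ω) ∈ f i} := by
      ext ω
      simp
    rw [e, measure_iUnion _ fun i => AB_diag_meas h1 h2 (hf i), measure_iUnion hd fun i => hle _ (hf i)]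
    · exact tsum_congr ih
    · intro i j hij
      exact Set.disjoint_left.2 fun ω hi hj => Set.disjoint_left.1 (hd hij) hi hj

/-- `A` depends on the first σ-algebra, `B` on both. -/
theorem markov_le (P : Measure Ω) [IsProbabilityMeasure P] (h1 : m1 ≤ mΩ) (h2 : m2 ≤ mΩ) (hind : Indep m1 m2 P)
    {B : Set (Ω × Ω)} (hB : MeasurableSet[m1.prod m2] B) {A : Set Ω} (hA : MeasurableSet[m1] A) (c : ℝ≥0∞)
    (hc : ∀ ω', P {ω | (ω', ω) ∈ B} ≤ c) : P (A ∩ {ω | (ω, ω) ∈ B}) ≤ P A * c := by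
  have hA' : MeasurableSet[m1.prod m2] (A ×ˢ (univ : Set Ω)) :=
    @MeasurableSet.prod Ω Ω m1 m2 A univ hA (@MeasurableSet.univ Ω m2)
  have hAB : MeasurableSet[m1.prod m2] ((A ×ˢ (univ : Set Ω)) ∩ B) :=
    @MeasurableSet.inter _ (m1.prod m2) _ _ hA' hB
  have e : A ∩ {ω : Ω | (ω, ω) ∈ B} = {ω : Ω | (ω, ω) ∈ (A ×ˢ (univ : Set Ω)) ∩ B} := by
    ext ω
    simp
  rw [e, indep_diag P h1 h2 hind hAB, Measure.prod_apply (AB_prod_le h1 h2 _ hAB)]
  calc ∫⁻ ω', P (Prod.mk ω' ⁻¹' ((A ×ˢ (univ : Set Ω)) ∩ B)) ∂P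
      ≤ ∫⁻ ω', A.indicator (fun _ => c) ω' ∂P := by
        refine lintegral_mono fun ω' => ?_
        by_cases h : ω' ∈ A
        · rw [indicator_of_mem h]
          refine le_trans (measure_mono ?_) (hc ω')
          intro ω hω
          exact hω.2
        · rw [indicator_of_notMem h]
          have e2 : Prod.mk ω' ⁻¹' ((A ×ˢ (univ : Set Ω)) ∩ B) = ∅ := by
            ext ω
            simp [h]
          rw [e2, measure_empty]
    _ = P A * c := by
        rw [lintegral_indicator_const (h1 _ hA), mul_comm]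

/-- `A` depends on the second σ-algebra, `B` on both. -/
theorem markov_le' (P : Measure Ω) [IsProbabilityMeasure P] (h1 : m1 ≤ mΩ) (h2 : m2 ≤ mΩ) (hind : Indep m1 m2 P)
    {B : Set (Ω × Ω)} (hB : MeasurableSet[m1.prod m2] B) {A : Set Ω} (hA : MeasurableSet[m2] A) (c : ℝ≥0∞)
    (hc : ∀ ω', P {ω | (ω, ω') ∈ B} ≤ c) : P (A ∩ {ω | (ω, ω) ∈ B}) ≤ P A * c := by
  have hA' : MeasurableSet[m1.prod m2] ((univ : Set Ω) ×ˢ A) :=
    @MeasurableSet.prod Ω Ω m1 m2 univ A (@MeasurableSet.univ Ω m1) hA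
  have hAB : MeasurableSet[m1.prod m2] (((univ : Set Ω) ×ˢ A) ∩ B) :=
    @MeasurableSet.inter _ (m1.prod m2) _ _ hA' hB
  have e : A ∩ {ω : Ω | (ω, ω) ∈ B} = {ω : Ω | (ω, ω) ∈ ((univ : Set Ω) ×ˢ A) ∩ B} := by
    ext ω
    simp
  rw [e, indep_diag P h1 h2 hind hAB, Measure.prod_apply_symm (AB_prod_le h1 h2 _ hAB)]
  calc ∫⁻ ω', P ((fun ω => (ω, ω')) ⁻¹' (((univ : Set Ω) ×ˢ A) ∩ B)) ∂P
      ≤ ∫⁻ ω', A.indicator (fun _ => c) ω' ∂P := by
        refine lintegral_mono fun ω' => ?_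
        by_cases h : ω' ∈ A
        · rw [indicator_of_mem h]
          refine le_trans (measure_mono ?_) (hc ω')
          intro ω hω
          exact hω.2
        · rw [indicator_of_notMem h]
          have e2 : (fun ω => (ω, ω')) ⁻¹' (((univ : Set Ω) ×ˢ A) ∩ B) = ∅ := by
            ext ω
            simp [h]
          rw [e2, measure_empty]
    _ = P A * c := by
        rw [lintegral_indicator_const (h2 _ hA), mul_comm]

end Pool.Agent.Lib.MP_098ea1_pr.BR
end

section

/-!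
# TASK BR IS: a sum (numbers)

`q = 2 C x ≤ 1`. `q^(n ∸ (i+1)) ≤ q^n (2 C x)^(-(i+1))` (if `n < i + 1` the left side is 1 and the exponent on the right is negative; `x > 0`), so the term is at most `C (2C)^(-(i+1)) q^n`, and
`∑_i C (2C)^(-(i+1)) ≤ C/(2C - 1) ≤ 1`.
-/

set_option autoImplicit false

open MeasureTheory ProbabilityTheory Set Filter Topology
open scoped NNReal ENNReal

namespace Pool.Agent.Lib.MP_098ea1_pr.BR

universe u

theorem sum_bound2 (C x : ℝ) (hC : 1 ≤ C) (hx : 0 < x) (hq : 2 * C * x ≤ 1) (n m : ℕ) :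
    ∑ i ∈ Finset.range m, C * x ^ (i + 1) * (2 * C * x) ^ (n - (i + 1)) ≤ (2 * C * x) ^ n := by
  set q := 2 * C * x with hqd
  have hq0 : 0 < q := by positivity
  have hterm : ∀ i : ℕ, C * x ^ (i + 1) * q ^ (n - (i + 1)) ≤ (1 / 2 : ℝ) ^ (i + 1) * q ^ n := by
    intro i
    have h1 : C ≤ C ^ (i + 1) := le_self_pow₀ hC (Nat.succ_ne_zero i)
    have h2 : C * x ^ (i + 1) ≤ (1 / 2 : ℝ) ^ (i + 1) * q ^ (i + 1) := by
      calc C * x ^ (i + 1) ≤ C ^ (i + 1) * x ^ (i + 1) :=
            mul_le_mul_of_nonneg_right h1 (by positivity)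
        _ = (1 / 2 : ℝ) ^ (i + 1) * q ^ (i + 1) := by
            rw [← mul_pow, ← mul_pow, hqd]
            congr 1
            ring
    have h3 : q ^ (i + 1) * q ^ (n - (i + 1)) ≤ q ^ n := by
      rw [← pow_add]
      exact pow_le_pow_of_le_one hq0.le hq (by omega)
    calc C * x ^ (i + 1) * q ^ (n - (i + 1))
        ≤ (1 / 2 : ℝ) ^ (i + 1) * q ^ (i + 1) * q ^ (n - (i + 1)) :=
          mul_le_mul_of_nonneg_right h2 (by positivity)
      _ = (1 / 2 : ℝ) ^ (i + 1) * (q ^ (i + 1) * q ^ (n - (i + 1))) := by ring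
      _ ≤ _ := mul_le_mul_of_nonneg_left h3 (by positivity)
  have hsum : ∑ i ∈ Finset.range m, (1 / 2 : ℝ) ^ (i + 1) * q ^ n =
      (1 - (1 / 2 : ℝ) ^ m) * q ^ n := by
    induction m with
    | zero => simp
    | succ k ih =>
      rw [Finset.sum_range_succ, ih]
      ring
  refine (Finset.sum_le_sum fun i _ => hterm i).trans ?_
  rw [hsum]
  have h4 : (0 : ℝ) < (1 / 2 : ℝ) ^ m := by positivity
  have h5 : (0 : ℝ) < q ^ n := by positivity
  nlinarith

end Pool.Agent.Lib.MP_098ea1_pr.BR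
end

section

/-!
# TASK BR SC: the scales

Elementary. `s N k = (ell N k)² / N^6`, `e N k = (ell N k)² N^6`, `√(s N k) = ell N k / N^3`, `√(e N k) = ell N k · N^3`, `e N (k+1) = s N k`. `windows_cover`: the windows `[s N j, e N j]`, `1 ≤ j < k`,
cover `[s N (k-1), e N 1] = [e N k, s N 0]` (induction on `k`).
-/

set_option autoImplicit false

open MeasureTheory ProbabilityTheory Set Filter Topology
open scoped NNReal ENNReal

namespace Pool.Agent.Lib.MP_098ea1_pr.BR

universe u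

private theorem N_real {N : ℕ} (hN : 2 ≤ N) : (2 : ℝ) ≤ N := by exact_mod_cast hN

private theorem N_nn {N : ℕ} (hN : 2 ≤ N) : (2 : ℝ≥0) ≤ N := by exact_mod_cast hN

private theorem N_pos {N : ℕ} (hN : 2 ≤ N) : (0 : ℝ) < N := lt_of_lt_of_le two_pos (N_real hN)

private theorem N_nnpos {N : ℕ} (hN : 2 ≤ N) : (0 : ℝ≥0) < N := lt_of_lt_of_le two_pos (N_nn hN)

theorem ell_pos {N : ℕ} (hN : 2 ≤ N) (k : ℕ) : 0 < ell N k := inv_pos.2 (pow_pos (N_pos hN) _)

theorem ell_le_one {N : ℕ} (hN : 2 ≤ N) (k : ℕ) : ell N k ≤ 1 :=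
  inv_le_one_of_one_le₀ (one_le_pow₀ (by linarith [N_real hN]))

/-- `ell N k = ell N m / N^(6 (k - m))`. -/
theorem ell_mul {N : ℕ} (hN : 2 ≤ N) {m k : ℕ} (h : m ≤ k) : ell N m = ell N k * (N : ℝ) ^ (6 * (k - m)) := by
  have h0 := N_pos hN
  obtain ⟨j, rfl⟩ := Nat.exists_eq_add_of_le h
  unfold ell
  rw [Nat.add_sub_cancel_left, mul_add, pow_add, mul_inv, mul_assoc, inv_mul_cancel₀ (pow_pos h0 _).ne', mul_one]

theorem ell_anti {N : ℕ} (hN : 2 ≤ N) {m k : ℕ} (h : m ≤ k) : ell N k ≤ ell N m := by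
  rw [ell_mul hN h]
  have h1 := ell_pos hN k
  have h2 : (1 : ℝ) ≤ (N : ℝ) ^ (6 * (k - m)) := one_le_pow₀ (by linarith [N_real hN])
  nlinarith

theorem ell_lt {N : ℕ} (hN : 2 ≤ N) {m k : ℕ} (h : m < k) : 64 * ell N k ≤ ell N m := by
  rw [ell_mul hN h.le]
  have h1 := ell_pos hN k
  have h2 : (64 : ℝ) ≤ (N : ℝ) ^ (6 * (k - m)) := by
    calc (64 : ℝ) = 2 ^ 6 := by norm_num
      _ ≤ (N : ℝ) ^ 6 := pow_le_pow_left₀ (by norm_num) (N_real hN) 6
      _ ≤ (N : ℝ) ^ (6 * (k - m)) := pow_le_pow_right₀ (by linarith [N_real hN]) (by omega)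
  nlinarith

theorem ell_tendsto {N : ℕ} (hN : 2 ≤ N) : Tendsto (ell N) atTop (𝓝 0) := by
  have h1 : ell N = fun k => (((N : ℝ) ^ 6)⁻¹) ^ k := by
    funext k
    unfold ell
    rw [pow_mul, inv_pow]
  rw [h1]
  refine tendsto_pow_atTop_nhds_zero_of_lt_one (inv_nonneg.2 (pow_nonneg (N_pos hN).le _)) ?_
  exact inv_lt_one_of_one_lt₀ (one_lt_pow₀ (by linarith [N_real hN]) (by norm_num))

theorem s_pos {N : ℕ} (hN : 2 ≤ N) (k : ℕ) : 0 < s N k := inv_pos.2 (pow_pos (N_nnpos hN) _)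

theorem e_pos {N : ℕ} (hN : 2 ≤ N) (k : ℕ) : 0 < e N k :=
  mul_pos (pow_pos (N_nnpos hN) _) (inv_pos.2 (pow_pos (N_nnpos hN) _))

theorem e_succ {N : ℕ} (hN : 2 ≤ N) (k : ℕ) : e N (k + 1) = s N k := by
  have h0 := (N_nnpos hN).ne'
  unfold e s
  rw [show 12 * (k + 1) = 6 + (12 * k + 6) by ring, pow_add _ 6, mul_inv, ← mul_assoc,
    mul_inv_cancel₀ (pow_ne_zero _ h0), one_mul]

theorem s_anti {N : ℕ} (hN : 2 ≤ N) {m k : ℕ} (h : m ≤ k) : s N k ≤ s N m :=
  inv_anti₀ (pow_pos (N_nnpos hN) _) (pow_le_pow_right₀ (le_trans (by norm_num) (N_nn hN)) (by omega))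

theorem e_anti {N : ℕ} (hN : 2 ≤ N) {m k : ℕ} (h : m ≤ k) : e N k ≤ e N m :=
  mul_le_mul_of_nonneg_left (inv_anti₀ (pow_pos (N_nnpos hN) _)
    (pow_le_pow_right₀ (le_trans (by norm_num) (N_nn hN)) (by omega))) zero_le

theorem two_s {N : ℕ} (hN : 2 ≤ N) {m k : ℕ} (h : m < k) : 2 * s N k ≤ s N m := by
  have h0 := (N_nnpos hN).ne'
  have h1 : s N m = s N k * (N : ℝ≥0) ^ (12 * (k - m)) := by
    obtain ⟨j, rfl⟩ := Nat.exists_eq_add_of_le h.le
    unfold s
    rw [Nat.add_sub_cancel_left, show 12 * (m + j) + 6 = (12 * m + 6) + 12 * j by ring, pow_add _ (12 * m + 6),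
      mul_inv, mul_assoc, inv_mul_cancel₀ (pow_ne_zero _ h0), mul_one]
  rw [h1, mul_comm]
  refine mul_le_mul_of_nonneg_left ?_ zero_le
  calc (2 : ℝ≥0) ≤ N := N_nn hN
    _ = (N : ℝ≥0) ^ 1 := (pow_one _).symm
    _ ≤ (N : ℝ≥0) ^ (12 * (k - m)) := pow_le_pow_right₀ (le_trans (by norm_num) (N_nn hN)) (by omega)

theorem s_lt_e {N : ℕ} (hN : 2 ≤ N) (k : ℕ) : s N k < e N k := by
  have h0 := N_nnpos hN
  have h1 : e N k = s N k * (N : ℝ≥0) ^ 12 := by
    unfold s e
    rw [pow_add, mul_inv, mul_comm, mul_assoc]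
    congr 1
    rw [show (12 : ℕ) = 6 + 6 by rfl, pow_add, ← mul_assoc, inv_mul_cancel₀ (pow_ne_zero _ h0.ne'), one_mul]
  rw [h1]
  have h2 : (1 : ℝ≥0) < (N : ℝ≥0) ^ 12 := one_lt_pow₀ (lt_of_lt_of_le (by norm_num) (N_nn hN)) (by norm_num)
  exact lt_mul_of_one_lt_right (s_pos hN k) h2

private theorem s_real (N k : ℕ) : ((s N k : ℝ≥0) : ℝ) = ((N : ℝ) ^ (12 * k + 6))⁻¹ := by
  unfold s
  push_cast
  rfl

private theorem e_real (N k : ℕ) : ((e N k : ℝ≥0) : ℝ) = (N : ℝ) ^ 6 * ((N : ℝ) ^ (12 * k))⁻¹ := by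
  unfold e
  push_cast
  rfl

theorem sqrt_s {N : ℕ} (hN : 2 ≤ N) (k : ℕ) : Real.sqrt (s N k) = ell N k / (N : ℝ) ^ 3 := by
  have h0 := N_pos hN
  have h1 : ((s N k : ℝ≥0) : ℝ) = (ell N k / (N : ℝ) ^ 3) ^ 2 := by
    rw [s_real]
    unfold ell
    rw [div_pow, inv_pow, ← pow_mul, ← pow_mul, div_eq_mul_inv, ← mul_inv, ← pow_add]
    congr 2
    ring
  rw [h1, Real.sqrt_sq (div_nonneg (ell_pos hN k).le (pow_nonneg h0.le _))]

theorem sqrt_e {N : ℕ} (hN : 2 ≤ N) (k : ℕ) : Real.sqrt (e N k) = ell N k * (N : ℝ) ^ 3 := by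
  have h0 := N_pos hN
  have h1 : ((e N k : ℝ≥0) : ℝ) = (ell N k * (N : ℝ) ^ 3) ^ 2 := by
    rw [e_real]
    unfold ell
    rw [mul_pow, inv_pow, ← pow_mul, ← pow_mul, mul_comm]
    congr 3
    ring
  rw [h1, Real.sqrt_sq (mul_nonneg (ell_pos hN k).le (pow_nonneg h0.le _))]

theorem e_tendsto {N : ℕ} (hN : 2 ≤ N) : Tendsto (e N) atTop (𝓝 0) := by
  rw [← NNReal.tendsto_coe, NNReal.coe_zero]
  have h1 : (fun k => ((e N k : ℝ≥0) : ℝ)) = fun k => (ell N k) ^ 2 * (N : ℝ) ^ 6 := by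
    funext k
    rw [e_real]
    unfold ell
    rw [inv_pow, ← pow_mul, mul_comm]
    congr 3
    ring
  rw [h1]
  have h2 := ((ell_tendsto hN).pow 2).mul_const ((N : ℝ) ^ 6)
  simpa using h2

/-- The number of centres: `1 / s N n = N^6 / (ell N n)^2`. -/
theorem inv_s {N : ℕ} (hN : 2 ≤ N) (k : ℕ) : ((s N k : ℝ))⁻¹ = (N : ℝ) ^ 6 * ((ell N k) ^ 2)⁻¹ := by
  rw [s_real]
  unfold ell
  rw [inv_inv, inv_pow, inv_inv, ← pow_mul, ← pow_add]
  congr 1
  ring

theorem windows_cover {N : ℕ} (hN : 2 ≤ N) {k : ℕ} (hk : 1 ≤ k) {x : ℝ≥0} (hx : e N k ≤ x) :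
    s N 0 ≤ x ∨ ∃ j, 1 ≤ j ∧ j < k ∧ s N j ≤ x ∧ x ≤ e N j := by
  induction k, hk using Nat.le_induction with
  | base =>
    left
    rwa [show (1 : ℕ) = 0 + 1 by rfl, e_succ hN] at hx
  | succ k hk ih =>
    rw [e_succ hN] at hx
    rcases le_or_gt x (e N k) with h | h
    · exact Or.inr ⟨k, hk, Nat.lt_succ_self k, hx, h⟩
    · rcases ih h.le with h1 | ⟨j, hj1, hj2, hj3, hj4⟩
      · exact Or.inl h1
      · exact Or.inr ⟨j, hj1, by omega, hj3, hj4⟩

end Pool.Agent.Lib.MP_098ea1_pr.BR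
end

section

/-!
# TASK BR CH: chaining (deterministic)

Let `b m = (S/8) (7/8)^m`, so `∑_{m' ≤ m} b m' = S (1 - (7/8)^(m+1)) ≤ S` (`S ≥ 0` follows from the hypothesis for `m = 0`). By induction on `m`: for all `i ≤ 2^m`,
`‖f (i T / 2^m)‖ ≤ ∑_{m' ≤ m} b m'`. `m = 0`: `f 0 = 0` and `‖f T - f 0‖ ≤ b 0`. Step: for `i = 2 i'` the point is one of the level `m`; for `i = 2 i' + 1` it is at one
step of level `m+1` from `2 i' / 2^(m+1) = i'/2^m`. The dyadic points `i T / 2^m` are dense in `[0, T]` and `f` is continuous (`T = 0` is trivial).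
-/

set_option autoImplicit false

open MeasureTheory ProbabilityTheory Set Filter Topology
open scoped NNReal ENNReal

namespace Pool.Agent.Lib.MP_098ea1_pr.BR

universe u

theorem chaining (f : ℝ≥0 → V) (hf : Continuous f) (h0 : f 0 = 0) (T : ℝ≥0) (S : ℝ)
    (h : ∀ m i : ℕ, i < 2 ^ m → ‖f (((i + 1 : ℕ) : ℝ≥0) * T / 2 ^ m) - f ((i : ℝ≥0) * T / 2 ^ m)‖ ≤
      S / 8 * (7 / 8 : ℝ) ^ m) : ∀ x ≤ T, ‖f x‖ ≤ S := by
  have hS : 0 ≤ S := by
    have h1 := (norm_nonneg _).trans (h 0 0 (by norm_num))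
    simp only [pow_zero, mul_one] at h1
    linarith
  have hpow : ∀ m : ℕ, (0 : ℝ) ≤ (7 / 8 : ℝ) ^ m := fun m => by positivity
  have key : ∀ m i : ℕ, i ≤ 2 ^ m → ‖f ((i : ℝ≥0) * T / 2 ^ m)‖ ≤ S * (1 - (7 / 8 : ℝ) ^ (m + 1)) := by
    intro m
    induction m with
    | zero =>
      intro i hi
      rw [pow_zero] at hi
      have h1 := h 0 0 (by norm_num)
      simp only [Nat.cast_zero, zero_mul, h0, sub_zero, pow_zero, mul_one, zero_add,
        Nat.cast_one, one_mul, div_one] at h1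
      rcases Nat.le_one_iff_eq_zero_or_eq_one.1 hi with rfl | rfl
      · simp only [Nat.cast_zero, zero_mul, zero_div, h0, norm_zero]
        norm_num
        exact hS
      · simp only [Nat.cast_one, one_mul, pow_zero, div_one]
        refine h1.trans (le_of_eq ?_)
        ring
    | succ m ih =>
      intro i hi
      have hm := mul_nonneg hS (hpow (m + 1))
      have e1 : S * (1 - (7 / 8 : ℝ) ^ (m + 1 + 1)) = S * (1 - (7 / 8 : ℝ) ^ (m + 1)) +
          S * (7 / 8 : ℝ) ^ (m + 1) * (1 / 8) := by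
        rw [pow_succ (7 / 8 : ℝ) (m + 1)]
        ring
      have hev : ∀ j : ℕ, ((2 * j : ℕ) : ℝ≥0) * T / 2 ^ (m + 1) = (j : ℝ≥0) * T / 2 ^ m := by
        intro j
        push_cast
        rw [pow_succ, mul_comm ((2 : ℝ≥0) ^ m) 2, mul_assoc, mul_div_mul_left _ _ two_ne_zero]
      rcases Nat.even_or_odd' i with ⟨j, rfl | rfl⟩
      · rw [hev, e1]
        have h2 := ih j (by rw [pow_succ] at hi; omega)
        linarith
      · have hj : j < 2 ^ m := by rw [pow_succ] at hi; omega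
        have h2 := ih j hj.le
        have h3 := h (m + 1) (2 * j) (by rw [pow_succ]; omega)
        rw [hev] at h3
        have h4 := norm_le_insert' (f (((2 * j + 1 : ℕ) : ℝ≥0) * T / 2 ^ (m + 1))) (f ((j : ℝ≥0) * T / 2 ^ m))
        rw [e1]
        linarith
  intro x hx
  rcases eq_or_lt_of_le (zero_le (a := T)) with hT | hT
  · have hx0 : x = 0 := le_antisymm (by rw [hT]; exact hx) zero_le
    rw [hx0, h0, norm_zero]
    exact hS
  · have hTr : (0 : ℝ) < T := by exact_mod_cast hT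
    have ht : Tendsto (fun m : ℕ => ((⌊((x : ℝ) / T) * (2 : ℝ) ^ m⌋₊ : ℕ) : ℝ≥0) * T / 2 ^ m) atTop (𝓝 x) := by
      rw [← NNReal.tendsto_coe]
      have h5 : Tendsto (fun m : ℕ => ((⌊((x : ℝ) / T) * (2 : ℝ) ^ m⌋₊ : ℕ) : ℝ) / (2 : ℝ) ^ m) atTop
          (𝓝 ((x : ℝ) / T)) :=
        (tendsto_nat_floor_mul_div_atTop (div_nonneg x.coe_nonneg T.coe_nonneg)).comp
          (tendsto_pow_atTop_atTop_of_one_lt (by norm_num))
      have h6 := h5.mul_const (T : ℝ)
      rw [div_mul_cancel₀ _ hTr.ne'] at h6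
      refine h6.congr fun m => ?_
      push_cast
      ring
    have hle : ∀ m : ℕ, ‖f (((⌊((x : ℝ) / T) * (2 : ℝ) ^ m⌋₊ : ℕ) : ℝ≥0) * T / 2 ^ m)‖ ≤ S := by
      intro m
      have h7 : ⌊((x : ℝ) / T) * (2 : ℝ) ^ m⌋₊ ≤ 2 ^ m := by
        apply Nat.floor_le_of_le
        push_cast
        have h8 : (x : ℝ) / T ≤ 1 := (div_le_one hTr).2 (by exact_mod_cast hx)
        have h9 : (0 : ℝ) ≤ (2 : ℝ) ^ m := by positivity
        nlinarith
      refine (key m _ h7).trans ?_
      nlinarith [hpow (m + 1), mul_nonneg hS (hpow (m + 1))]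
    exact le_of_tendsto' (((hf.tendsto x).comp ht).norm) hle

end Pool.Agent.Lib.MP_098ea1_pr.BR
end

section

/-!
# TASK BR DN: the density bound

The law of `W t i` is `gaussianReal 0 t` (mean 0, variance `t` by `hW.cov`; a Gaussian law on `ℝ` is determined by mean and variance). Its density is at most
`1/√(2πt)`, so an interval of length `2r` has probability at most `2r/√(2πt) ≤ r/√t` (`2 ≤ √(2π)`). The three coordinates at the time `t` are independent
(jointly Gaussian, uncorrelated: `HasGaussianLaw.iIndepFun_of_covariance_eq_zero`), `‖z + W t ω‖ < r` iff `|z i + W t ω i| < r` for all `i`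
(`pi_norm_lt_iff`), and the probability is the product.
-/

set_option autoImplicit false

open MeasureTheory ProbabilityTheory Set Filter Topology
open scoped NNReal ENNReal

namespace Pool.Agent.Lib.MP_098ea1_pr.BR

universe u

variable {Ω : Type u} [MeasurableSpace Ω] {P : Measure Ω} [IsProbabilityMeasure P] {W : ℝ≥0 → Ω → V}

theorem coord_law (hW : BM W P) (i : Fin 3) {x t : ℝ≥0} (h : x ≤ t) :
    HasLaw (fun ω => W t ω i - W x ω i) (gaussianReal 0 (t - x)) P := by
  have hg : ∀ y : ℝ≥0, HasGaussianLaw (fun ω => W y ω i) P :=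
    fun y => hW.gauss.hasGaussianLaw_eval (i, y)
  have hl : HasGaussianLaw (fun ω => W t ω i - W x ω i) P :=
    hW.gauss.hasGaussianLaw_fun_sub (s := (i, t)) (t := (i, x))
  have h2 : ∀ y : ℝ≥0, MemLp (fun ω => W y ω i) 2 P := fun y => (hg y).memLp_two
  refine ⟨hl.aemeasurable, ?_⟩
  rw [hl.map_eq_gaussianReal]
  have hmean : ∫ ω, (W t ω i - W x ω i) ∂P = 0 := by
    rw [integral_sub (hg t).integrable (hg x).integrable, hW.mean, hW.mean, sub_zero]
  have hvar : Var[fun ω => W t ω i - W x ω i; P] = ((t - x : ℝ≥0) : ℝ) := by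
    rw [← covariance_self hl.aemeasurable, covariance_fun_sub_fun_sub (h2 t) (h2 x) (h2 t) (h2 x),
      hW.cov, hW.cov, hW.cov, hW.cov, if_pos rfl, if_pos rfl, if_pos rfl, if_pos rfl,
      min_self, min_self, min_eq_left h, min_eq_right h, NNReal.coe_sub h]
    ring
  rw [hmean, hvar, Real.toNNReal_coe]

private theorem DN_interval {t : ℝ≥0} (ht : 0 < t) (a : ℝ) {r : ℝ} (hr : 0 < r) :
    gaussianReal 0 t {y : ℝ | |a + y| < r} ≤ ENNReal.ofReal (r / Real.sqrt t) := by
  have hset : {y : ℝ | |a + y| < r} = Set.Ioo (-r - a) (r - a) := by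
    ext y
    rw [Set.mem_ofPred_eq, Set.mem_Ioo, abs_lt]
    constructor
    · rintro ⟨h1, h2⟩
      constructor <;> linarith
    · rintro ⟨h1, h2⟩
      constructor <;> linarith
  have htr : (0 : ℝ) < t := by exact_mod_cast ht
  rw [hset, gaussianReal_apply 0 ht.ne']
  have hbound : ∀ x : ℝ, gaussianPDF 0 t x ≤ ENNReal.ofReal ((Real.sqrt (2 * Real.pi * t))⁻¹) := by
    intro x
    unfold gaussianPDF
    apply ENNReal.ofReal_le_ofReal
    rw [gaussianPDFReal_def]
    have h1 : Real.exp (-(x - 0) ^ 2 / (2 * (t : ℝ))) ≤ 1 := by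
      rw [Real.exp_le_one_iff]
      apply div_nonpos_of_nonpos_of_nonneg
      · have := sq_nonneg (x - 0)
        linarith
      · positivity
    have h2 : 0 ≤ (Real.sqrt (2 * Real.pi * t))⁻¹ := by positivity
    calc (Real.sqrt (2 * Real.pi * t))⁻¹ * Real.exp (-(x - 0) ^ 2 / (2 * (t : ℝ)))
        ≤ (Real.sqrt (2 * Real.pi * t))⁻¹ * 1 := mul_le_mul_of_nonneg_left h1 h2
      _ = (Real.sqrt (2 * Real.pi * t))⁻¹ := mul_one _
  calc ∫⁻ x in Set.Ioo (-r - a) (r - a), gaussianPDF 0 t x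
      ≤ ∫⁻ _ in Set.Ioo (-r - a) (r - a), ENNReal.ofReal ((Real.sqrt (2 * Real.pi * t))⁻¹) :=
        lintegral_mono (fun x => hbound x)
    _ = ENNReal.ofReal ((Real.sqrt (2 * Real.pi * t))⁻¹) * ENNReal.ofReal (2 * r) := by
        rw [setLIntegral_const, Real.volume_Ioo]
        congr 2
        ring
    _ = ENNReal.ofReal ((Real.sqrt (2 * Real.pi * t))⁻¹ * (2 * r)) := by
        rw [← ENNReal.ofReal_mul (by positivity)]
    _ ≤ ENNReal.ofReal (r / Real.sqrt t) := by
        apply ENNReal.ofReal_le_ofReal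
        have h3 : 2 * Real.sqrt t ≤ Real.sqrt (2 * Real.pi * t) := by
          apply Real.le_sqrt_of_sq_le
          rw [mul_pow, Real.sq_sqrt htr.le]
          nlinarith [Real.pi_gt_three]
        have h4 : 0 < Real.sqrt t := Real.sqrt_pos.2 htr
        rw [inv_mul_eq_div, div_le_div_iff₀ (by linarith) h4]
        nlinarith

theorem density_bound (hW : BM W P) {t : ℝ≥0} (ht : 0 < t) (z : V) {r : ℝ} (hr : 0 < r) :
    P {ω | ‖z + W t ω‖ < r} ≤ ENNReal.ofReal ((r / Real.sqrt t) ^ 3) := by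
  have hgt : HasGaussianLaw (fun ω (i : Fin 3) => W t ω i) P := by
    have h1 : IsGaussianProcess (fun (i : Fin 3) ω => W t ω i) P :=
      hW.gauss.comp_right (fun i : Fin 3 => (i, t))
    have h2 := h1.hasGaussianLaw Finset.univ
    let L : (↥(Finset.univ : Finset (Fin 3)) → ℝ) →L[ℝ] (Fin 3 → ℝ) :=
      { toFun := fun x i => x ⟨i, Finset.mem_univ i⟩
        map_add' := fun x y => rfl
        map_smul' := fun c x => rfl
        cont := by fun_prop }
    exact h2.map_fun L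
  have hind : iIndepFun (fun (i : Fin 3) ω => W t ω i) P := by
    refine HasGaussianLaw.iIndepFun_of_covariance_eq_zero hgt ?_
    intro i j hij
    rw [hW.cov, if_neg hij]
  have hset : {ω | ‖z + W t ω‖ < r} =
      ⋂ i ∈ (Finset.univ : Finset (Fin 3)), (fun ω => W t ω i) ⁻¹' {y : ℝ | |z i + y| < r} := by
    ext ω
    rw [Set.mem_ofPred_eq, pi_norm_lt_iff hr]
    simp only [Finset.mem_univ, Set.iInter_true, Set.mem_iInter, Set.mem_preimage,
      Set.mem_ofPred_eq, Pi.add_apply, Real.norm_eq_abs]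
  have hmeas : ∀ i : Fin 3, MeasurableSet {y : ℝ | |z i + y| < r} := by
    intro i
    exact measurableSet_lt (by fun_prop) measurable_const
  rw [hset, hind.measure_inter_preimage_eq_mul Finset.univ (fun i _ => hmeas i)]
  have hlaw : ∀ i : Fin 3, P ((fun ω => W t ω i) ⁻¹' {y : ℝ | |z i + y| < r}) ≤
      ENNReal.ofReal (r / Real.sqrt t) := by
    intro i
    have h1 := coord_law hW i (zero_le (a := t))
    have h2 : (fun ω => W t ω i - W 0 ω i) = fun ω => W t ω i := by
      funext ω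
      rw [hW.zero ω]
      simp
    rw [h2, tsub_zero] at h1
    rw [← Measure.map_apply_of_aemeasurable h1.aemeasurable (hmeas i), h1.map_eq]
    exact DN_interval ht (z i) hr
  calc ∏ i ∈ (Finset.univ : Finset (Fin 3)), P ((fun ω => W t ω i) ⁻¹' {y : ℝ | |z i + y| < r})
      ≤ ∏ i ∈ (Finset.univ : Finset (Fin 3)), ENNReal.ofReal (r / Real.sqrt t) :=
        Finset.prod_le_prod' (fun i _ => hlaw i)
    _ = ENNReal.ofReal ((r / Real.sqrt t) ^ 3) := by
        rw [Finset.prod_const, Finset.card_univ, Fintype.card_fin,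
          ENNReal.ofReal_pow (by positivity)]

end Pool.Agent.Lib.MP_098ea1_pr.BR
end

section

/-!
# TASK BR RM: measurability of events of continuous paths

`meas_exists`: `I` has a countable subset `D` which is dense in `I` (`ℝ≥0` is a separable metric space:
`(TopologicalSpace.IsSeparable.of_separableSpace I)`, `exists_countable_dense_subset` or `TopologicalSpace.exists_countable_dense I` for the
subtype). For a continuous path and `O` open: some `t ∈ I` has `X t ω ∈ O` iff some `t ∈ D` has (the set of `t : I` with `X t ω ∈ O` is open in the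
subtype `I`, so it meets the dense set if it is nonempty). A countable union of measurable sets.

`past_meas`, `fut_meas`: composition of the defining map with an evaluation; in `fut_meas` write `x = t + x'`, `y = t + y'` and
`W x - W y = (W (t+x') - W t) - (W (t+y') - W t)`. `past_mono`: the restriction of the path to `Iic t` is a measurable function of the restriction to
`Iic t'`. `fut_anti`: `W (t'+x) - W t' = (W (t + (t'-t) + x) - W t) - (W (t + (t'-t)) - W t)`.
`past_le`, `fut_le`: the defining maps are measurable (`measurable_pi_lambda`).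

`InE_meas`, `OutE_meas`, `UnsE_meas`: `meas_exists` with the open sets `{v | ell/16 < ‖v‖}`, `{v | ‖v‖ < 4 ell}` and
`{v | uns i v}` (for the process `x ↦ (ell)⁻¹ • (X x - X (s N k))`).
-/

set_option autoImplicit false

open MeasureTheory ProbabilityTheory Set Filter Topology
open scoped NNReal ENNReal

namespace Pool.Agent.Lib.MP_098ea1_pr.BR

universe u

theorem meas_exists {Ω : Type*} {E : Type*} [TopologicalSpace E] [MeasurableSpace E] [OpensMeasurableSpace E]
    (m : MeasurableSpace Ω) (X : ℝ≥0 → Ω → E) (I : Set ℝ≥0) (hX : ∀ t ∈ I, Measurable[m] (X t))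
    (hc : ∀ ω, Continuous (fun t => X t ω)) (O : Set E) (hO : IsOpen O) :
    MeasurableSet[m] {ω | ∃ t ∈ I, X t ω ∈ O} := by
  obtain ⟨D, hDc, hDd⟩ := TopologicalSpace.exists_countable_dense I
  have heq : {ω | ∃ t ∈ I, X t ω ∈ O} = ⋃ t ∈ D, {ω | X (t : ℝ≥0) ω ∈ O} := by
    ext ω
    simp only [Set.mem_ofPred_eq, Set.mem_iUnion, exists_prop]
    constructor
    · rintro ⟨t, ht, hO'⟩
      have hopen : IsOpen {t : I | X (t : ℝ≥0) ω ∈ O} := hO.preimage ((hc ω).comp continuous_subtype_val)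
      obtain ⟨x, hx1, hx2⟩ := hDd.exists_mem_open hopen ⟨⟨t, ht⟩, hO'⟩
      exact ⟨x, hx1, hx2⟩
    · rintro ⟨t, _, h⟩
      exact ⟨t, t.2, h⟩
  rw [heq]
  refine MeasurableSet.biUnion hDc (fun t _ => ?_)
  exact (hX t t.2) hO.measurableSet

variable {Ω : Type u} [mΩ : MeasurableSpace Ω]

theorem past_meas (W : ℝ≥0 → Ω → V) {x t : ℝ≥0} (h : x ≤ t) : Measurable[past W t] (W x) := by
  have h1 : Measurable[past W t] (fun ω (x : Set.Iic t) => W x ω) := comap_measurable _
  exact (measurable_pi_apply (⟨x, h⟩ : Set.Iic t)).comp h1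

theorem fut_meas (W : ℝ≥0 → Ω → V) {x y t : ℝ≥0} (hx : t ≤ x) (hy : t ≤ y) :
    Measurable[fut W t] (fun ω => W x ω - W y ω) := by
  have h1 : Measurable[fut W t] (fun ω (x : ℝ≥0) => W (t + x) ω - W t ω) := comap_measurable _
  have h2 : ∀ z, Measurable[fut W t] (fun ω => W (t + z) ω - W t ω) := fun z => (measurable_pi_apply z).comp h1
  have h3 := (h2 (x - t)).sub (h2 (y - t))
  rw [add_tsub_cancel_of_le hx, add_tsub_cancel_of_le hy] at h3
  convert h3 using 2
  funext ω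
  simp

theorem past_mono (W : ℝ≥0 → Ω → V) {t t' : ℝ≥0} (h : t ≤ t') : past W t ≤ past W t' := by
  have h1 : Measurable[past W t'] (fun ω (x : Set.Iic t) => W x ω) :=
    @measurable_pi_lambda _ _ _ (past W t') _ _ (fun x => past_meas W (le_trans x.2 h))
  exact h1.comap_le

theorem fut_anti (W : ℝ≥0 → Ω → V) {t t' : ℝ≥0} (h : t ≤ t') : fut W t' ≤ fut W t := by
  have h1 : Measurable[fut W t] (fun ω (x : ℝ≥0) => W (t' + x) ω - W t' ω) :=
    @measurable_pi_lambda _ _ _ (fut W t) _ _ (fun x => fut_meas W (h.trans le_self_add) h)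
  exact h1.comap_le

theorem past_le (W : ℝ≥0 → Ω → V) (hW : ∀ t, Measurable (W t)) (t : ℝ≥0) : past W t ≤ mΩ := by
  have h1 : Measurable (fun ω (x : Set.Iic t) => W x ω) := measurable_pi_lambda _ (fun x => hW x)
  exact h1.comap_le

theorem fut_le (W : ℝ≥0 → Ω → V) (hW : ∀ t, Measurable (W t)) (t : ℝ≥0) : fut W t ≤ mΩ := by
  have h1 : Measurable (fun ω (x : ℝ≥0) => W (t + x) ω - W t ω) :=
    measurable_pi_lambda _ (fun x => (hW (t + x)).sub (hW t))
  exact h1.comap_le

theorem InE_meas {Ω : Type*} (m : MeasurableSpace Ω) (N k : ℕ) (X : ℝ≥0 → Ω → V)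
    (hX : ∀ t ∈ Set.Iic (s N k), Measurable[m] (X t)) (hc : ∀ ω, Continuous (fun t => X t ω)) :
    MeasurableSet[m] {ω | InE N k (fun t => X t ω)} := by
  exact meas_exists m X (Set.Iic (s N k)) hX hc {v | ell N k / 16 < ‖v‖} (isOpen_lt continuous_const continuous_norm)

theorem OutE_meas {Ω : Type*} (m : MeasurableSpace Ω) (N k : ℕ) (I : Set ℝ≥0) (X : ℝ≥0 → Ω → V)
    (hX : ∀ t ∈ Set.Ici (e N k) ∩ I, Measurable[m] (X t)) (hc : ∀ ω, Continuous (fun t => X t ω)) :
    MeasurableSet[m] {ω | OutE N k I (fun t => X t ω)} := by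
  exact meas_exists m X (Set.Ici (e N k) ∩ I) hX hc {v | ‖v‖ < 4 * ell N k} (isOpen_lt continuous_norm continuous_const)

theorem RM_uns_open (i : Fin 3) : IsOpen {v : V | uns i v} := by
  have h1 : IsOpen {v : V | -(1 / 4) < v i} := isOpen_lt continuous_const (continuous_apply i)
  have h2 : IsOpen {v : V | 3 / 4 < ‖v‖} := isOpen_lt continuous_const continuous_norm
  have h3 : IsOpen {v : V | ‖v‖ < 13 / 4} := isOpen_lt continuous_norm continuous_const
  exact (h1.inter (h2.inter h3))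

theorem UnsE_meas {Ω : Type*} (m : MeasurableSpace Ω) (N k : ℕ) (i : Fin 3) (X : ℝ≥0 → Ω → V)
    (hX : ∀ t ∈ Set.Icc (s N k) (e N k), Measurable[m] (fun ω => X t ω - X (s N k) ω))
    (hc : ∀ ω, Continuous (fun t => X t ω)) :
    MeasurableSet[m] {ω | UnsE N k i (fun t => X t ω)} := by
  refine meas_exists m (fun t ω => (ell N k)⁻¹ • (X t ω - X (s N k) ω)) (Set.Icc (s N k) (e N k)) (fun t ht => ?_)
    (fun ω => by
      have h1 : Continuous (fun t => X t ω - X (s N k) ω) := (hc ω).sub continuous_const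
      exact (continuous_const_smul (ell N k)⁻¹).comp h1) {v | uns i v} (RM_uns_open i)
  exact (measurable_const_smul (ell N k)⁻¹).comp (hX t ht)

end Pool.Agent.Lib.MP_098ea1_pr.BR
end
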